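import Pool.Agent.H10.DG.Defs

/-!
# DG-D9: an invariant subspace of small codimension

PROOF.  Let `T : U →ₗ U` be the restriction of `f(A)` (`U` is stable under `A`, hence under
`aeval A f`).  `T` is not injective, so not surjective (`LinearMap.injective_iff_surjective`), so
there is a nonzero functional `φ : U →ₗ F` with `φ ∘ T = 0` (`Submodule.exists_le_ker_of_lt_top`
for the range of `T`).  Let `m = f.natDegree` and `U'` the set of `x ∈ U` with `φ (A^i x) = 0` for
all `i < m` (a submodule).  `U'` is invariant: for `x ∈ U'`, `φ (A^i (A x)) = φ (A^(i+1) x)` is `0`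
for `i + 1 < m`, and for `i + 1 = m`, as `f` is monic, `A^m x = f(A) x - ∑_{i<m} a_i A^i x`, so
`φ (A^m x) = φ (T x) - ∑ a_i φ (A^i x) = 0`.  `m ≥ 1` (a monic polynomial of degree `0` is `1`,
then `f(A) x = x ≠ 0`), so `x ∈ U'` implies `φ x = 0`, and `U' ≠ U` as `φ ≠ 0`.  `U'` is (the image
of) the kernel of the linear map `U → (Fin m → F)`, `x ↦ (φ (A^i x))_i`, so
`finrank U ≤ finrank U' + m` (`LinearMap.finrank_range_add_finrank_ker`).
-/

set_option autoImplicit false

namespace Pool.Agent.H10.DG

open Matrix Classical Pool.Agent.H66.SP Pool.Agent.H95.SQ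

theorem Codim_aeval {F : Type*} [Field F] {V : Type*} [Fintype V] [DecidableEq V]
    (A : Matrix V V F) (U : Submodule F (V → F)) (S : Module.End F U)
    (hS : ∀ x : U, (S x : V → F) = A *ᵥ (x : V → F)) (q : Polynomial F) (x : U) :
    ((Polynomial.aeval S q) x : V → F) = (Polynomial.aeval A q) *ᵥ (x : V → F) := by
  have hpow : ∀ (n : ℕ) (x : U), ((S ^ n) x : V → F) = (A ^ n) *ᵥ (x : V → F) := by
    intro n
    induction n with
    | zero => intro x; simp
    | succ n ih =>
      intro x
      rw [pow_succ, Module.End.mul_apply, ih (S x), hS x, Matrix.mulVec_mulVec, ← pow_succ]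
  rw [Polynomial.aeval_eq_sum_range, Polynomial.aeval_eq_sum_range, LinearMap.sum_apply,
    Matrix.sum_mulVec, Submodule.coe_sum]
  refine Finset.sum_congr rfl fun i _ => ?_
  rw [LinearMap.smul_apply, Submodule.coe_smul, hpow, Matrix.smul_mulVec]

theorem exists_codim {F : Type*} [Field F] {V : Type*} [Fintype V] [DecidableEq V]
    (A : Matrix V V F) (U : Submodule F (V → F)) (hA : ∀ x ∈ U, A *ᵥ x ∈ U)
    (f : Polynomial F) (hf : f.Monic)
    (hx : ∃ x ∈ U, x ≠ 0 ∧ (Polynomial.aeval A f) *ᵥ x = 0) :
    ∃ U' : Submodule F (V → F), U' < U ∧ (∀ x ∈ U', A *ᵥ x ∈ U') ∧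
      Module.finrank F U ≤ Module.finrank F U' + f.natDegree := by
  obtain ⟨x, hxU, hx0, hxf⟩ := hx
  let S : Module.End F U := A.mulVecLin.restrict hA
  have hS : ∀ x : U, (S x : V → F) = A *ᵥ (x : V → F) := fun x => rfl
  have hae := Codim_aeval A U S hS
  have hninj : ¬ Function.Injective (Polynomial.aeval S f : Module.End F U) := by
    intro hinj
    apply hx0
    have h1 : (Polynomial.aeval S f) (⟨x, hxU⟩ : U) = (Polynomial.aeval S f) 0 := by
      apply Subtype.ext
      rw [hae]
      simpa using hxf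
    have h2 := hinj h1
    exact congrArg Subtype.val h2
  have hnsurj : ¬ Function.Surjective (Polynomial.aeval S f : Module.End F U) := fun h =>
    hninj ((LinearMap.injective_iff_surjective).2 h)
  have hlt : LinearMap.range (Polynomial.aeval S f : Module.End F U) < ⊤ := by
    rw [lt_top_iff_ne_top]
    intro h
    exact hnsurj (LinearMap.range_eq_top.1 h)
  obtain ⟨φ, hφ0, hφ⟩ := Submodule.exists_le_ker_of_lt_top _ hlt
  set m := f.natDegree with hm
  have hm1 : 1 ≤ m := by
    by_contra hcon
    have h0 : f.natDegree = 0 := by omega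
    have h1 : f = 1 := (Polynomial.Monic.natDegree_eq_zero hf).1 h0
    rw [h1, map_one, Matrix.one_mulVec] at hxf
    exact hx0 hxf
  let Ψ : U →ₗ[F] (Fin m → F) := LinearMap.pi fun i : Fin m => φ ∘ₗ (S ^ (i : ℕ))
  have hΨ : ∀ x : U, x ∈ LinearMap.ker Ψ ↔ ∀ i < m, φ ((S ^ i) x) = 0 := by
    intro x
    rw [LinearMap.mem_ker]
    constructor
    · intro h i hi
      exact congrFun h ⟨i, hi⟩
    · intro h
      funext i
      exact h i i.2
  refine ⟨(LinearMap.ker Ψ).map U.subtype, ?_, ?_, ?_⟩
  · refine lt_of_le_of_ne ?_ ?_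
    · rintro y ⟨z, _, rfl⟩
      exact z.2
    · intro heq
      apply hφ0
      ext y
      have hy : (y : V → F) ∈ (LinearMap.ker Ψ).map U.subtype := by
        rw [heq]
        exact y.2
      obtain ⟨z, hz, hzy⟩ := hy
      have hzy' : z = y := Subtype.ext hzy
      rw [hzy'] at hz
      have h0 := (hΨ y).1 hz 0 (by omega)
      simpa using h0
  · rintro y ⟨z, hz, rfl⟩
    refine ⟨S z, ?_, rfl⟩
    have hz' := (hΨ z).1 hz
    rw [SetLike.mem_coe, hΨ]
    intro i hi
    have h1 : (S ^ i) (S z) = (S ^ (i + 1)) z := by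
      rw [pow_succ, Module.End.mul_apply]
    rw [h1]
    rcases Nat.lt_or_ge (i + 1) m with h | h
    · exact hz' _ h
    · have him : i + 1 = m := by omega
      rw [him]
      have h2 : φ ((Polynomial.aeval S f) z) = 0 := hφ ⟨z, rfl⟩
      rw [Polynomial.aeval_eq_sum_range, Finset.sum_range_succ, LinearMap.add_apply, map_add,
        LinearMap.sum_apply, map_sum, hf.coeff_natDegree, one_smul, ← hm] at h2
      rw [Finset.sum_eq_zero, zero_add] at h2
      · exact h2
      · intro j hj
        rw [LinearMap.smul_apply, map_smul, hz' j (Finset.mem_range.1 hj), smul_zero]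
  · have h1 := LinearMap.finrank_range_add_finrank_ker Ψ
    have h2 : Module.finrank F (LinearMap.range Ψ) ≤ m := by
      have := Submodule.finrank_le (LinearMap.range Ψ)
      rwa [Module.finrank_fin_fun] at this
    have h3 : Module.finrank F ((LinearMap.ker Ψ).map U.subtype)
        = Module.finrank F (LinearMap.ker Ψ) := Submodule.finrank_map_subtype_eq U _
    omega

end Pool.Agent.H10.DG
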