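import Pool.Agent.H95.SQ.Defs

/-!
# Reduction for generalized spectra: definitions

`GenCo G H`: same characteristic polynomial, and the same for the complements.
`IsMate G H Q`: `Q` rational, orthogonal, with row sums `1`, and `Qᵀ A(G) Q = A(H)`.
`IsLevel Q l`: `l ≥ 1` is the level of `Q`.
`LL Q N` is the lattice of the integer vectors `N Q z`, `z` integral, `UU Q p i` the reduction of
`LL Q (p ^ i)` modulo `p`.
`Ob p G U`: `U` is invariant, totally isotropic and orthogonal to the all ones vector.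
`Ob2 G U`: `U` (over the field with two elements) is invariant and doubly even.
`Dat p r j G`: `r` integer vectors, independent modulo `p`, whose span is invariant modulo `p ^ j`
and totally isotropic modulo `p ^ j`.
-/

set_option autoImplicit false

namespace Pool.Agent.H10.DG

open Matrix Pool.Agent.H66.SP Pool.Agent.H95.SQ

/-- the same generalized spectrum -/
def GenCo {V : Type*} [Fintype V] [DecidableEq V] (G H : SimpleGraph V) : Prop :=
  (adj ℤ G).charpoly = (adj ℤ H).charpoly ∧ (adj ℤ Gᶜ).charpoly = (adj ℤ Hᶜ).charpoly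

/-- the rational orthogonal matrix `Q` fixes the all ones vector and carries `A(G)` to `A(H)` -/
structure IsMate {V : Type*} [Fintype V] [DecidableEq V] (G H : SimpleGraph V)
    (Q : Matrix V V ℚ) : Prop where
  orth : Qᵀ * Q = 1
  conj : Qᵀ * adj ℚ G * Q = adj ℚ H
  one : Q *ᵥ (fun _ => (1 : ℚ)) = fun _ => 1

/-- `l` is the level of `Q` -/
structure IsLevel {V : Type*} (Q : Matrix V V ℚ) (l : ℕ) : Prop where
  pos : 0 < l
  int : ∃ M : Matrix V V ℤ, ∀ i j, (l : ℚ) * Q i j = (M i j : ℚ)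
  min : ∀ p : ℕ, p.Prime → p ∣ l →
    ¬ ∃ M : Matrix V V ℤ, ∀ i j, ((l / p : ℕ) : ℚ) * Q i j = (M i j : ℚ)

/-- the lattice of the integer vectors `N Q z` with `z` integral -/
def LL {V : Type*} [Fintype V] (Q : Matrix V V ℚ) (N : ℕ) : AddSubgroup (V → ℤ) where
  carrier := {u | ∃ z : V → ℤ, ∀ v, (u v : ℚ) = N * (Q *ᵥ fun w => (z w : ℚ)) v}
  add_mem' := by
    rintro u u' ⟨z, hz⟩ ⟨z', hz'⟩
    refine ⟨z + z', fun v => ?_⟩
    have h : (fun w => (((z + z') w : ℤ) : ℚ)) = (fun w => (z w : ℚ)) + fun w => (z' w : ℚ) := by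
      funext w
      simp
    rw [h, Matrix.mulVec_add, Pi.add_apply, Pi.add_apply, mul_add, ← hz v, ← hz' v]
    push_cast
    rfl
  zero_mem' := by
    refine ⟨0, fun v => ?_⟩
    have h : (fun w : V => (((0 : V → ℤ) w : ℤ) : ℚ)) = 0 := by
      funext w
      simp
    rw [h, Matrix.mulVec_zero]
    simp
  neg_mem' := by
    rintro u ⟨z, hz⟩
    refine ⟨-z, fun v => ?_⟩
    have h : (fun w => (((-z) w : ℤ) : ℚ)) = -(fun w => (z w : ℚ)) := by
      funext w
      simp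
    rw [h, Matrix.mulVec_neg, Pi.neg_apply, Pi.neg_apply, mul_neg, ← hz v]
    push_cast
    rfl

/-- the reduction of `LL Q (p ^ i)` modulo `p` -/
def UU {V : Type*} [Fintype V] (Q : Matrix V V ℚ) (p : ℕ) (i : ℕ) :
    Submodule (ZMod p) (V → ZMod p) where
  carrier := {x | ∃ u ∈ LL Q (p ^ i), ∀ v, x v = ((u v : ℤ) : ZMod p)}
  add_mem' := by
    rintro x x' ⟨u, hu, h⟩ ⟨u', hu', h'⟩
    refine ⟨u + u', (LL Q (p ^ i)).add_mem hu hu', fun v => ?_⟩
    rw [Pi.add_apply, h v, h' v, Pi.add_apply]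
    push_cast
    rfl
  zero_mem' := ⟨0, (LL Q (p ^ i)).zero_mem, fun v => by simp⟩
  smul_mem' := by
    rintro c x ⟨u, hu, h⟩
    refine ⟨(c.cast : ℤ) • u, (LL Q (p ^ i)).zsmul_mem hu _, fun v => ?_⟩
    rw [Pi.smul_apply, h v, Pi.smul_apply, smul_eq_mul, smul_eq_mul]
    push_cast
    rfl

/-- obstruction in characteristic `p` -/
def Ob (p : ℕ) {V : Type*} [Fintype V] (G : SimpleGraph V)
    (U : Submodule (ZMod p) (V → ZMod p)) : Prop :=
  (∀ x ∈ U, adj (ZMod p) G *ᵥ x ∈ U) ∧ (∀ x ∈ U, ∀ y ∈ U, x ⬝ᵥ y = 0) ∧ ∀ x ∈ U, ∑ v, x v = 0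

/-- obstruction in characteristic two -/
def Ob2 {V : Type*} [Fintype V] (G : SimpleGraph V)
    (U : Submodule (ZMod 2) (V → ZMod 2)) : Prop :=
  (∀ x ∈ U, adj (ZMod 2) G *ᵥ x ∈ U) ∧ ∀ x ∈ U, 4 ∣ nz x

/-- obstruction modulo `p ^ j` -/
def Dat (p r j : ℕ) {V : Type*} [Fintype V] (G : SimpleGraph V) : Prop :=
  ∃ u : Fin r → V → ℤ,
    LinearIndependent (ZMod p) (fun (a : Fin r) (v : V) => ((u a v : ℤ) : ZMod p)) ∧
    (∃ θ : Fin r → Fin r → ℤ, ∀ a v,
      (p : ℤ) ^ j ∣ (adj ℤ G *ᵥ u a) v - ∑ b, θ a b * u b v) ∧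
    ∀ a b, (p : ℤ) ^ j ∣ u a ⬝ᵥ u b

end Pool.Agent.H10.DG
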