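import Mathlib

/-!
# DG-R1: the determinant of `M + J`

PROOF.  Let `F = FractionRing R`, `N = M.map (algebraMap R F)`; `N.det ≠ 0` is a unit.  By
`Matrix.det_add_replicateCol_mul_replicateRow` with `u = v = fun _ => 1` (`ι = Unit`),
`(N + J).det = N.det * (1 + ∑ i j, N⁻¹ i j)` and `N.det * N⁻¹ i j = N.adjugate i j`
(`Matrix.inv_def`).  Both sides are images under `algebraMap R F` (injective:
`IsFractionRing.injective`) of the two sides of the claim (`RingHom.map_det`,
`RingHom.map_adjugate`).
-/

set_option autoImplicit false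

namespace Pool.Agent.H10.DG

open Matrix

theorem DetJ_field {F : Type*} [Field F] {V : Type*} [Fintype V] [DecidableEq V]
    (N : Matrix V V F) (h : N.det ≠ 0) :
    (N + Matrix.of fun _ _ => (1 : F)).det = N.det + ∑ i, ∑ j, N.adjugate i j := by
  have hu : IsUnit N.det := isUnit_iff_ne_zero.2 h
  have h1 := Matrix.det_add_replicateCol_mul_replicateRow (ι := Unit) hu
    (fun _ => (1 : F)) (fun _ => (1 : F))
  have e1 : (replicateCol Unit (fun _ : V => (1 : F)) * replicateRow Unit fun _ : V => (1 : F)) =
      Matrix.of fun _ _ => (1 : F) := by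
    ext i j
    simp [Matrix.mul_apply]
  rw [e1] at h1
  have e2 : ((1 : Matrix Unit Unit F) + replicateRow Unit (fun _ : V => (1 : F)) * N⁻¹ *
      replicateCol Unit (fun _ : V => (1 : F))).det = 1 + ∑ j, ∑ i, N⁻¹ i j := by
    rw [Matrix.det_unique]
    simp [Matrix.mul_apply, Matrix.add_apply]
  rw [h1, e2, mul_add, mul_one, Finset.sum_comm, Finset.mul_sum]
  congr 1
  refine Finset.sum_congr rfl fun i _ => ?_
  rw [Finset.mul_sum]
  refine Finset.sum_congr rfl fun j _ => ?_
  rw [Matrix.inv_def, Matrix.smul_apply, smul_eq_mul, ← mul_assoc, Ring.mul_inverse_cancel _ hu,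
    one_mul]

theorem det_add_ones {R : Type*} [CommRing R] [IsDomain R] {V : Type*} [Fintype V] [DecidableEq V]
    (M : Matrix V V R) (h : M.det ≠ 0) :
    (M + Matrix.of fun _ _ => (1 : R)).det = M.det + ∑ i, ∑ j, M.adjugate i j := by
  let F := FractionRing R
  have hinj : Function.Injective (algebraMap R F) := IsFractionRing.injective R F
  apply hinj
  have h1 : (M.map (algebraMap R F)).det ≠ 0 := by
    have h2 : (M.map (algebraMap R F)).det = algebraMap R F M.det := by
      rw [RingHom.map_det]
      rfl
    rw [h2]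
    intro h3
    rw [← map_zero (algebraMap R F)] at h3
    exact h (hinj h3)
  have h4 := DetJ_field (M.map (algebraMap R F)) h1
  have e1 : (algebraMap R F).mapMatrix (M + Matrix.of fun _ _ => (1 : R)) =
      M.map (algebraMap R F) + Matrix.of fun _ _ => (1 : F) := by
    ext i j
    simp
  have e0 : algebraMap R F (M + Matrix.of fun _ _ => (1 : R)).det =
      ((algebraMap R F).mapMatrix (M + Matrix.of fun _ _ => (1 : R))).det := RingHom.map_det _ _
  have e5 : algebraMap R F M.det = (M.map (algebraMap R F)).det := RingHom.map_det _ _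
  rw [e0, e1, h4, map_add, e5, map_sum]
  congr 1
  refine Finset.sum_congr rfl fun i _ => ?_
  rw [map_sum]
  refine Finset.sum_congr rfl fun j _ => ?_
  have e2 := (algebraMap R F).map_adjugate M
  have e3 := congrFun (congrFun e2 i) j
  rw [RingHom.mapMatrix_apply, Matrix.map_apply] at e3
  rw [e3]
  rfl

end Pool.Agent.H10.DG
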