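import Pool.Agent.H10.DG.Defs

/-!
# DG-D8: scalar extension and eigenvectors

`KS p U` is the `KK p`-span of `U ≤ (ZMod p)^V`.

PROOFS.
* `linInd_ext`: let `∑ i, c_i x_i(v) = 0` for all `v` (a finite sum), `c_i ∈ K`.  For every
  `F`-linear `f : K → F`: `∑ i, f(c_i) x_i(v) = 0` for all `v`, so `f (c_i) = 0` for all `i`; as this
  holds for all `f`, `c_i = 0` (`Module.forall_dual_apply_eq_zero_iff`).
* `KS_stable`: `A_K (x_K) = (A x)_K`, span induction.
* `KS_dot`, `KS_sum`: span induction.
* `exists_eigvec`: `KS p U ≠ ⊥` is stable under `A_K = A.map (algebraMap ..)` and finite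
  dimensional over the algebraically closed field `KK p`, so there are `μ` and
  `0 ≠ w ∈ KS p U` with `A_K w = μ w` (`Module.End.exists_eigenvalue` for the restriction).  Let
  `f = minpoly (ZMod p) μ`; `(aeval A f)_K w = f(μ) w = 0` (induction on `f`; `aeval` commutes with
  the map of matrices: `Polynomial.map_aeval_eq_aeval_map` or by hand).  Suppose that
  `(aeval A f) *ᵥ x ≠ 0` for all `0 ≠ x ∈ U`.  Let `x_i` be a basis of `U`; the vectors
  `(aeval A f) *ᵥ x_i` are linearly independent over `ZMod p`, so by `linInd_ext` their images in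
  `V → KK p` are linearly independent over `KK p`.  `w = ∑ c_i (x_i)_K` for some `c_i ∈ KK p`
  (as `KS p U` is spanned by the `(x_i)_K`), and `0 = (aeval A f)_K w = ∑ c_i ((aeval A f) x_i)_K`
  gives `c_i = 0`, `w = 0`, a contradiction.
-/

set_option autoImplicit false

namespace Pool.Agent.H10.DG

open Matrix Classical Pool.Agent.H66.SP Pool.Agent.H95.SQ

/-- the span over the algebraic closure -/
noncomputable def KS (p : ℕ) [Fact p.Prime] {V : Type*} (U : Submodule (ZMod p) (V → ZMod p)) :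
    Submodule (KK p) (V → KK p) :=
  Submodule.span (KK p) {y | ∃ x ∈ U, y = fun v => algebraMap (ZMod p) (KK p) (x v)}

theorem linInd_ext {F K : Type*} [Field F] [Field K] [Algebra F K] {V ι : Type*}
    (x : ι → V → F) (h : LinearIndependent F x) :
    LinearIndependent K (fun i v => algebraMap F K (x i v)) := by
  rw [linearIndependent_iff'] at h ⊢
  intro s g hg i hi
  rw [← Module.forall_dual_apply_eq_zero_iff F (g i)]
  intro f
  refine h s (fun i => f (g i)) ?_ i hi
  funext v
  have h1 := congrFun hg v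
  rw [Finset.sum_apply] at h1 ⊢
  have h2 : f (∑ c ∈ s, (g c • fun v => (algebraMap F K) (x c v)) v) = f 0 := by
    rw [h1]
    rfl
  rw [map_sum, map_zero] at h2
  refine Eq.trans ?_ h2
  refine Finset.sum_congr rfl fun c _ => ?_
  rw [Pi.smul_apply, Pi.smul_apply, smul_eq_mul, smul_eq_mul, mul_comm (g c), ← Algebra.smul_def,
    map_smul, smul_eq_mul, mul_comm]

theorem LinExt_map {p : ℕ} [Fact p.Prime] {V : Type*} [Fintype V] (A : Matrix V V (ZMod p))
    (x : V → ZMod p) :
    A.map (algebraMap (ZMod p) (KK p)) *ᵥ (fun v => algebraMap (ZMod p) (KK p) (x v)) =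
      fun v => algebraMap (ZMod p) (KK p) ((A *ᵥ x) v) := by
  funext v
  rw [RingHom.map_mulVec]
  rfl

theorem KS_stable {p : ℕ} [Fact p.Prime] {V : Type*} [Fintype V] (A : Matrix V V (ZMod p))
    (U : Submodule (ZMod p) (V → ZMod p)) (hA : ∀ x ∈ U, A *ᵥ x ∈ U) :
    ∀ y ∈ KS p U, A.map (algebraMap (ZMod p) (KK p)) *ᵥ y ∈ KS p U := by
  intro y hy
  unfold KS at hy
  induction hy using Submodule.span_induction with
  | mem y hy =>
    obtain ⟨x, hx, rfl⟩ := hy
    rw [LinExt_map]
    exact Submodule.subset_span ⟨A *ᵥ x, hA x hx, rfl⟩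
  | zero =>
    rw [Matrix.mulVec_zero]
    exact Submodule.zero_mem _
  | add a b _ _ ha hb =>
    rw [Matrix.mulVec_add]
    exact Submodule.add_mem _ ha hb
  | smul c a _ ha =>
    rw [Matrix.mulVec_smul]
    exact Submodule.smul_mem _ _ ha

theorem KS_dot {p : ℕ} [Fact p.Prime] {V : Type*} [Fintype V]
    (U : Submodule (ZMod p) (V → ZMod p)) (h : ∀ x ∈ U, ∀ y ∈ U, x ⬝ᵥ y = 0) :
    ∀ x ∈ KS p U, ∀ y ∈ KS p U, x ⬝ᵥ y = 0 := by
  intro x hx y hy
  unfold KS at hx
  induction hx using Submodule.span_induction with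
  | mem x hx =>
    obtain ⟨x, hx, rfl⟩ := hx
    unfold KS at hy
    induction hy using Submodule.span_induction with
    | mem y hy =>
      obtain ⟨y, hy, rfl⟩ := hy
      have h1 := h x hx y hy
      have h2 := congrArg (algebraMap (ZMod p) (KK p)) h1
      rw [map_zero] at h2
      rw [← h2]
      unfold dotProduct
      rw [map_sum]
      exact Finset.sum_congr rfl fun v _ => (map_mul _ _ _).symm
    | zero => rw [dotProduct_zero]
    | add a b _ _ ha hb => rw [dotProduct_add, ha, hb, add_zero]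
    | smul c a _ ha => rw [dotProduct_smul, ha, smul_zero]
  | zero => rw [zero_dotProduct]
  | add a b _ _ ha hb => rw [add_dotProduct, ha, hb, add_zero]
  | smul c a _ ha => rw [smul_dotProduct, ha, smul_zero]

theorem KS_sum {p : ℕ} [Fact p.Prime] {V : Type*} [Fintype V]
    (U : Submodule (ZMod p) (V → ZMod p)) (h : ∀ x ∈ U, ∑ v, x v = 0) :
    ∀ x ∈ KS p U, ∑ v, x v = 0 := by
  intro x hx
  unfold KS at hx
  induction hx using Submodule.span_induction with
  | mem x hx =>
    obtain ⟨x, hx, rfl⟩ := hx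
    have h2 := congrArg (algebraMap (ZMod p) (KK p)) (h x hx)
    rw [map_zero, map_sum] at h2
    exact h2
  | zero => simp
  | add a b _ _ ha hb =>
    have : ∑ v, (a + b) v = ∑ v, a v + ∑ v, b v := by
      rw [← Finset.sum_add_distrib]
      rfl
    rw [this, ha, hb, add_zero]
  | smul c a _ ha =>
    have : ∑ v, (c • a) v = c * ∑ v, a v := by
      rw [Finset.mul_sum]
      rfl
    rw [this, ha, mul_zero]

theorem LinExt_aeval {p : ℕ} [Fact p.Prime] {V : Type*} [Fintype V] [DecidableEq V]
    (A : Matrix V V (ZMod p)) (μ : KK p) (w : V → KK p)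
    (hw : A.map (algebraMap (ZMod p) (KK p)) *ᵥ w = μ • w) (g : Polynomial (ZMod p)) :
    (Polynomial.aeval A g).map (algebraMap (ZMod p) (KK p)) *ᵥ w = (Polynomial.aeval μ g) • w := by
  induction g using Polynomial.induction_on with
  | C a =>
    rw [Polynomial.aeval_C, Polynomial.aeval_C, Matrix.algebraMap_eq_diagonal,
      Matrix.diagonal_map (map_zero _)]
    funext v
    rw [Matrix.mulVec_diagonal, Pi.smul_apply, smul_eq_mul]
    rfl
  | add f g hf hg =>
    rw [map_add, map_add, Matrix.map_add _ (map_add _), Matrix.add_mulVec, hf, hg, add_smul]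
  | monomial n a ih =>
    have e1 : Polynomial.aeval A (Polynomial.C a * Polynomial.X ^ n * Polynomial.X) =
        Polynomial.aeval A (Polynomial.C a * Polynomial.X ^ n) * A := by
      rw [map_mul, Polynomial.aeval_X]
    have e2 : Polynomial.aeval μ (Polynomial.C a * Polynomial.X ^ n * Polynomial.X) =
        Polynomial.aeval μ (Polynomial.C a * Polynomial.X ^ n) * μ := by
      rw [map_mul, Polynomial.aeval_X]
    rw [pow_succ, ← mul_assoc, e1, e2,
      Matrix.map_mul, ← Matrix.mulVec_mulVec, hw, Matrix.mulVec_smul, ih, smul_smul, mul_comm]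

theorem exists_eigvec {p : ℕ} [Fact p.Prime] {V : Type*} [Fintype V] [DecidableEq V]
    (A : Matrix V V (ZMod p)) (U : Submodule (ZMod p) (V → ZMod p))
    (hA : ∀ x ∈ U, A *ᵥ x ∈ U) (hU : U ≠ ⊥) :
    ∃ (μ : KK p) (w : V → KK p), w ≠ 0 ∧ w ∈ KS p U ∧
      A.map (algebraMap (ZMod p) (KK p)) *ᵥ w = μ • w ∧
      ∃ x ∈ U, x ≠ 0 ∧ (Polynomial.aeval A (minpoly (ZMod p) μ)) *ᵥ x = 0 := by
  have hinj : Function.Injective (algebraMap (ZMod p) (KK p)) := (algebraMap (ZMod p) (KK p)).injective
  -- the extended space is nontrivial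
  obtain ⟨x0, hx0, hx00⟩ := Submodule.exists_mem_ne_zero_of_ne_bot hU
  have hnt : Nontrivial (KS p U) := by
    refine ⟨⟨⟨_, Submodule.subset_span ⟨x0, hx0, rfl⟩⟩, 0, ?_⟩⟩
    intro h
    apply hx00
    funext v
    have h1 := congrFun (congrArg Subtype.val h) v
    have h2 : algebraMap (ZMod p) (KK p) (x0 v) = 0 := h1
    exact hinj (h2.trans (map_zero _).symm)
  let φ : Module.End (KK p) (KS p U) :=
    ((A.map (algebraMap (ZMod p) (KK p))).mulVecLin).restrict (KS_stable A U hA)
  obtain ⟨μ, hμ⟩ := Module.End.exists_eigenvalue φ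
  obtain ⟨w, hw⟩ := hμ.exists_hasEigenvector
  have hw1 : A.map (algebraMap (ZMod p) (KK p)) *ᵥ (w : V → KK p) = μ • (w : V → KK p) := by
    have h1 := hw.apply_eq_smul
    have h2 := congrArg Subtype.val h1
    exact h2
  have hw0 : (w : V → KK p) ≠ 0 := by
    intro h
    exact hw.2 (Subtype.ext h)
  refine ⟨μ, w, hw0, w.2, hw1, ?_⟩
  by_contra hcon
  push Not at hcon
  set B := Polynomial.aeval A (minpoly (ZMod p) μ) with hB
  have hBw : B.map (algebraMap (ZMod p) (KK p)) *ᵥ (w : V → KK p) = 0 := by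
    rw [hB, LinExt_aeval A μ _ hw1, minpoly.aeval, zero_smul]
  let b := Module.finBasis (ZMod p) U
  let g : U →ₗ[ZMod p] (V → ZMod p) := B.mulVecLin.comp U.subtype
  have hker : LinearMap.ker g = ⊥ := by
    rw [LinearMap.ker_eq_bot']
    intro x hx
    by_contra hx1
    refine hcon x x.2 (fun h => hx1 (Subtype.ext h)) hx
  have hli := linInd_ext (K := KK p) _ (b.linearIndependent.map' g hker)
  have hspan : KS p U ≤ Submodule.span (KK p)
      (Set.range fun i => fun v => algebraMap (ZMod p) (KK p) ((b i : V → ZMod p) v)) := by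
    refine Submodule.span_le.mpr ?_
    rintro y ⟨x, hx, rfl⟩
    have hx2 : x = ∑ i, (b.repr ⟨x, hx⟩ i) • (b i : V → ZMod p) := by
      have h1 := congrArg Subtype.val (b.sum_repr ⟨x, hx⟩)
      rw [Submodule.coe_sum] at h1
      exact h1.symm
    have hx3 : (fun v => algebraMap (ZMod p) (KK p) (x v)) =
        ∑ i, (algebraMap (ZMod p) (KK p) (b.repr ⟨x, hx⟩ i)) •
          (fun v => algebraMap (ZMod p) (KK p) ((b i : V → ZMod p) v)) := by
      funext v
      conv_lhs => rw [hx2]
      rw [Finset.sum_apply, Finset.sum_apply, map_sum]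
      refine Finset.sum_congr rfl fun i _ => ?_
      rw [Pi.smul_apply, Pi.smul_apply, smul_eq_mul, smul_eq_mul, map_mul]
    show (fun v => algebraMap (ZMod p) (KK p) (x v)) ∈ _
    rw [hx3]
    exact Submodule.sum_mem _ fun i _ => Submodule.smul_mem _ _ (Submodule.subset_span ⟨i, rfl⟩)
  obtain ⟨c, hc⟩ := (Submodule.mem_span_range_iff_exists_fun (KK p)).mp (hspan w.2)
  have hsum : ∑ i, c i • (fun v => algebraMap (ZMod p) (KK p) ((g (b i)) v)) = 0 := by
    rw [← hBw, ← hc]
    have h1 : B.map (algebraMap (ZMod p) (KK p)) *ᵥ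
        (∑ i, c i • fun v => algebraMap (ZMod p) (KK p) ((b i : V → ZMod p) v)) =
        ∑ i, B.map (algebraMap (ZMod p) (KK p)) *ᵥ
          (c i • fun v => algebraMap (ZMod p) (KK p) ((b i : V → ZMod p) v)) := by
      have h2 := map_sum (B.map (algebraMap (ZMod p) (KK p))).mulVecLin
        (fun i => c i • fun v => algebraMap (ZMod p) (KK p) ((b i : V → ZMod p) v)) Finset.univ
      simpa only [Matrix.mulVecLin_apply] using h2
    rw [h1]
    refine Finset.sum_congr rfl fun i _ => ?_
    rw [Matrix.mulVec_smul, LinExt_map]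
    rfl
  have hc0 : ∀ i, c i = 0 := fun i => Fintype.linearIndependent_iff.mp hli c hsum i
  apply hw0
  rw [← hc]
  refine Finset.sum_eq_zero fun i _ => ?_
  rw [hc0 i, zero_smul]

end Pool.Agent.H10.DG
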