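import Pool.Agent.H71.Haemers.Reduce

/-!
# Almost all graphs have no spectral mate of small level (towards Haemers' conjecture)

Two graphs `G`, `H` on the same vertex set are cospectral exactly when `Qᵀ A(G) Q = A(H)` for some
orthogonal matrix `Q`, and have the same generalized spectrum exactly when `Q` can moreover be
chosen with row sums `1`; for almost all graphs this `Q` is then unique and rational.  The level
of a rational orthogonal `Q` is the least positive integer `ℓ` such that `ℓ Q` is an integer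
matrix.  We show that, outside a proportion at most `2 ^ (-n / 50)` of all labelled graphs on `n`
vertices, no non-isomorphic `H` arises from `G` through a rational orthogonal matrix of level at
most `√n / 10`.
-/

set_option autoImplicit false

open Classical in
/-- `G` has a non-isomorphic mate `H`, `Qᵀ A(G) Q = A(H)`, through a rational orthogonal matrix
`Q` such that `ℓ Q` has integer entries for some positive integer `ℓ ≤ L`. -/
def Pool.Agent.H10.DG.HasMateOfLevelLE {n : ℕ}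
    (G : SimpleGraph (Fin n)) (L : ℝ) : Prop :=
  ∃ (H : SimpleGraph (Fin n)) (Q : Matrix (Fin n) (Fin n) ℚ) (ℓ : ℕ),
    IsEmpty (G ≃g H) ∧
    Q.transpose * Q = 1 ∧
    Q.transpose * G.adjMatrix ℚ * Q = H.adjMatrix ℚ ∧
    0 < ℓ ∧ (∀ i j, ∃ z : ℤ, (ℓ : ℚ) * Q i j = z) ∧ (ℓ : ℝ) ≤ L

namespace Pool.Agent.H10.DG

open Finset Matrix Filter Topology Pool.Agent.H71.Haemers

open Classical in
lemma small_card_bad_le (n : ℕ) :
    (((Finset.univ : Finset (SimpleGraph (Fin n))).filter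
      (fun G => HasMateOfLevelLE G (Real.sqrt n / 10))).card : ℝ) ≤
      ∑ _p ∈ Finset.range (n + 1), ∑ r ∈ Finset.Icc 1 n,
        (((shortVec (Fin n) (n / 100)).card : ℝ) * (2 : ℝ) ^ (-((n : ℝ) - 2) / 8)) ^ r *
          Nat.card (SimpleGraph (Fin n)) := by
  set bad := (Finset.univ : Finset (SimpleGraph (Fin n))).filter
      (fun G => HasMateOfLevelLE G (Real.sqrt n / 10)) with hbad
  have hsub : bad ⊆ (Finset.range (n + 1)).biUnion (fun p => (Finset.Icc 1 n).biUnion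
      (fun r => (Fintype.piFinset (fun _ : Fin r => shortVec (Fin n) (n / 100))).biUnion
        (fun f => Finset.univ.filter (Good n p r f)))) := by
    intro G hG
    rw [hbad, Finset.mem_filter] at hG
    obtain ⟨H, Q, ℓ, hiso, hQ, hGH, hℓ, hint, hL⟩ := hG.2
    have hm : ℓ ^ 2 ≤ n / 100 := by
      rw [Nat.le_div_iff_mul_le (by norm_num)]
      have h1 : (ℓ : ℝ) * 10 ≤ Real.sqrt n := by
        rw [le_div_iff₀ (by norm_num)] at hL
        exact hL
      have h2 : ((ℓ : ℝ) * 10) ^ 2 ≤ n := by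
        calc ((ℓ : ℝ) * 10) ^ 2 ≤ (Real.sqrt (n : ℝ)) ^ 2 :=
              pow_le_pow_left₀ (by positivity) h1 2
          _ = (n : ℝ) := Real.sq_sqrt (Nat.cast_nonneg n)
      have h3 : (((ℓ ^ 2 * 100 : ℕ)) : ℝ) ≤ n := by
        push_cast
        nlinarith
      exact_mod_cast h3
    obtain ⟨p, hp, r, hr, f, hf, hg⟩ := exists_good n (n / 100) (Nat.div_le_self _ _) G H Q ℓ hℓ
      hint hQ hGH hiso hm
    rw [Finset.mem_biUnion]
    refine ⟨p, hp, ?_⟩
    rw [Finset.mem_biUnion]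
    refine ⟨r, hr, ?_⟩
    rw [Finset.mem_biUnion]
    exact ⟨f, hf, by rw [Finset.mem_filter]; exact ⟨Finset.mem_univ _, hg⟩⟩
  have h1 : (bad.card : ℝ) ≤ ∑ p ∈ Finset.range (n + 1), ∑ r ∈ Finset.Icc 1 n,
      ∑ f ∈ Fintype.piFinset (fun _ : Fin r => shortVec (Fin n) (n / 100)),
        ((Finset.univ.filter (Good n p r f)).card : ℝ) := by
    have h2 : bad.card ≤ ∑ p ∈ Finset.range (n + 1), ∑ r ∈ Finset.Icc 1 n,
      ∑ f ∈ Fintype.piFinset (fun _ : Fin r => shortVec (Fin n) (n / 100)),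
        (Finset.univ.filter (Good n p r f)).card := by
      refine (Finset.card_le_card hsub).trans ?_
      refine Finset.card_biUnion_le.trans ?_
      refine Finset.sum_le_sum fun p _ => ?_
      refine Finset.card_biUnion_le.trans ?_
      refine Finset.sum_le_sum fun r _ => ?_
      exact Finset.card_biUnion_le
    exact_mod_cast h2
  refine h1.trans ?_
  refine Finset.sum_le_sum fun p _ => Finset.sum_le_sum fun r _ => ?_
  calc ∑ f ∈ Fintype.piFinset (fun _ : Fin r => shortVec (Fin n) (n / 100)),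
        ((Finset.univ.filter (Good n p r f)).card : ℝ)
      ≤ ∑ _f ∈ Fintype.piFinset (fun _ : Fin r => shortVec (Fin n) (n / 100)),
        ((2 : ℝ) ^ (-((n : ℝ) - 2) / 8)) ^ r * Nat.card (SimpleGraph (Fin n)) :=
        Finset.sum_le_sum fun f _ => card_good_le n p r f
    _ = _ := by
        rw [Finset.sum_const, Fintype.card_piFinset_const, nsmul_eq_mul, mul_pow]
        push_cast
        ring

lemma small_base_le : ((128 / 127 : ℝ)) ^ 2 ≤ (2 : ℝ) ^ (23 / 1000 : ℝ) := by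
  have h1 : (((128 / 127 : ℝ)) ^ 2) ^ 44 ≤ 2 := by
    rw [← pow_mul, div_pow, div_le_iff₀ (by positivity)]
    norm_num
  have h2 : ((2 : ℝ) ^ (1 / 44 : ℝ)) ^ 44 = 2 := by
    rw [← Real.rpow_natCast, ← Real.rpow_mul (by norm_num)]
    norm_num
  have h3 : ((128 / 127 : ℝ)) ^ 2 ≤ (2 : ℝ) ^ (1 / 44 : ℝ) := by
    rw [← h2] at h1
    exact le_of_pow_le_pow_left₀ (by norm_num) (by positivity) h1
  exact h3.trans (Real.rpow_le_rpow_of_exponent_le (by norm_num) (by norm_num))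

lemma small_beta_le (n : ℕ) :
    ((shortVec (Fin n) (n / 100)).card : ℝ) * (2 : ℝ) ^ (-((n : ℝ) - 2) / 8) ≤
      2 * (2 : ℝ) ^ (-(32 / 1000 : ℝ) * n) := by
  have h1 := card_shortVec_le (V := Fin n) (n / 100)
  rw [Fintype.card_fin] at h1
  have h2 : (128 : ℝ) ^ (n / 100) ≤ (2 : ℝ) ^ ((7 / 100 : ℝ) * n) := by
    have e : (128 : ℝ) = (2 : ℝ) ^ (7 : ℝ) := by norm_num
    rw [e, ← Real.rpow_natCast, ← Real.rpow_mul (by norm_num)]
    apply Real.rpow_le_rpow_of_exponent_le (by norm_num)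
    have : ((n / 100 : ℕ) : ℝ) ≤ (n : ℝ) / 100 := Nat.cast_div_le
    linarith
  have h3 : (128 / 127 : ℝ) ^ (2 * n) ≤ (2 : ℝ) ^ ((23 / 1000 : ℝ) * n) := by
    rw [pow_mul, Real.rpow_mul (by norm_num), Real.rpow_natCast]
    exact pow_le_pow_left₀ (by positivity) small_base_le n
  have h4 : ((shortVec (Fin n) (n / 100)).card : ℝ) ≤
      (2 : ℝ) ^ ((7 / 100 : ℝ) * n) * (2 : ℝ) ^ ((23 / 1000 : ℝ) * n) :=
    h1.trans (mul_le_mul h2 h3 (by positivity) (by positivity))
  calc ((shortVec (Fin n) (n / 100)).card : ℝ) * (2 : ℝ) ^ (-((n : ℝ) - 2) / 8)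
      ≤ ((2 : ℝ) ^ ((7 / 100 : ℝ) * n) * (2 : ℝ) ^ ((23 / 1000 : ℝ) * n)) *
        (2 : ℝ) ^ (-((n : ℝ) - 2) / 8) := mul_le_mul_of_nonneg_right h4 (by positivity)
    _ = (2 : ℝ) ^ (1 / 4 : ℝ) * (2 : ℝ) ^ (-(32 / 1000 : ℝ) * n) := by
        rw [← Real.rpow_add (by norm_num), ← Real.rpow_add (by norm_num),
          ← Real.rpow_add (by norm_num)]
        congr 1
        ring
    _ ≤ 2 * (2 : ℝ) ^ (-(32 / 1000 : ℝ) * n) := by
        apply mul_le_mul_of_nonneg_right _ (by positivity)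
        calc (2 : ℝ) ^ (1 / 4 : ℝ) ≤ (2 : ℝ) ^ (1 : ℝ) :=
              Real.rpow_le_rpow_of_exponent_le (by norm_num) (by norm_num)
          _ = 2 := Real.rpow_one 2

/-- **Main theorem.**  For all large `n`, at most a proportion `2 ^ (-n / 50)` of the labelled
graphs `G` on `n` vertices admit a non-isomorphic graph `H` and a rational orthogonal matrix `Q`
of level at most `√n / 10` with `Qᵀ A(G) Q = A(H)`. -/
theorem small_result : ∃ N : ℕ, ∀ n : ℕ, N ≤ n →
    (Nat.card {G : SimpleGraph (Fin n) // HasMateOfLevelLE G (Real.sqrt n / 10)} : ℝ) ≤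
      (2 : ℝ) ^ (-(n : ℝ) / 50) * Nat.card (SimpleGraph (Fin n)) := by
  classical
  -- asymptotics
  have hr : |(2 : ℝ) ^ (-(12 / 1000 : ℝ))| < 1 := by
    rw [abs_of_pos (by positivity)]
    exact Real.rpow_lt_one_of_one_lt_of_neg (by norm_num) (by norm_num)
  have hlim := tendsto_pow_const_mul_const_pow_of_abs_lt_one 2 hr
  have hev : ∀ᶠ n : ℕ in atTop, (n : ℝ) ^ 2 * ((2 : ℝ) ^ (-(12 / 1000 : ℝ))) ^ n < 1 / 4 :=
    hlim.eventually_lt_const (by norm_num)
  have hr2 : |(2 : ℝ) ^ (-(32 / 1000 : ℝ))| < 1 := by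
    rw [abs_of_pos (by positivity)]
    exact Real.rpow_lt_one_of_one_lt_of_neg (by norm_num) (by norm_num)
  have hev2 : ∀ᶠ n : ℕ in atTop, ((2 : ℝ) ^ (-(32 / 1000 : ℝ))) ^ n < 1 / 2 :=
    (tendsto_pow_atTop_nhds_zero_of_abs_lt_one hr2).eventually_lt_const (by norm_num)
  obtain ⟨N, hN⟩ := Filter.eventually_atTop.mp ((hev.and hev2).and (eventually_ge_atTop 1))
  refine ⟨N, fun n hn => ?_⟩
  obtain ⟨⟨h1, h2⟩, h3⟩ := hN n hn
  have hn1 : (1 : ℝ) ≤ n := by exact_mod_cast h3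
  have hcard : Nat.card {G : SimpleGraph (Fin n) // HasMateOfLevelLE G (Real.sqrt n / 10)} =
      ((Finset.univ : Finset (SimpleGraph (Fin n))).filter
        (fun G => HasMateOfLevelLE G (Real.sqrt n / 10))).card := by
    rw [Nat.card_eq_fintype_card, Fintype.card_subtype]
  rw [hcard]
  refine (small_card_bad_le n).trans ?_
  set β : ℝ := ((shortVec (Fin n) (n / 100)).card : ℝ) * (2 : ℝ) ^ (-((n : ℝ) - 2) / 8) with hβ
  have hβ0 : 0 ≤ β := by positivity
  have hβle : β ≤ 2 * ((2 : ℝ) ^ (-(32 / 1000 : ℝ))) ^ n := by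
    rw [← Real.rpow_natCast, ← Real.rpow_mul (by norm_num)]
    exact small_beta_le n
  have hβ1 : β ≤ 1 := by linarith
  have hT : (0 : ℝ) ≤ Nat.card (SimpleGraph (Fin n)) := Nat.cast_nonneg _
  have hsum : ∑ _p ∈ Finset.range (n + 1), ∑ r ∈ Finset.Icc 1 n,
      β ^ r * (Nat.card (SimpleGraph (Fin n)) : ℝ) ≤
      ((n : ℝ) + 1) * (n * (β * Nat.card (SimpleGraph (Fin n)))) := by
    rw [Finset.sum_const, Finset.card_range, nsmul_eq_mul]
    push_cast
    apply mul_le_mul_of_nonneg_left _ (by positivity)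
    calc ∑ r ∈ Finset.Icc 1 n, β ^ r * (Nat.card (SimpleGraph (Fin n)) : ℝ)
        ≤ ∑ _r ∈ Finset.Icc 1 n, β * (Nat.card (SimpleGraph (Fin n)) : ℝ) := by
          apply Finset.sum_le_sum
          intro r hr
          apply mul_le_mul_of_nonneg_right _ hT
          rw [Finset.mem_Icc] at hr
          calc β ^ r ≤ β ^ 1 := pow_le_pow_of_le_one hβ0 hβ1 hr.1
            _ = β := pow_one β
      _ = n * (β * Nat.card (SimpleGraph (Fin n))) := by
          rw [Finset.sum_const, Nat.card_Icc, nsmul_eq_mul]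
          simp
  refine hsum.trans ?_
  have hfin : ((n : ℝ) + 1) * (n * β) ≤ (2 : ℝ) ^ (-(n : ℝ) / 50) := by
    have e1 : (2 : ℝ) ^ (-(n : ℝ) / 50) * ((2 : ℝ) ^ (-(12 / 1000 : ℝ))) ^ n =
        ((2 : ℝ) ^ (-(32 / 1000 : ℝ))) ^ n := by
      rw [← Real.rpow_natCast, ← Real.rpow_mul (by norm_num), ← Real.rpow_natCast,
        ← Real.rpow_mul (by norm_num), ← Real.rpow_add (by norm_num)]
      congr 1
      ring
    calc ((n : ℝ) + 1) * (n * β) ≤ (2 * n) * (n * (2 * ((2 : ℝ) ^ (-(32 / 1000 : ℝ))) ^ n)) := by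
          apply mul_le_mul (by linarith) _ (by positivity) (by positivity)
          exact mul_le_mul_of_nonneg_left hβle (by positivity)
      _ = 4 * ((2 : ℝ) ^ (-(n : ℝ) / 50) * ((n : ℝ) ^ 2 * ((2 : ℝ) ^ (-(12 / 1000 : ℝ))) ^ n)) := by
          rw [← e1]; ring
      _ ≤ 4 * ((2 : ℝ) ^ (-(n : ℝ) / 50) * (1 / 4)) := by
          apply mul_le_mul_of_nonneg_left _ (by norm_num)
          exact mul_le_mul_of_nonneg_left h1.le (by positivity)
      _ = (2 : ℝ) ^ (-(n : ℝ) / 50) := by ring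
  calc ((n : ℝ) + 1) * (n * (β * Nat.card (SimpleGraph (Fin n))))
      = ((n : ℝ) + 1) * (n * β) * Nat.card (SimpleGraph (Fin n)) := by ring
    _ ≤ _ := mul_le_mul_of_nonneg_right hfin hT

end Pool.Agent.H10.DG
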