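import Pool.Agent.H66.DG.Defs
import Pool.Agent.H10.DG.LinExt
import Pool.Agent.H10.DG.Small

/-!
# Assembly: the bad events
-/

set_option autoImplicit false

namespace Pool.Agent.H10.DG

open Matrix Classical Pool.Agent.H66.SP Pool.Agent.H95.SQ Pool.Agent.H66.DG

/-- an isotropic eigenvector orthogonal to `e` modulo a large prime -/
def EvL (n : ℕ) (G : SimpleGraph (Fin n)) : Prop :=
  ∃ (p : ℕ) (_ : Fact p.Prime), n ^ 3 < p ∧ ∃ μ : KK p, ∃ w : Fin n → KK p, w ≠ 0 ∧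
    adj (KK p) G *ᵥ w = μ • w ∧ w ⬝ᵥ w = 0 ∧ ∑ v, w v = 0

/-- a complex eigenvector orthogonal to `e` -/
def EvC (n : ℕ) (G : SimpleGraph (Fin n)) : Prop :=
  ∃ μ : ℂ, ∃ w : Fin n → ℂ, w ≠ 0 ∧ adj ℂ G *ᵥ w = μ • w ∧ ∑ v, w v = 0

/-- an eigenvector of large degree orthogonal to `e` modulo an odd prime `p ≤ n ^ 3` -/
def EvD (n : ℕ) (G : SimpleGraph (Fin n)) : Prop :=
  ∃ (p : ℕ) (_ : Fact p.Prime), p ≠ 2 ∧ p ≤ n ^ 3 ∧ ∃ μ : KK p,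
    6 * Nat.log 2 n ≤ dg p μ ∧ ∃ w : Fin n → KK p, w ≠ 0 ∧
    adj (KK p) G *ᵥ w = μ • w ∧ ∑ v, w v = 0

/-- an obstruction of small positive dimension modulo a prime `z < p ≤ n ^ 3` -/
def EvM (n z : ℕ) (G : SimpleGraph (Fin n)) : Prop :=
  ∃ (p : ℕ) (_ : Fact p.Prime), z < p ∧ p ≤ n ^ 3 ∧
    ∃ U : Submodule (ZMod p) (Fin n → ZMod p), Ob p G U ∧ 1 ≤ Module.finrank (ZMod p) U ∧
      Module.finrank (ZMod p) U ≤ 6 * Nat.log 2 n

/-- an obstruction with dimension in a window modulo an odd prime `p ≤ z` -/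
def EvR (n z R : ℕ) (G : SimpleGraph (Fin n)) : Prop :=
  ∃ (p : ℕ) (_ : Fact p.Prime), p ≠ 2 ∧ p ≤ z ∧
    ∃ U : Submodule (ZMod p) (Fin n → ZMod p), Ob p G U ∧ R ≤ Module.finrank (ZMod p) U ∧
      Module.finrank (ZMod p) U < R + 6 * Nat.log 2 n

/-- an obstruction of large dimension in characteristic two -/
def EvP (n R : ℕ) (G : SimpleGraph (Fin n)) : Prop :=
  ∃ U : Submodule (ZMod 2) (Fin n → ZMod 2), Ob2 G U ∧ R ≤ Module.finrank (ZMod 2) U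

/-- data modulo `p ^ j` for a prime `p ≤ z` -/
def EvS (n z R j : ℕ) (G : SimpleGraph (Fin n)) : Prop :=
  ∃ p : ℕ, p.Prime ∧ p ≤ z ∧ ∃ r, 1 ≤ r ∧ r < R ∧ Dat p r j G

/-- a mate of small level -/
def EvH (n : ℕ) (G : SimpleGraph (Fin n)) : Prop :=
  HasMateOfLevelLE G (Real.sqrt n / 10)

end Pool.Agent.H10.DG
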