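import Pool.Agent.H10.DG.Ev
import Pool.Agent.H71.DG.PartM

/-!
# DG-A1: the event `EvM` is rare

PROOF.  Let `L = Nat.log 2 n`.  For `z ≥ 2` and `n` large, `EvM n z G` implies: there are a prime
`p ∈ (z, n^3]` (so `p ≠ 2`) and `1 ≤ d ≤ 6 L` with `∃ U, Ob p G U ∧ finrank U = d`.  Union bound
(`cg_exists` over the finset of pairs `(p, d) ∈ ((Finset.Ioc z (n^3)).filter Nat.Prime) ×ˢ Finset.Icc 1 (6 L)`;
use `if hp : p.Prime then haveI : Fact p.Prime := ⟨hp⟩; ... else False` for the predicate, or rewrite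
the event) and `part_M`:
`cg n (EvM n z) ≤ ng n * ∑_{z < p ≤ n^3} ∑_{d=1}^{6L} (2 / p^(2d) + 1 / n^5)`.
`∑_{d ≥ 1} 2 / p^(2d) ≤ 4 / p^2` (`p ≥ 2`; e.g. `∑_{d=1}^m 1/x^d ≤ 1/(x-1)` with `x = p^2 ≥ 4`, and
`2/(p^2-1) ≤ 4/p^2`), `∑_{p > z} 4 / p^2 ≤ 4 / z` (`1/p^2 ≤ 1/(p-1) - 1/p`, telescoping;
`Finset.sum_Ioc_inv_sq_le_sub` in Mathlib), and the second part is at most
`n^3 * 6 L / n^5 ≤ 6 / n` as `L ≤ n`.  Take `z ≥ max 2 (8 / ε)` and `n ≥ 12 / ε`.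
-/

set_option autoImplicit false

namespace Pool.Agent.H10.DG

open Matrix Classical Pool.Agent.H66.SP Pool.Agent.H95.SQ Pool.Agent.H66.DG

/-- the predicate attached to a pair `(p, d)` -/
def PM (n : ℕ) (i : ℕ × ℕ) (G : SimpleGraph (Fin n)) : Prop :=
  ∃ _ : Fact i.1.Prime, ∃ U : Submodule (ZMod i.1) (Fin n → ZMod i.1),
    Ob i.1 G U ∧ Module.finrank (ZMod i.1) U = i.2

theorem geo_le (x : ℝ) (hx : 2 ≤ x) (m : ℕ) :
    ∑ d ∈ Finset.Icc 1 m, 1 / x ^ d ≤ 2 / x * (1 - (1 / x) ^ m) := by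
  have hx0 : 0 < x := by linarith
  induction m with
  | zero => simp
  | succ m ih =>
    rw [Finset.sum_Icc_succ_top (by omega)]
    have h1 : (1 : ℝ) / x ^ (m + 1) = (1 / x) ^ m * (1 / x) := by
      rw [← _root_.one_div_pow, pow_succ]
    have h2 : 0 ≤ (1 / x) ^ m := by positivity
    have h3 : 1 / x ≤ 1 / 2 := one_div_le_one_div_of_le (by norm_num) hx
    have h4 : 0 < 1 / x := by positivity
    have h5 : (2 : ℝ) / x = 2 * (1 / x) := by ring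
    rw [h1, pow_succ]
    rw [h5] at ih ⊢
    have h6 : 0 ≤ (1 / x) ^ m * (1 / x) * (1 - 2 * (1 / x)) := by
      apply mul_nonneg (by positivity)
      linarith
    nlinarith [h6, ih]

theorem geo_sum_le (p : ℕ) (hp : 2 ≤ p) (m : ℕ) :
    ∑ d ∈ Finset.Icc 1 m, (2 : ℝ) / (p : ℝ) ^ (2 * d) ≤ 4 * ((p : ℝ) ^ 2)⁻¹ := by
  have hp' : (2 : ℝ) ≤ (p : ℝ) := by exact_mod_cast hp
  have hx : (2 : ℝ) ≤ (p : ℝ) ^ 2 := by nlinarith
  have h := geo_le ((p : ℝ) ^ 2) hx m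
  have h1 : ∑ d ∈ Finset.Icc 1 m, (2 : ℝ) / (p : ℝ) ^ (2 * d) =
      2 * ∑ d ∈ Finset.Icc 1 m, 1 / ((p : ℝ) ^ 2) ^ d := by
    rw [Finset.mul_sum]
    refine Finset.sum_congr rfl fun d _ => ?_
    rw [pow_mul]
    ring
  rw [h1]
  have h2 : 0 ≤ (1 / (p : ℝ) ^ 2) ^ m := by positivity
  have h3 : 0 ≤ 2 / (p : ℝ) ^ 2 := by positivity
  have h4 : 2 / (p : ℝ) ^ 2 * (1 - (1 / (p : ℝ) ^ 2) ^ m) ≤ 2 / (p : ℝ) ^ 2 := by nlinarith
  have h5 : 4 * ((p : ℝ) ^ 2)⁻¹ = 2 * (2 / (p : ℝ) ^ 2) := by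
    rw [div_eq_mul_inv]; ring
  rw [h5]
  linarith

theorem evM_le (ε : ℝ) (hε : 0 < ε) : ∃ z : ℕ, 2 ≤ z ∧ ∃ n₀ : ℕ, ∀ n : ℕ, n₀ ≤ n →
    cg n (EvM n z) ≤ ε * ng n := by
  obtain ⟨z0, hz0⟩ := exists_nat_ge (8 / ε)
  obtain ⟨n1, hn1⟩ := exists_nat_ge (12 / ε)
  obtain ⟨n2, hn2⟩ := Filter.eventually_atTop.1 Pool.Agent.H71.DG.part_M
  refine ⟨max 2 z0, le_max_left _ _, max (max n1 n2) (max (max 2 z0) 1), fun n hn => ?_⟩
  set z := max 2 z0 with hz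
  have hz2 : 2 ≤ z := le_max_left _ _
  have hzz : z0 ≤ z := le_max_right _ _
  have hnn1 : n1 ≤ n := le_trans (le_trans (le_max_left _ _) (le_max_left _ _)) hn
  have hnn2 : n2 ≤ n := le_trans (le_trans (le_max_right _ _) (le_max_left _ _)) hn
  have hnz : z ≤ n := le_trans (le_trans (le_max_left _ _) (le_max_right _ _)) hn
  have hn0 : 1 ≤ n := by omega
  have hM := hn2 n hnn2
  set L := Nat.log 2 n with hL
  have hLn : L ≤ n := Nat.log_le_self 2 n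
  set S : Finset (ℕ × ℕ) := ((Finset.Ioc z (n ^ 3)).filter Nat.Prime) ×ˢ Finset.Icc 1 (6 * L)
    with hS
  have h1 : cg n (EvM n z) ≤ cg n (fun G => ∃ i ∈ S, PM n i G) := by
    refine cg_mono n fun G hG => ?_
    obtain ⟨p, hp, hzp, hpn, U, hU, h1U, hU6⟩ := hG
    refine ⟨(p, Module.finrank (ZMod p) U), ?_, ⟨hp, U, hU, rfl⟩⟩
    rw [hS, Finset.mem_product]
    refine ⟨?_, ?_⟩
    · exact Finset.mem_filter.2 ⟨Finset.mem_Ioc.2 ⟨hzp, hpn⟩, hp.out⟩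
    · exact Finset.mem_Icc.2 ⟨h1U, hU6⟩
  have h2 := cg_exists n S (PM n)
  have h3 : ∑ i ∈ S, cg n (PM n i) ≤
      ∑ i ∈ S, ng n * (2 / (i.1 : ℝ) ^ (2 * i.2) + 1 / (n : ℝ) ^ 5) := by
    refine Finset.sum_le_sum fun i hi => ?_
    obtain ⟨p, d⟩ := i
    rw [hS, Finset.mem_product] at hi
    obtain ⟨hi1, hi2⟩ := hi
    rw [Finset.mem_filter, Finset.mem_Ioc] at hi1
    rw [Finset.mem_Icc] at hi2
    simp only at hi1 hi2
    have : Fact p.Prime := ⟨hi1.2⟩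
    have hb := hM p (by omega) hi1.1.2 d hi2.1 (by omega)
    have hc : cg n (PM n (p, d)) = cg n (fun G => ∃ U : Submodule (ZMod p) (Fin n → ZMod p),
        Ob p G U ∧ Module.finrank (ZMod p) U = d) := by
      apply le_antisymm
      · exact cg_mono n fun G hG => by
          obtain ⟨_, U, hU⟩ := hG
          exact ⟨U, hU⟩
      · exact cg_mono n fun G hG => ⟨this, hG⟩
    rw [hc, cg_eq]
    exact hb
  have h4 : ∑ i ∈ S, ng n * (2 / (i.1 : ℝ) ^ (2 * i.2) + 1 / (n : ℝ) ^ 5) =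
      ng n * (∑ i ∈ S, 2 / (i.1 : ℝ) ^ (2 * i.2) + S.card * (1 / (n : ℝ) ^ 5)) := by
    rw [← Finset.mul_sum, Finset.sum_add_distrib, Finset.sum_const, nsmul_eq_mul]
  have hzpos : (0 : ℝ) < (z : ℝ) := by
    have : 0 < z := by omega
    exact_mod_cast this
  have hnpos : (0 : ℝ) < (n : ℝ) := by exact_mod_cast hn0
  have h5 : ∑ i ∈ S, 2 / (i.1 : ℝ) ^ (2 * i.2) ≤ 4 / (z : ℝ) := by
    rw [hS, Finset.sum_product]
    calc ∑ p ∈ (Finset.Ioc z (n ^ 3)).filter Nat.Prime,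
          ∑ d ∈ Finset.Icc 1 (6 * L), (2 : ℝ) / (p : ℝ) ^ (2 * d)
        ≤ ∑ p ∈ (Finset.Ioc z (n ^ 3)).filter Nat.Prime, 4 * ((p : ℝ) ^ 2)⁻¹ := by
          refine Finset.sum_le_sum fun p hp => ?_
          exact geo_sum_le p (Finset.mem_filter.1 hp).2.two_le _
      _ ≤ ∑ p ∈ Finset.Ioc z (n ^ 3), 4 * ((p : ℝ) ^ 2)⁻¹ := by
          refine Finset.sum_le_sum_of_subset_of_nonneg (Finset.filter_subset _ _) ?_
          intro p _ _
          positivity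
      _ = 4 * ∑ p ∈ Finset.Ioc z (n ^ 3), ((p : ℝ) ^ 2)⁻¹ := by rw [Finset.mul_sum]
      _ ≤ 4 * ((z : ℝ)⁻¹ - ((n ^ 3 : ℕ) : ℝ)⁻¹) := by
          refine mul_le_mul_of_nonneg_left ?_ (by norm_num)
          refine sum_Ioc_inv_sq_le_sub (by omega) ?_
          exact le_trans hnz (Nat.le_self_pow (by norm_num) n)
      _ ≤ 4 / (z : ℝ) := by
          have : (0 : ℝ) ≤ ((n ^ 3 : ℕ) : ℝ)⁻¹ := by positivity
          rw [div_eq_mul_inv]
          linarith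
  have h6 : (S.card : ℝ) ≤ (n : ℝ) ^ 3 * (6 * n) := by
    have : S.card ≤ n ^ 3 * (6 * n) := by
      rw [hS, Finset.card_product]
      refine Nat.mul_le_mul ?_ ?_
      · refine (Finset.card_filter_le _ _).trans ?_
        rw [Nat.card_Ioc]
        omega
      · rw [Nat.card_Icc]
        omega
    exact_mod_cast this
  have h7 : (S.card : ℝ) * (1 / (n : ℝ) ^ 5) ≤ 6 / (n : ℝ) := by
    calc (S.card : ℝ) * (1 / (n : ℝ) ^ 5) ≤ (n : ℝ) ^ 3 * (6 * n) * (1 / (n : ℝ) ^ 5) :=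
          mul_le_mul_of_nonneg_right h6 (by positivity)
      _ = 6 / (n : ℝ) := by field_simp
  have h8 : 4 / (z : ℝ) ≤ ε / 2 := by
    have : 8 / ε ≤ (z : ℝ) := hz0.trans (by exact_mod_cast hzz)
    rw [div_le_iff₀ hε] at this
    rw [div_le_iff₀ hzpos]
    linarith
  have h9 : 6 / (n : ℝ) ≤ ε / 2 := by
    have : 12 / ε ≤ (n : ℝ) := hn1.trans (by exact_mod_cast hnn1)
    rw [div_le_iff₀ hε] at this
    rw [div_le_iff₀ hnpos]
    linarith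
  calc cg n (EvM n z) ≤ ng n *
        (∑ i ∈ S, 2 / (i.1 : ℝ) ^ (2 * i.2) + S.card * (1 / (n : ℝ) ^ 5)) := by
        rw [← h4]
        exact (h1.trans h2).trans h3
    _ ≤ ng n * ε := mul_le_mul_of_nonneg_left (by linarith) (ng_pos n).le
    _ = ε * ng n := mul_comm _ _

end Pool.Agent.H10.DG
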