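import Pool.Agent.H10.DG.Ev
import Pool.Agent.H71.DG.PartM

/-!
# DG-A2: the event `EvR` is rare

PROOF.  Let `L = Nat.log 2 n`.  For `n` so large that `z ≤ n^3` and `R ≤ L`, `EvR n z R G` implies:
there are an odd prime `p ≤ z` and `R ≤ d < R + 6 L` (so `d ≤ 7 L`) with
`∃ U, Ob p G U ∧ finrank U = d`.  For `R ≥ 1` union bound (`cg_exists`) and `part_M`:
`cg n (EvR n z R) ≤ ng n * ∑_{p ≤ z} ∑_{d=R}^{R+6L-1} (2 / p^(2d) + 1 / n^5)
 ≤ ng n * (z + 1) * (2 * ∑_{d ≥ R} 1 / 3^(2 d) + 6 L / n^5) ≤ ng n * (z + 1) (4 / 9^R + 6 / n^4)`.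
Take `R₀ ≥ 1` with `(z + 1) 4 / 9^R₀ ≤ ε / 2`, and for given `R ≥ R₀` take `n₀` with
`(z + 1) 6 / n₀^4 ≤ ε / 2`, `2^R ≤ n₀`, `z ≤ n₀`.
-/

set_option autoImplicit false

namespace Pool.Agent.H10.DG

open Matrix Classical Pool.Agent.H66.SP Pool.Agent.H95.SQ Pool.Agent.H66.DG

/-- an obstruction of dimension `d` modulo the odd prime `p` -/
def EvRleP (n : ℕ) (i : ℕ × ℕ) (G : SimpleGraph (Fin n)) : Prop :=
  ∃ (_ : Fact i.1.Prime), i.1 ≠ 2 ∧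
    ∃ U : Submodule (ZMod i.1) (Fin n → ZMod i.1), Ob i.1 G U ∧
      Module.finrank (ZMod i.1) U = i.2

theorem EvRle_geo (R M : ℕ) : ∑ d ∈ Finset.Ico R (R + M), ((1 : ℝ) / 9) ^ d ≤
    2 * (1 / 9) ^ R := by
  rw [Finset.sum_Ico_eq_sum_range, Nat.add_sub_cancel_left]
  have h1 : ∀ M : ℕ, ∑ i ∈ Finset.range M, ((1 : ℝ) / 9) ^ (R + i) =
      (1 / 9) ^ R * (9 / 8 * (1 - (1 / 9) ^ M)) := by
    intro M
    induction M with
    | zero => simp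
    | succ M ih =>
      rw [Finset.sum_range_succ, ih, pow_add, pow_succ]
      ring
  rw [h1]
  have h2 : (0 : ℝ) < (1 / 9) ^ R := by positivity
  have h3 : (0 : ℝ) < (1 / 9) ^ M := by positivity
  nlinarith

theorem EvRle_one (n : ℕ) (hn : 1 ≤ n)
    (hM : ∀ (p : ℕ) [Fact p.Prime], p ≠ 2 → p ≤ n ^ 3 →
    ∀ d : ℕ, 1 ≤ d → d ≤ 7 * Nat.log 2 n →
    (((Finset.univ : Finset (SimpleGraph (Fin n))).filter (fun G =>
      ∃ U : Submodule (ZMod p) (Fin n → ZMod p), Ob p G U ∧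
        Module.finrank (ZMod p) U = d)).card : ℝ) ≤
      (Fintype.card (SimpleGraph (Fin n)) : ℝ) *
        (2 / (p : ℝ) ^ (2 * d) + 1 / (n : ℝ) ^ 5)) (i : ℕ × ℕ) (hi : i.1 ≤ n ^ 3)
    (h1 : 1 ≤ i.2) (h2 : i.2 ≤ 7 * Nat.log 2 n) :
    cg n (EvRleP n i) ≤ ng n * (2 * (1 / 9) ^ i.2 + 1 / (n : ℝ) ^ 5) := by
  have hng : 0 ≤ ng n := Nat.cast_nonneg _
  have hn0 : (0 : ℝ) < (n : ℝ) ^ 5 := by positivity
  by_cases hp : i.1.Prime ∧ i.1 ≠ 2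
  · obtain ⟨hp1, hp2⟩ := hp
    have hf : Fact i.1.Prime := ⟨hp1⟩
    have h3 := hM i.1 hp2 hi i.2 h1 h2
    have h4 : cg n (EvRleP n i) ≤ (((Finset.univ : Finset (SimpleGraph (Fin n))).filter (fun G =>
      ∃ U : Submodule (ZMod i.1) (Fin n → ZMod i.1), Ob i.1 G U ∧
        Module.finrank (ZMod i.1) U = i.2)).card : ℝ) := by
      rw [← cg_eq]
      refine cg_mono n fun G hG => ?_
      obtain ⟨_, -, U, hU⟩ := hG
      exact ⟨U, hU⟩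
    refine (h4.trans h3).trans ?_
    refine mul_le_mul_of_nonneg_left ?_ hng
    have h5 : (3 : ℝ) ≤ (i.1 : ℝ) := by
      have := hp1.two_le
      have h6 : 3 ≤ i.1 := by omega
      exact_mod_cast h6
    have h7 : (9 : ℝ) ^ i.2 ≤ (i.1 : ℝ) ^ (2 * i.2) := by
      rw [pow_mul]
      refine pow_le_pow_left₀ (by norm_num) ?_ _
      nlinarith
    have h8 : (2 : ℝ) / (i.1 : ℝ) ^ (2 * i.2) ≤ 2 * (1 / 9) ^ i.2 := by
      rw [one_div, inv_pow, ← div_eq_mul_inv]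
      exact div_le_div_of_nonneg_left (by norm_num) (by positivity) h7
    linarith
  · have h3 : cg n (EvRleP n i) ≤ 0 := by
      have h4 : (((Finset.univ : Finset (SimpleGraph (Fin n))).filter (EvRleP n i)).card : ℝ) =
          0 := by
        rw [Nat.cast_eq_zero, Finset.card_eq_zero, Finset.filter_eq_empty_iff]
        intro G _ hG
        obtain ⟨hf, hne, -⟩ := hG
        exact hp ⟨hf.out, hne⟩
      rw [cg_eq, h4]
    refine h3.trans (mul_nonneg hng (by positivity))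

theorem EvRle_bound (n z R : ℕ) (hn : 1 ≤ n) (hR1 : 1 ≤ R) (hR : R ≤ Nat.log 2 n) (hz : z ≤ n ^ 3)
    (hM : ∀ (p : ℕ) [Fact p.Prime], p ≠ 2 → p ≤ n ^ 3 →
    ∀ d : ℕ, 1 ≤ d → d ≤ 7 * Nat.log 2 n →
    (((Finset.univ : Finset (SimpleGraph (Fin n))).filter (fun G =>
      ∃ U : Submodule (ZMod p) (Fin n → ZMod p), Ob p G U ∧
        Module.finrank (ZMod p) U = d)).card : ℝ) ≤
      (Fintype.card (SimpleGraph (Fin n)) : ℝ) *
        (2 / (p : ℝ) ^ (2 * d) + 1 / (n : ℝ) ^ 5)) :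
    cg n (EvR n z R) ≤ ng n * (((z : ℝ) + 1) * (4 * (1 / 9) ^ R + 6 / (n : ℝ) ^ 4)) := by
  have hng : 0 ≤ ng n := Nat.cast_nonneg _
  obtain ⟨L, hL⟩ : ∃ L, L = Nat.log 2 n := ⟨_, rfl⟩
  rw [← hL] at hR
  have h1 : cg n (EvR n z R) ≤ cg n (fun G => ∃ i ∈ (Finset.range (z + 1)) ×ˢ
      (Finset.Ico R (R + 6 * L)), EvRleP n i G) := by
    refine cg_mono n fun G hG => ?_
    obtain ⟨p, hf, hp2, hpz, U, hU, hd1, hd2⟩ := hG
    refine ⟨(p, Module.finrank (ZMod p) U), ?_, hf, hp2, U, hU, rfl⟩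
    rw [Finset.mem_product, Finset.mem_range, Finset.mem_Ico, hL]
    exact ⟨Nat.lt_succ_of_le hpz, hd1, hd2⟩
  have h2 := cg_exists n ((Finset.range (z + 1)) ×ˢ (Finset.Ico R (R + 6 * L))) (EvRleP n)
  refine h1.trans (h2.trans ?_)
  have h3 : ∀ i ∈ (Finset.range (z + 1)) ×ˢ (Finset.Ico R (R + 6 * L)),
      cg n (EvRleP n i) ≤ ng n * (2 * (1 / 9) ^ i.2 + 1 / (n : ℝ) ^ 5) := by
    intro i hi
    rw [Finset.mem_product, Finset.mem_range, Finset.mem_Ico] at hi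
    exact EvRle_one n hn hM i (by omega) (by omega) (by rw [← hL]; omega)
  refine (Finset.sum_le_sum h3).trans ?_
  rw [← Finset.mul_sum]
  refine mul_le_mul_of_nonneg_left ?_ hng
  rw [Finset.sum_product]
  have h4 : ∑ d ∈ Finset.Ico R (R + 6 * L), (2 * ((1 : ℝ) / 9) ^ d + 1 / (n : ℝ) ^ 5) ≤
      4 * (1 / 9) ^ R + 6 / (n : ℝ) ^ 4 := by
    rw [Finset.sum_add_distrib, ← Finset.mul_sum, Finset.sum_const, Nat.card_Ico,
      Nat.add_sub_cancel_left, nsmul_eq_mul]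
    have h5 := EvRle_geo R (6 * L)
    have h6 : ((6 * L : ℕ) : ℝ) * (1 / (n : ℝ) ^ 5) ≤ 6 / (n : ℝ) ^ 4 := by
      have h7 : (0 : ℝ) < n := by exact_mod_cast hn
      have h8 : (L : ℝ) ≤ n := by
        have : L ≤ n := by
          rw [hL]
          exact Nat.log_le_self 2 n
        exact_mod_cast this
      have h9 : (6 : ℝ) / (n : ℝ) ^ 4 = (6 * n) * (1 / (n : ℝ) ^ 5) := by
        field_simp
      rw [h9]
      refine mul_le_mul_of_nonneg_right ?_ (by positivity)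
      push_cast
      linarith
    linarith
  calc ∑ _p ∈ Finset.range (z + 1), ∑ d ∈ Finset.Ico R (R + 6 * L),
        (2 * ((1 : ℝ) / 9) ^ d + 1 / (n : ℝ) ^ 5) ≤
      ∑ _p ∈ Finset.range (z + 1), (4 * (1 / 9) ^ R + 6 / (n : ℝ) ^ 4) :=
        Finset.sum_le_sum fun _ _ => h4
    _ = ((z : ℝ) + 1) * (4 * (1 / 9) ^ R + 6 / (n : ℝ) ^ 4) := by
        rw [Finset.sum_const, Finset.card_range, nsmul_eq_mul]
        push_cast
        ring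

theorem evR_le (z : ℕ) (ε : ℝ) (hε : 0 < ε) : ∃ R₀ : ℕ, ∀ R : ℕ, R₀ ≤ R → ∃ n₀ : ℕ,
    ∀ n : ℕ, n₀ ≤ n → cg n (EvR n z R) ≤ ε * ng n := by
  have hz0 : (0 : ℝ) < (z : ℝ) + 1 := by positivity
  obtain ⟨R₀, hR₀⟩ := exists_pow_lt_of_lt_one (show (0 : ℝ) < ε / (8 * ((z : ℝ) + 1)) by
    positivity) (show (1 / 9 : ℝ) < 1 by norm_num)
  refine ⟨R₀ + 1, fun R hR => ?_⟩
  obtain ⟨n₁, hn₁⟩ := Filter.eventually_atTop.1 Pool.Agent.H71.DG.part_M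
  obtain ⟨n₂, hn₂⟩ := exists_nat_ge (12 * ((z : ℝ) + 1) / ε)
  refine ⟨n₁ + n₂ + z + 2 ^ R + 1, fun n hn => ?_⟩
  have hpow : 1 ≤ 2 ^ R := Nat.one_le_two_pow
  have hn1 : 1 ≤ n := by omega
  have h2R : 2 ^ R ≤ n := by omega
  have hRL : R ≤ Nat.log 2 n := Nat.le_log_of_pow_le (by norm_num) h2R
  have hz : z ≤ n ^ 3 := by
    calc z ≤ n := by omega
      _ = n ^ 1 := (pow_one n).symm
      _ ≤ n ^ 3 := Nat.pow_le_pow_right hn1 (by norm_num)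
  have h1 := EvRle_bound n z R hn1 (by omega) hRL hz (hn₁ n (by omega))
  refine h1.trans ?_
  rw [mul_comm ε]
  refine mul_le_mul_of_nonneg_left ?_ (Nat.cast_nonneg _)
  have h2 : ((1 : ℝ) / 9) ^ R ≤ ε / (8 * ((z : ℝ) + 1)) :=
    (pow_le_pow_of_le_one (by norm_num) (by norm_num) (by omega : R₀ ≤ R)).trans hR₀.le
  have h3 : ((z : ℝ) + 1) * (4 * (1 / 9) ^ R) ≤ ε / 2 := by
    calc ((z : ℝ) + 1) * (4 * (1 / 9) ^ R) ≤ ((z : ℝ) + 1) * (4 * (ε / (8 * ((z : ℝ) + 1)))) := by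
          gcongr
      _ = ε / 2 := by
          field_simp
          ring
  have hn0 : (1 : ℝ) ≤ n := by exact_mod_cast hn1
  have h4 : 12 * ((z : ℝ) + 1) / ε ≤ (n : ℝ) ^ 4 := by
    have h5 : (n₂ : ℝ) ≤ n := by
      have : n₂ ≤ n := by omega
      exact_mod_cast this
    have h6 : (n : ℝ) ≤ (n : ℝ) ^ 4 := le_self_pow₀ hn0 (by norm_num)
    linarith
  have h5 : ((z : ℝ) + 1) * (6 / (n : ℝ) ^ 4) ≤ ε / 2 := by
    have h6 : (0 : ℝ) < (n : ℝ) ^ 4 := by positivity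
    rw [div_le_iff₀ hε] at h4
    rw [mul_div_assoc', div_le_iff₀ h6]
    linarith
  calc ((z : ℝ) + 1) * (4 * (1 / 9) ^ R + 6 / (n : ℝ) ^ 4) =
      ((z : ℝ) + 1) * (4 * (1 / 9) ^ R) + ((z : ℝ) + 1) * (6 / (n : ℝ) ^ 4) := by ring
    _ ≤ ε / 2 + ε / 2 := add_le_add h3 h5
    _ = ε := by ring

end Pool.Agent.H10.DG
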