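import Mathlib

/-!
# DG-R10: a number whose prime factors are small, with small exponents

PROOF.  `l = ∏ p ∈ l.primeFactors, p ^ l.factorization p` (`Nat.prod_factorization_pow_eq_self`);
`l.primeFactors ⊆ (range (z+1)).filter Prime` by `h1`, `l.factorization p ≤ m` by `h2`
(`Nat.Prime.pow_dvd_iff_le_factorization`: otherwise `p ^ m ∣ l`), and the other factors
`p ^ m` are at least `1` (`Finset.prod_le_prod_of_subset_of_one_le'`).
-/

set_option autoImplicit false

namespace Pool.Agent.H10.DG

theorem le_prod_primes {l z m : ℕ} (hl : 0 < l) (h1 : ∀ p : ℕ, p.Prime → p ∣ l → p ≤ z)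
    (h2 : ∀ p : ℕ, p.Prime → p ≤ z → ¬ p ^ m ∣ l) :
    l ≤ ∏ p ∈ (Finset.range (z + 1)).filter Nat.Prime, p ^ m := by
  have h0 : l = ∏ p ∈ l.primeFactors, p ^ l.factorization p := by
    conv_lhs => rw [← Nat.prod_factorization_pow_eq_self hl.ne']
    rfl
  calc l = ∏ p ∈ l.primeFactors, p ^ l.factorization p := h0
    _ ≤ ∏ p ∈ l.primeFactors, p ^ m := by
      apply Finset.prod_le_prod'
      intro p hp
      have hpp := Nat.prime_of_mem_primeFactors hp
      have hpl := Nat.dvd_of_mem_primeFactors hp
      apply Nat.pow_le_pow_right hpp.pos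
      by_contra hlt
      push Not at hlt
      exact h2 p hpp (h1 p hpp hpl)
        ((hpp.pow_dvd_iff_le_factorization hl.ne').mpr hlt.le)
    _ ≤ ∏ p ∈ (Finset.range (z + 1)).filter Nat.Prime, p ^ m := by
      apply Finset.prod_le_prod_of_subset_of_one_le'
      · intro p hp
        have hpp := Nat.prime_of_mem_primeFactors hp
        have hpl := Nat.dvd_of_mem_primeFactors hp
        rw [Finset.mem_filter, Finset.mem_range]
        exact ⟨Nat.lt_succ_of_le (h1 p hpp hpl), hpp⟩
      · intro p hp _
        rw [Finset.mem_filter] at hp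
        exact Nat.one_le_pow _ _ hp.2.pos

end Pool.Agent.H10.DG
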