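import Pool.Agent.H10.DG.SFin

/-!
# DG-D7: interface theorem I-D (large degree)

PROOF.  Union over the odd primes `p ≤ n^3` (a subset of `Finset.range (n^3 + 1)`; use
`if hp : p.Prime then ... else ∅` for the `Fact` instance) of the sets of `card_bad_pair` with
`d = 6 * Nat.log 2 n`.  The total is at most
`(n^3 + 1) (n^2 + n) 2^n g / 2^(6 L)`, `g = card (SimpleGraph (Fin n))`, `L = Nat.log 2 n`, and
`n < 2^(L+1)` (`Nat.lt_pow_succ_log_self`), so `2^(6 L) ≥ n^6 / 64` and the total is at most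
`(2 n^3) (2 n^2) 64 / n^6 * 2^n g = 256 / n * 2^n g ≤ ε 2^n g` for `n ≥ 256 / ε`, `n ≥ 1`.
-/

set_option autoImplicit false

namespace Pool.Agent.H10.DG

open Matrix Classical Pool.Agent.H66.SP Pool.Agent.H95.SQ Pool.Agent.H95.DL

theorem ID_nat (n : ℕ) :
    ((Finset.univ : Finset (SimpleGraph (Fin n) × (Fin n → Bool))).filter
      (fun x => ∃ (p : ℕ) (_ : Fact p.Prime), p ≠ 2 ∧ p ≤ n ^ 3 ∧ ∃ μ : KK p,
        6 * Nat.log 2 n ≤ dg p μ ∧ ∃ w : Fin n → KK p, w ≠ 0 ∧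
        sei (KK p) x.1 *ᵥ w = μ • w ∧ sv (KK p) x.2 ⬝ᵥ w = 0)).card * 2 ^ (6 * Nat.log 2 n) ≤
      (n ^ 3 + 1) * ((n * n + n) * 2 ^ n * Fintype.card (SimpleGraph (Fin n))) := by
  let X : ℕ → Finset (SimpleGraph (Fin n) × (Fin n → Bool)) := fun p =>
    if hp : p.Prime ∧ p ≠ 2 then
      haveI : Fact p.Prime := ⟨hp.1⟩
      (Finset.univ : Finset (SimpleGraph (Fin n) × (Fin n → Bool))).filter
        (fun x => ∃ μ : KK p, 6 * Nat.log 2 n ≤ dg p μ ∧ ∃ w : Fin n → KK p, w ≠ 0 ∧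
          sei (KK p) x.1 *ᵥ w = μ • w ∧ sv (KK p) x.2 ⬝ᵥ w = 0)
    else ∅
  have hX : ∀ p, (X p).card * 2 ^ (6 * Nat.log 2 n) ≤
      (n * n + n) * 2 ^ n * Fintype.card (SimpleGraph (Fin n)) := by
    intro p
    by_cases hp : p.Prime ∧ p ≠ 2
    · have : Fact p.Prime := ⟨hp.1⟩
      have h := card_bad_pair p hp.2 (6 * Nat.log 2 n) n
      have e : X p = (Finset.univ : Finset (SimpleGraph (Fin n) × (Fin n → Bool))).filter
        (fun x => ∃ μ : KK p, 6 * Nat.log 2 n ≤ dg p μ ∧ ∃ w : Fin n → KK p, w ≠ 0 ∧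
          sei (KK p) x.1 *ᵥ w = μ • w ∧ sv (KK p) x.2 ⬝ᵥ w = 0) := dif_pos hp
      rw [e]
      exact h
    · have e : X p = ∅ := dif_neg hp
      rw [e, Finset.card_empty, zero_mul]
      exact Nat.zero_le _
  have hsub : (Finset.univ : Finset (SimpleGraph (Fin n) × (Fin n → Bool))).filter
      (fun x => ∃ (p : ℕ) (_ : Fact p.Prime), p ≠ 2 ∧ p ≤ n ^ 3 ∧ ∃ μ : KK p,
        6 * Nat.log 2 n ≤ dg p μ ∧ ∃ w : Fin n → KK p, w ≠ 0 ∧
        sei (KK p) x.1 *ᵥ w = μ • w ∧ sv (KK p) x.2 ⬝ᵥ w = 0) ⊆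
      (Finset.range (n ^ 3 + 1)).biUnion X := by
    intro x hx
    rw [Finset.mem_filter] at hx
    obtain ⟨_, p, hF, hp2, hpn, hrest⟩ := hx
    rw [Finset.mem_biUnion]
    refine ⟨p, Finset.mem_range.mpr (by omega), ?_⟩
    have hp : p.Prime ∧ p ≠ 2 := ⟨hF.out, hp2⟩
    have e : X p = (Finset.univ : Finset (SimpleGraph (Fin n) × (Fin n → Bool))).filter
        (fun x => ∃ μ : KK p, 6 * Nat.log 2 n ≤ dg p μ ∧ ∃ w : Fin n → KK p, w ≠ 0 ∧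
          sei (KK p) x.1 *ᵥ w = μ • w ∧ sv (KK p) x.2 ⬝ᵥ w = 0) := dif_pos hp
    rw [e, Finset.mem_filter]
    exact ⟨Finset.mem_univ _, hrest⟩
  have h1 := (Finset.card_le_card hsub).trans Finset.card_biUnion_le
  calc _ ≤ (∑ p ∈ Finset.range (n ^ 3 + 1), (X p).card) * 2 ^ (6 * Nat.log 2 n) :=
        Nat.mul_le_mul_right _ h1
    _ = ∑ p ∈ Finset.range (n ^ 3 + 1), (X p).card * 2 ^ (6 * Nat.log 2 n) := Finset.sum_mul _ _ _
    _ ≤ ∑ p ∈ Finset.range (n ^ 3 + 1),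
        (n * n + n) * 2 ^ n * Fintype.card (SimpleGraph (Fin n)) :=
        Finset.sum_le_sum (fun p _ => hX p)
    _ = _ := by rw [Finset.sum_const, Finset.card_range, smul_eq_mul]

theorem ID (ε : ℝ) (hε : 0 < ε) : ∃ n₀ : ℕ, ∀ n : ℕ, n₀ ≤ n →
    (((Finset.univ : Finset (SimpleGraph (Fin n) × (Fin n → Bool))).filter
      (fun x => ∃ (p : ℕ) (_ : Fact p.Prime), p ≠ 2 ∧ p ≤ n ^ 3 ∧ ∃ μ : KK p,
        6 * Nat.log 2 n ≤ dg p μ ∧ ∃ w : Fin n → KK p, w ≠ 0 ∧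
        sei (KK p) x.1 *ᵥ w = μ • w ∧ sv (KK p) x.2 ⬝ᵥ w = 0)).card : ℝ) ≤
      ε * 2 ^ n * (Fintype.card (SimpleGraph (Fin n)) : ℝ) := by
  refine ⟨⌈256 / ε⌉₊ + 1, fun n hn => ?_⟩
  have h := ID_nat n
  set c := ((Finset.univ : Finset (SimpleGraph (Fin n) × (Fin n → Bool))).filter
      (fun x => ∃ (p : ℕ) (_ : Fact p.Prime), p ≠ 2 ∧ p ≤ n ^ 3 ∧ ∃ μ : KK p,
        6 * Nat.log 2 n ≤ dg p μ ∧ ∃ w : Fin n → KK p, w ≠ 0 ∧
        sei (KK p) x.1 *ᵥ w = μ • w ∧ sv (KK p) x.2 ⬝ᵥ w = 0)).card with hc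
  set g := Fintype.card (SimpleGraph (Fin n)) with hg
  have hn1 : 1 ≤ n := by omega
  have hn2 : 256 / ε ≤ n := by
    have := Nat.le_ceil (256 / ε)
    have h3 : ((⌈256 / ε⌉₊ : ℕ) : ℝ) ≤ n := by exact_mod_cast (by omega : ⌈256 / ε⌉₊ ≤ n)
    linarith
  -- natural number inequality
  have h6 : n ^ 6 ≤ 64 * 2 ^ (6 * Nat.log 2 n) := by
    have h7 : n ≤ 2 ^ (Nat.log 2 n + 1) := (Nat.lt_pow_succ_log_self (by norm_num) n).le
    calc n ^ 6 ≤ (2 ^ (Nat.log 2 n + 1)) ^ 6 := Nat.pow_le_pow_left h7 6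
      _ = 64 * 2 ^ (6 * Nat.log 2 n) := by
        rw [← pow_mul, show (Nat.log 2 n + 1) * 6 = 6 * Nat.log 2 n + 6 by ring, pow_add]
        norm_num
        ring
  have h8 : c * n ^ 6 ≤ 256 * n ^ 5 * (2 ^ n * g) := by
    have a1 : n ^ 3 + 1 ≤ 2 * n ^ 3 := by
      have := Nat.one_le_pow 3 n (by omega)
      omega
    have a2 : n * n + n ≤ 2 * n ^ 2 := by nlinarith
    calc c * n ^ 6 ≤ c * (64 * 2 ^ (6 * Nat.log 2 n)) := Nat.mul_le_mul_left _ h6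
      _ = 64 * (c * 2 ^ (6 * Nat.log 2 n)) := by ring
      _ ≤ 64 * ((n ^ 3 + 1) * ((n * n + n) * 2 ^ n * g)) := Nat.mul_le_mul_left _ h
      _ ≤ 64 * ((2 * n ^ 3) * ((2 * n ^ 2) * 2 ^ n * g)) := by gcongr
      _ = 256 * n ^ 5 * (2 ^ n * g) := by ring
  have h9 : c * n ≤ 256 * (2 ^ n * g) := by
    have h5 : 0 < n ^ 5 := by positivity
    refine Nat.le_of_mul_le_mul_left ?_ h5
    calc n ^ 5 * (c * n) = c * n ^ 6 := by ring
      _ ≤ 256 * n ^ 5 * (2 ^ n * g) := h8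
      _ = n ^ 5 * (256 * (2 ^ n * g)) := by ring
  have h10 : (c : ℝ) * n ≤ 256 * (2 ^ n * g) := by exact_mod_cast h9
  have hnpos : (0 : ℝ) < n := by exact_mod_cast hn1
  have h11 : (256 : ℝ) ≤ ε * n := by
    rw [div_le_iff₀ hε] at hn2
    linarith
  have hK : (0 : ℝ) ≤ 2 ^ n * (g : ℝ) := by positivity
  have h12 : (c : ℝ) * n ≤ (ε * 2 ^ n * g) * n := by
    calc (c : ℝ) * n ≤ 256 * (2 ^ n * g) := h10
      _ ≤ (ε * n) * (2 ^ n * g) := mul_le_mul_of_nonneg_right h11 hK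
      _ = _ := by ring
  exact le_of_mul_le_mul_right h12 hnpos

end Pool.Agent.H10.DG
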