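import Pool.Agent.H10.DG.Tra
import Pool.Agent.H10.DG.ID

/-!
# DG-W3: from pairs (graph, signs) to graphs

PROOFS.
* `graph_of_pair`: `card_le_of_swi`, divide by `2 ^ n`.
* `hL_of`, `hC_of`, `hD_of`: the implications needed in `graph_of_pair` (with `w' = tw b w`,
  `μ' = -1 - 2 μ`): `sei_tw`, `tw_ne_zero`, `tw_dot`, `sv_dot_tw`, `dg_lin`.
* `id_graph`: `ID`, `graph_of_pair`, `hD_of`.
-/

set_option autoImplicit false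

namespace Pool.Agent.H10.DG

open Matrix Classical Pool.Agent.H66.SP Pool.Agent.H95.SQ Pool.Agent.H95.DL

theorem graph_of_pair (n : ℕ) (P : SimpleGraph (Fin n) → Prop)
    (P' : SimpleGraph (Fin n) → (Fin n → Bool) → Prop) (h : ∀ G b, P (swi G b) → P' G b) (c : ℝ)
    (hc : (((Finset.univ : Finset (SimpleGraph (Fin n) × (Fin n → Bool))).filter
      (fun x => P' x.1 x.2)).card : ℝ) ≤ c * 2 ^ n * (Fintype.card (SimpleGraph (Fin n)) : ℝ)) :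
    (((Finset.univ : Finset (SimpleGraph (Fin n))).filter P).card : ℝ) ≤
      c * (Fintype.card (SimpleGraph (Fin n)) : ℝ) := by
  have h1 := card_le_of_swi P P' h
  rw [Fintype.card_fin] at h1
  have h2 : (((Finset.univ : Finset (SimpleGraph (Fin n))).filter P).card : ℝ) * 2 ^ n ≤
      (((Finset.univ : Finset (SimpleGraph (Fin n) × (Fin n → Bool))).filter
      (fun x => P' x.1 x.2)).card : ℝ) := by
    exact_mod_cast h1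
  have h3 : (0 : ℝ) < 2 ^ n := by positivity
  have h4 := h2.trans hc
  have h5 : (((Finset.univ : Finset (SimpleGraph (Fin n))).filter P).card : ℝ) * 2 ^ n ≤
      (c * (Fintype.card (SimpleGraph (Fin n)) : ℝ)) * 2 ^ n := by
    linarith
  exact le_of_mul_le_mul_right h5 h3

theorem hL_of {V : Type*} [Fintype V] (N : ℕ) (G : SimpleGraph V) (b : V → Bool)
    (h : ∃ (p : ℕ) (_ : Fact p.Prime), N < p ∧ ∃ μ : KK p, ∃ w : V → KK p, w ≠ 0 ∧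
      adj (KK p) (swi G b) *ᵥ w = μ • w ∧ w ⬝ᵥ w = 0 ∧ ∑ v, w v = 0) :
    ∃ (p : ℕ) (_ : Fact p.Prime), N < p ∧ ∃ μ : KK p, ∃ w : V → KK p, w ≠ 0 ∧
      sei (KK p) G *ᵥ w = μ • w ∧ w ⬝ᵥ w = 0 ∧ sv (KK p) b ⬝ᵥ w = 0 := by
  obtain ⟨p, hp, hN, μ, w, hw, he, hww, h0⟩ := h
  refine ⟨p, hp, hN, -1 - 2 * μ, tw b w, tw_ne_zero b hw, sei_tw G b μ w he h0, ?_, ?_⟩
  · rw [tw_dot, hww]
  · rw [sv_dot_tw, h0]

theorem hC_of {V : Type*} [Fintype V] (G : SimpleGraph V) (b : V → Bool)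
    (h : ∃ μ : ℂ, ∃ w : V → ℂ, w ≠ 0 ∧
      adj ℂ (swi G b) *ᵥ w = μ • w ∧ ∑ v, w v = 0) :
    ∃ μ : ℂ, ∃ w : V → ℂ, w ≠ 0 ∧ sei ℂ G *ᵥ w = μ • w ∧ sv ℂ b ⬝ᵥ w = 0 := by
  obtain ⟨μ, w, hw, he, h0⟩ := h
  refine ⟨-1 - 2 * μ, tw b w, tw_ne_zero b hw, sei_tw G b μ w he h0, ?_⟩
  rw [sv_dot_tw, h0]

theorem hD_of {V : Type*} [Fintype V] (N d : ℕ) (G : SimpleGraph V) (b : V → Bool)
    (h : ∃ (p : ℕ) (_ : Fact p.Prime), p ≠ 2 ∧ p ≤ N ∧ ∃ μ : KK p, d ≤ dg p μ ∧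
      ∃ w : V → KK p, w ≠ 0 ∧ adj (KK p) (swi G b) *ᵥ w = μ • w ∧ ∑ v, w v = 0) :
    ∃ (p : ℕ) (_ : Fact p.Prime), p ≠ 2 ∧ p ≤ N ∧ ∃ μ : KK p, d ≤ dg p μ ∧
      ∃ w : V → KK p, w ≠ 0 ∧ sei (KK p) G *ᵥ w = μ • w ∧ sv (KK p) b ⬝ᵥ w = 0 := by
  obtain ⟨p, hp, hp2, hN, μ, hd, w, hw, he, h0⟩ := h
  refine ⟨p, hp, hp2, hN, -1 - 2 * μ, hd.trans (dg_lin p hp2 μ), tw b w, tw_ne_zero b hw,
    sei_tw G b μ w he h0, ?_⟩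
  rw [sv_dot_tw, h0]

theorem id_graph (ε : ℝ) (hε : 0 < ε) : ∃ n₀ : ℕ, ∀ n : ℕ, n₀ ≤ n →
    (((Finset.univ : Finset (SimpleGraph (Fin n))).filter
      (fun G => ∃ (p : ℕ) (_ : Fact p.Prime), p ≠ 2 ∧ p ≤ n ^ 3 ∧ ∃ μ : KK p,
        6 * Nat.log 2 n ≤ dg p μ ∧ ∃ w : Fin n → KK p, w ≠ 0 ∧
        adj (KK p) G *ᵥ w = μ • w ∧ ∑ v, w v = 0)).card : ℝ) ≤
      ε * (Fintype.card (SimpleGraph (Fin n)) : ℝ) := by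
  obtain ⟨n₀, hn⟩ := ID ε hε
  refine ⟨n₀, fun n h => ?_⟩
  refine graph_of_pair n _ (fun G b => ∃ (p : ℕ) (_ : Fact p.Prime), p ≠ 2 ∧ p ≤ n ^ 3 ∧
    ∃ μ : KK p, 6 * Nat.log 2 n ≤ dg p μ ∧ ∃ w : Fin n → KK p, w ≠ 0 ∧
    sei (KK p) G *ᵥ w = μ • w ∧ sv (KK p) b ⬝ᵥ w = 0) ?_ ε (hn n h)
  intro G b hG
  exact hD_of (n ^ 3) (6 * Nat.log 2 n) G b hG

end Pool.Agent.H10.DG
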