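import Pool.Agent.H10.DG.Defs
import Pool.Agent.H66.SP.Kry

/-!
# DG-R3: controllable over `ℂ` implies that the vectors `A^k e` span `ℚ^V`

PROOF.  `Ctl (adj ℂ G) (fun _ : Unit => fun _ => (1 : ℂ))` is the hypothesis (`mem_eig`,
`(1 : V → ℂ) ⬝ᵥ x = ∑ v, x v`), so by `krylov_top` (`Pool/Agent/H66/SP/Kry.lean`) the vectors
`(adj ℂ G)^j *ᵥ 1`, `j < card V`, span `ℂ^V`.  Let `S` be the span over `ℚ` of the vectors
`(adj ℚ G)^k *ᵥ 1`.  If `S ≠ ⊤` there is a nonzero linear functional vanishing on `S`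
(`Submodule.exists_le_ker_of_lt_top`), it is `y ↦ y ⬝ᵥ x` for some `x : V → ℚ`, `x ≠ 0` (see the
proof of `krylov_top`).  Let `x' v = (x v : ℂ)`.  Then `((adj ℂ G)^j *ᵥ 1) ⬝ᵥ x'` is the cast of
`((adj ℚ G)^j *ᵥ 1) ⬝ᵥ x = 0` (`adj ℂ G = (adj ℚ G).map (Rat.castHom ℂ)`, `RingHom.map_dotProduct`,
`RingHom.map_mulVec`, `Matrix.map_pow`); so all `y : V → ℂ` have `y ⬝ᵥ x' = 0`
(`Submodule.span_induction`) and `x' = 0`, `x = 0`.
-/

set_option autoImplicit false

namespace Pool.Agent.H10.DG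

open Matrix Pool.Agent.H66.SP Pool.Agent.H95.SQ

theorem Kry_adj_symm {K : Type*} [Zero K] [One K] {V : Type*} (G : SimpleGraph V) :
    (adj K G).IsSymm := by
  ext i j
  simp only [adj, Matrix.transpose_apply, Matrix.of_apply]
  by_cases h : G.Adj i j
  · rw [if_pos h, if_pos h.symm]
  · rw [if_neg h, if_neg fun h' => h h'.symm]

theorem Kry_cast {V : Type*} [Fintype V] [DecidableEq V] (G : SimpleGraph V) (k : ℕ) (v : V) :
    ((adj ℂ G ^ k) *ᵥ fun _ => (1 : ℂ)) v =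
      ((((adj ℚ G ^ k) *ᵥ fun _ => (1 : ℚ)) v : ℚ) : ℂ) := by
  induction k generalizing v with
  | zero => simp
  | succ k ih =>
    rw [pow_succ', pow_succ', ← Matrix.mulVec_mulVec, ← Matrix.mulVec_mulVec]
    simp only [Matrix.mulVec, dotProduct] at ih ⊢
    push_cast
    refine Finset.sum_congr rfl fun w _ => ?_
    rw [ih w]
    push_cast
    congr 1
    simp only [adj, Matrix.of_apply]
    split_ifs <;> simp

theorem span_krylov_rat {V : Type*} [Fintype V] [DecidableEq V] (G : SimpleGraph V)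
    (h : ∀ (μ : ℂ) (x : V → ℂ), x ∈ eig (adj ℂ G) μ → ∑ v, x v = 0 → x = 0) :
    Submodule.span ℚ {y : V → ℚ | ∃ k : ℕ, y = (adj ℚ G ^ k) *ᵥ fun _ => (1 : ℚ)} = ⊤ := by
  by_contra hne
  obtain ⟨f, hf0, hf⟩ := Submodule.exists_le_ker_of_lt_top _ (lt_top_iff_ne_top.2 hne)
  let x : V → ℚ := fun w => f (Pi.single w 1)
  have hfx : ∀ y : V → ℚ, f y = y ⬝ᵥ x := by
    intro y
    have h1 : y = ∑ w, y w • (Pi.single w (1 : ℚ) : V → ℚ) := by
      ext u
      rw [Finset.sum_apply]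
      simp [Pi.single_apply]
    conv_lhs => rw [h1]
    rw [map_sum]
    simp only [map_smul, smul_eq_mul, dotProduct, x]
  have hx' : (fun v => ((x v : ℚ) : ℂ)) ∈
      kryOrth (adj ℂ G) (fun (_ : Unit) (_ : V) => (1 : ℂ)) := by
    rw [mem_kryOrth]
    intro k _
    have h2 : ((adj ℚ G ^ k) *ᵥ fun _ => (1 : ℚ)) ⬝ᵥ x = 0 := by
      rw [← hfx]
      exact hf (Submodule.subset_span ⟨k, rfl⟩)
    simp only [dotProduct] at h2 ⊢
    have h3 := congrArg (fun q : ℚ => (q : ℂ)) h2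
    simp only [Rat.cast_sum, Rat.cast_mul, Rat.cast_zero] at h3
    rw [← h3]
    refine Finset.sum_congr rfl fun w _ => ?_
    rw [Kry_cast]
  have hctl : Ctl (adj ℂ G) (fun (_ : Unit) (_ : V) => (1 : ℂ)) := by
    intro μ y hy h0
    refine h μ y hy ?_
    have := h0 ()
    simpa [dotProduct] using this
  rw [kryOrth_eq_bot (adj ℂ G) (Kry_adj_symm G) _ hctl, Submodule.mem_bot] at hx'
  apply hf0
  ext w
  have h4 : x w = 0 := by
    have := congrFun hx' w
    simpa using this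
  have h5 : f (Pi.single w 1) = 0 := h4
  simp [h5]

end Pool.Agent.H10.DG
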