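import Pool.Agent.H10.DG.Defs

/-!
# DG-R6: the lattices `LL Q N`

All five statements are short computations.  Let `Q` be a mate matrix: `Qᵀ Q = 1`, so also
`Q Qᵀ = 1` (`Matrix.mul_eq_one_comm`), `A Q = Q B` with `A = adj ℚ G`, `B = adj ℚ H`
(multiply `Qᵀ A Q = B` by `Q` from the left), `Qᵀ e = Qᵀ Q e = e`.
* `LL_mulVec`: if `u = N Q z` then `A u = N A Q z = N Q (B z)`, and `B z` is the cast of the
  integer vector `adj ℤ H *ᵥ z`; `adj ℚ G *ᵥ (cast u)` is the cast of `adj ℤ G *ᵥ u`.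
* `LL_dot`: `u ⬝ᵥ u' = N^2 (Q z) ⬝ᵥ (Q z') = N^2 (z ⬝ᵥ z')` (cast to `ℚ`, `Int.cast_injective`).
* `LL_sum`: `∑ v, u v = e ⬝ᵥ u = N e ⬝ᵥ Q z = N (Qᵀ e) ⬝ᵥ z = N ∑ w, z w`.
* `LL_anti`: `N = M k`: `u = N Q z = M Q (k z)`.
* `LL_div`: `p v = p N Q z` gives `v = N Q z`.
-/

set_option autoImplicit false

namespace Pool.Agent.H10.DG

open Matrix Pool.Agent.H66.SP Pool.Agent.H95.SQ

theorem LLa_adj_cast {V : Type*} [Fintype V] (G : SimpleGraph V) (z : V → ℤ) :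
    (fun w => (((adj ℤ G *ᵥ z) w : ℤ) : ℚ)) = adj ℚ G *ᵥ fun w => (z w : ℚ) := by
  have h : adj ℚ G = (adj ℤ G).map (Int.castRingHom ℚ) := by
    ext i j
    simp only [adj, Matrix.map_apply, Matrix.of_apply]
    split <;> simp
  funext w
  rw [h]
  exact RingHom.map_mulVec (Int.castRingHom ℚ) (adj ℤ G) z w

theorem LLa_AQ {V : Type*} [Fintype V] [DecidableEq V] {G H : SimpleGraph V}
    {Q : Matrix V V ℚ} (hQ : IsMate G H Q) : adj ℚ G * Q = Q * adj ℚ H := by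
  have h1 : Q * Qᵀ = 1 := mul_eq_one_comm.mp hQ.orth
  rw [← hQ.conj, Matrix.mul_assoc Qᵀ, ← Matrix.mul_assoc Q, h1, Matrix.one_mul]

theorem LLa_Te {V : Type*} [Fintype V] [DecidableEq V] {G H : SimpleGraph V}
    {Q : Matrix V V ℚ} (hQ : IsMate G H Q) : Qᵀ *ᵥ (fun _ => (1 : ℚ)) = fun _ => 1 := by
  have h : Qᵀ *ᵥ (Q *ᵥ (fun _ => (1 : ℚ))) = fun _ => 1 := by
    rw [Matrix.mulVec_mulVec, hQ.orth, Matrix.one_mulVec]
  rw [hQ.one] at h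
  exact h

theorem LL_mulVec {V : Type*} [Fintype V] [DecidableEq V] {G H : SimpleGraph V}
    {Q : Matrix V V ℚ} (hQ : IsMate G H Q) {N : ℕ} {u : V → ℤ} (hu : u ∈ LL Q N) :
    adj ℤ G *ᵥ u ∈ LL Q N := by
  obtain ⟨z, hz⟩ := hu
  refine ⟨adj ℤ H *ᵥ z, fun v => ?_⟩
  rw [LLa_adj_cast, Matrix.mulVec_mulVec, ← LLa_AQ hQ, ← Matrix.mulVec_mulVec]
  have h1 : (((adj ℤ G *ᵥ u) v : ℤ) : ℚ) = (adj ℚ G *ᵥ fun w => (u w : ℚ)) v :=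
    congrFun (LLa_adj_cast G u) v
  rw [h1]
  have h2 : (fun w => (u w : ℚ)) = (N : ℚ) • (Q *ᵥ fun w => (z w : ℚ)) := by
    funext w
    rw [Pi.smul_apply, smul_eq_mul, hz w]
  rw [h2, Matrix.mulVec_smul, Pi.smul_apply, smul_eq_mul]

theorem LL_dot {V : Type*} [Fintype V] [DecidableEq V] {G H : SimpleGraph V}
    {Q : Matrix V V ℚ} (hQ : IsMate G H Q) {N : ℕ} {u u' : V → ℤ} (hu : u ∈ LL Q N)
    (hu' : u' ∈ LL Q N) : (N : ℤ) ^ 2 ∣ u ⬝ᵥ u' := by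
  obtain ⟨z, hz⟩ := hu
  obtain ⟨z', hz'⟩ := hu'
  refine ⟨z ⬝ᵥ z', ?_⟩
  have h : ((u ⬝ᵥ u' : ℤ) : ℚ) = (((N : ℤ) ^ 2 * (z ⬝ᵥ z') : ℤ) : ℚ) := by
    have h1 : ((u ⬝ᵥ u' : ℤ) : ℚ) = (fun w => (u w : ℚ)) ⬝ᵥ (fun w => (u' w : ℚ)) := by
      simp [dotProduct]
    have h2 : ((z ⬝ᵥ z' : ℤ) : ℚ) = (fun w => (z w : ℚ)) ⬝ᵥ (fun w => (z' w : ℚ)) := by
      simp [dotProduct]
    have h3 : (fun w => (u w : ℚ)) = (N : ℚ) • (Q *ᵥ fun w => (z w : ℚ)) := by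
      funext w
      rw [Pi.smul_apply, smul_eq_mul, hz w]
    have h4 : (fun w => (u' w : ℚ)) = (N : ℚ) • (Q *ᵥ fun w => (z' w : ℚ)) := by
      funext w
      rw [Pi.smul_apply, smul_eq_mul, hz' w]
    rw [h1, h3, h4, smul_dotProduct, dotProduct_smul, Matrix.dotProduct_mulVec,
      ← Matrix.mulVec_transpose, Matrix.mulVec_mulVec, hQ.orth, Matrix.one_mulVec]
    push_cast
    rw [h2, smul_eq_mul, smul_eq_mul]
    ring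
  exact_mod_cast h

theorem LL_sum {V : Type*} [Fintype V] [DecidableEq V] {G H : SimpleGraph V}
    {Q : Matrix V V ℚ} (hQ : IsMate G H Q) {N : ℕ} {u : V → ℤ} (hu : u ∈ LL Q N) :
    (N : ℤ) ∣ ∑ v, u v := by
  obtain ⟨z, hz⟩ := hu
  refine ⟨∑ w, z w, ?_⟩
  have h : ((∑ v, u v : ℤ) : ℚ) = (((N : ℤ) * ∑ w, z w : ℤ) : ℚ) := by
    have h1 : ((∑ v, u v : ℤ) : ℚ) = (fun _ => (1 : ℚ)) ⬝ᵥ (fun w => (u w : ℚ)) := by
      simp [dotProduct]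
    have h2 : ((∑ w, z w : ℤ) : ℚ) = (fun _ => (1 : ℚ)) ⬝ᵥ (fun w => (z w : ℚ)) := by
      simp [dotProduct]
    have h3 : (fun w => (u w : ℚ)) = (N : ℚ) • (Q *ᵥ fun w => (z w : ℚ)) := by
      funext w
      rw [Pi.smul_apply, smul_eq_mul, hz w]
    rw [h1, h3, dotProduct_smul, Matrix.dotProduct_mulVec, ← Matrix.mulVec_transpose, LLa_Te hQ,
      ← h2, smul_eq_mul]
    push_cast
    ring
  exact_mod_cast h

theorem LL_anti {V : Type*} [Fintype V] (Q : Matrix V V ℚ) {M N : ℕ} (h : M ∣ N) :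
    LL Q N ≤ LL Q M := by
  obtain ⟨k, rfl⟩ := h
  rintro u ⟨z, hz⟩
  refine ⟨fun w => (k : ℤ) * z w, fun v => ?_⟩
  have h1 : (fun w => (((k : ℤ) * z w : ℤ) : ℚ)) = (k : ℚ) • fun w => (z w : ℚ) := by
    funext w
    simp
  rw [h1, Matrix.mulVec_smul, Pi.smul_apply, smul_eq_mul, hz v]
  push_cast
  ring

theorem LL_div {V : Type*} [Fintype V] (Q : Matrix V V ℚ) {p N : ℕ} (hp : p ≠ 0) {v : V → ℤ}
    (h : (p : ℤ) • v ∈ LL Q (p * N)) : v ∈ LL Q N := by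
  obtain ⟨z, hz⟩ := h
  refine ⟨z, fun w => ?_⟩
  have h1 := hz w
  have hp' : (p : ℚ) ≠ 0 := by exact_mod_cast hp
  rw [Pi.smul_apply, smul_eq_mul] at h1
  push_cast at h1
  rw [mul_assoc] at h1
  exact mul_left_cancel₀ hp' h1

end Pool.Agent.H10.DG
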