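import Pool.Agent.H10.DG.Defs

/-!
# DG-R5: the level exists

PROOF.  The set of `l ≥ 1` such that `l * Q i j` is an integer for all `i, j` is nonempty: take
`l = ∏ i, ∏ j, (Q i j).den` (`Q i j = num / den`, and `den` divides the product).  Let `l` be the
least element (`Nat.find`).  If `p` is a prime with `p ∣ l` then `1 ≤ l / p < l`, so `l / p` is not
in the set.
-/

set_option autoImplicit false

namespace Pool.Agent.H10.DG

open Matrix Pool.Agent.H66.SP Pool.Agent.H95.SQ

theorem exists_level {V : Type*} [Fintype V] (Q : Matrix V V ℚ) : ∃ l : ℕ, IsLevel Q l := by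
  classical
  have hex : ∃ l : ℕ, 0 < l ∧ ∃ M : Matrix V V ℤ, ∀ i j, (l : ℚ) * Q i j = (M i j : ℚ) := by
    refine ⟨∏ i, ∏ j, (Q i j).den, ?_, ?_⟩
    · exact Finset.prod_pos fun i _ => Finset.prod_pos fun j _ => (Q i j).pos
    · have hd : ∀ i j, (Q i j).den ∣ ∏ i, ∏ j, (Q i j).den := by
        intro i j
        exact (Finset.dvd_prod_of_mem (fun j => (Q i j).den) (Finset.mem_univ j)).trans
          (Finset.dvd_prod_of_mem (fun i => ∏ j, (Q i j).den) (Finset.mem_univ i))
      choose c hc using hd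
      refine ⟨Matrix.of fun i j => (c i j : ℤ) * (Q i j).num, fun i j => ?_⟩
      rw [hc i j, Matrix.of_apply]
      have h := Rat.mul_den_eq_num (Q i j)
      push_cast
      rw [← h]
      ring
  refine ⟨Nat.find hex, (Nat.find_spec hex).1, (Nat.find_spec hex).2, ?_⟩
  intro p hp hpl hM
  have hpos := (Nat.find_spec hex).1
  have hlt : Nat.find hex / p < Nat.find hex := Nat.div_lt_self hpos hp.one_lt
  exact Nat.find_min hex hlt ⟨Nat.div_pos (Nat.le_of_dvd hpos hpl) hp.pos, hM⟩

end Pool.Agent.H10.DG
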