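import Pool.Agent.H10.DG.UUa

/-!
# DG-R8: a constant stretch of the chain `UU Q p i` gives data modulo `p ^ j`

PROOF.  Let `m = i + j`, `r = finrank (UU Q p (i+1))`.  All the spaces `UU Q p t` with
`i + 1 ≤ t ≤ m` are equal to `UU Q p m` (`UU_anti` and `h`).  Take a basis `x_a` (`a : Fin r`) of
`UU Q p m` (`Module.finBasisOfFinrankEq` or similar) and `u_a ∈ LL Q (p^m)` with reduction `x_a`.
The reductions are linearly independent.
(1) For every `t ≤ j` and `u ∈ LL Q (p^m)` there are integers `c_b` and `v ∈ LL Q (p^(m-t))` with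
`u = ∑ b, c_b • u_b + p^t • v`.  `t = 0`: `v = u`.  Step `t → t+1 ≤ j`: the reduction of `v` is in
`UU Q p (m-t) = UU Q p m` (`i + 1 ≤ m - t`), so there are integers `c'_b` with
`v - ∑ c'_b u_b = p • v'` for an integer vector `v'`; `u_b ∈ LL Q (p^m) ≤ LL Q (p^(m-t))`
(`LL_anti`), so `p • v' ∈ LL Q (p^(m-t)) = LL Q (p * p^(m-t-1))` and `v' ∈ LL Q (p^(m-t-1))`
(`LL_div`).  Then `u = ∑ (c_b + p^t c'_b) u_b + p^(t+1) v'`.
(2) With `t = j` and `u = adj ℤ G *ᵥ u_a ∈ LL Q (p^m)` (`LL_mulVec`) we get `θ a b`.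
(3) `p^j ∣ (p^m)^2 ∣ u_a ⬝ᵥ u_b` (`LL_dot`).
-/

set_option autoImplicit false

namespace Pool.Agent.H10.DG

open Matrix Pool.Agent.H66.SP Pool.Agent.H95.SQ

/-- step (1) of the proof -/
theorem Lift_step {V : Type*} [Fintype V] {Q : Matrix V V ℚ} {p : ℕ} (hp : p.Prime) {i m r : ℕ}
    (hc : ∀ t, i + 1 ≤ t → t ≤ m → UU Q p t ≤ UU Q p m)
    (u : Fin r → V → ℤ) (hu : ∀ a, u a ∈ LL Q (p ^ m))
    (hsp : ∀ x ∈ UU Q p m, ∃ c : Fin r → ℤ, ∀ v, x v = ((∑ b, c b * u b v : ℤ) : ZMod p))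
    (t : ℕ) (ht : i + t ≤ m) (w : V → ℤ) (hw : w ∈ LL Q (p ^ m)) :
    ∃ c : Fin r → ℤ, ∃ v ∈ LL Q (p ^ (m - t)), ∀ x, w x = ∑ b, c b * u b x + (p : ℤ) ^ t * v x := by
  induction t with
  | zero =>
    exact ⟨0, w, by simpa using hw, fun x => by simp⟩
  | succ t ih =>
    obtain ⟨c, v, hv, hwv⟩ := ih (by omega)
    have hred : (fun x => ((v x : ℤ) : ZMod p)) ∈ UU Q p (m - t) := ⟨v, hv, fun x => rfl⟩
    obtain ⟨c', hc'⟩ := hsp _ (hc (m - t) (by omega) (by omega) hred)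
    have hdiv : ∀ x, (p : ℤ) ∣ v x - ∑ b, c' b * u b x := by
      intro x
      rw [← ZMod.intCast_zmod_eq_zero_iff_dvd]
      rw [Int.cast_sub, sub_eq_zero]
      exact hc' x
    choose v' hv' using hdiv
    have hmem : (p : ℤ) • v' ∈ LL Q (p * p ^ (m - (t + 1))) := by
      have he : p * p ^ (m - (t + 1)) = p ^ (m - t) := by
        rw [← pow_succ']
        congr 1
        omega
      rw [he]
      have h1 : (p : ℤ) • v' = v - ∑ b, c' b • u b := by
        funext x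
        have := hv' x
        simp only [Pi.smul_apply, Pi.sub_apply, Finset.sum_apply, smul_eq_mul]
        linarith
      rw [h1]
      refine AddSubgroup.sub_mem _ hv (AddSubgroup.sum_mem _ fun b _ => ?_)
      exact AddSubgroup.zsmul_mem _ (LL_anti Q (pow_dvd_pow p (by omega)) (hu b)) _
    have hv'' := LL_div Q hp.ne_zero hmem
    refine ⟨fun b => c b + (p : ℤ) ^ t * c' b, v', hv'', fun x => ?_⟩
    rw [hwv x]
    have h2 : v x = ∑ b, c' b * u b x + p * v' x := by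
      have := hv' x
      linarith
    rw [h2]
    simp only [add_mul, Finset.sum_add_distrib, mul_add, Finset.mul_sum]
    rw [pow_succ]
    have h3 : ∑ b, (p : ℤ) ^ t * (c' b * u b x) = ∑ b, (p : ℤ) ^ t * c' b * u b x :=
      Finset.sum_congr rfl fun b _ => by ring
    rw [h3]
    ring

theorem dat_of_const {V : Type*} [Fintype V] [DecidableEq V] {G H : SimpleGraph V}
    {Q : Matrix V V ℚ} (hQ : IsMate G H Q) {p : ℕ} (hp : p.Prime) {i j : ℕ} (hj : 1 ≤ j)
    (h : UU Q p (i + 1) ≤ UU Q p (i + j)) :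
    Dat p (Module.finrank (ZMod p) (UU Q p (i + 1))) j G := by
  have : Fact p.Prime := ⟨hp⟩
  have heq : UU Q p (i + 1) = UU Q p (i + j) :=
    le_antisymm h (UU_anti Q p (by omega))
  rw [heq]
  set m := i + j with hm
  set r := Module.finrank (ZMod p) (UU Q p m) with hr
  let B : Module.Basis (Fin r) (ZMod p) (UU Q p m) := Module.finBasisOfFinrankEq _ _ hr.symm
  have hB : ∀ a, ∃ u ∈ LL Q (p ^ m), ∀ v, (B a : V → ZMod p) v = ((u v : ℤ) : ZMod p) :=
    fun a => (B a).2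
  choose u hu hub using hB
  have hfun : ∀ a, (fun v => ((u a v : ℤ) : ZMod p)) = (B a : V → ZMod p) := fun a =>
    (funext (hub a)).symm
  have hsp : ∀ x ∈ UU Q p m, ∃ c : Fin r → ℤ, ∀ v, x v = ((∑ b, c b * u b v : ℤ) : ZMod p) := by
    intro x hx
    refine ⟨fun b => ((B.repr ⟨x, hx⟩ b).cast : ℤ), fun v => ?_⟩
    have h1 := B.sum_repr ⟨x, hx⟩
    have h2 := congrArg (fun y : UU Q p m => (y : V → ZMod p) v) h1
    simp only at h2
    rw [← h2]
    push_cast
    rw [Finset.sum_apply]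
    refine Finset.sum_congr rfl fun b _ => ?_
    rw [Pi.smul_apply, smul_eq_mul, hub b v]
  refine ⟨u, ?_, ?_, ?_⟩
  · have h1 : LinearIndependent (ZMod p) (fun a => (B a : V → ZMod p)) :=
      B.linearIndependent.map' (UU Q p m).subtype (Submodule.ker_subtype _)
    have h2 : (fun (a : Fin r) (v : V) => ((u a v : ℤ) : ZMod p))
        = fun a => (B a : V → ZMod p) := funext hfun
    rw [h2]
    exact h1
  · have hc : ∀ t, i + 1 ≤ t → t ≤ m → UU Q p t ≤ UU Q p m := fun t ht _ =>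
      (UU_anti Q p ht).trans h
    have hst : ∀ a, ∃ c : Fin r → ℤ, ∃ v ∈ LL Q (p ^ (m - j)), ∀ x,
        (adj ℤ G *ᵥ u a) x = ∑ b, c b * u b x + (p : ℤ) ^ j * v x := fun a =>
      Lift_step hp hc u hu hsp j (by omega) _ (LL_mulVec hQ (hu a))
    choose θ v _ hθ using hst
    exact ⟨θ, fun a x => ⟨v a x, by rw [hθ a x]; ring⟩⟩
  · intro a b
    refine dvd_trans ?_ (LL_dot hQ (hu a) (hu b))
    push_cast
    exact dvd_trans (pow_dvd_pow _ (by omega)) (dvd_pow_self _ (by norm_num))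

end Pool.Agent.H10.DG
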