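import Pool.Agent.H10.DG.Defs
import Pool.Agent.H66.SP.Mom

/-!
# DG-R4: equal walk numbers and full span give the orthogonal matrix

PROOF (compare `iso_of_moments` in `Pool/Agent/H66/SP/Mom.lean`).  Let `A = adj ℚ G`,
`B = adj ℚ H` (symmetric), `e` the all ones vector, and let `W` be the `ℚ`-span in
`(V → ℚ) × (V → ℚ)` of the pairs `(A^k e, B^k e)`.
(1) `x ⬝ᵥ x' = y ⬝ᵥ y'` for `(x, y), (x', y') ∈ W`: bilinear, and on generators
`A^k e ⬝ᵥ A^l e = e ⬝ᵥ A^(k+l) e = ∑ i j, (A^(k+l)) i j`, the cast of the integer sum of `hmom`.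
(2) `W` is stable under `(x, y) ↦ (A x, B y)`.
(3) For every `v` there is `y_v` with `(e_v, y_v) ∈ W` (by `hspan`, span induction as in
`iso_of_moments`), so by (1) `y_v ⬝ᵥ y_w = δ_{vw}`.
(4) Let `R` be the matrix with columns `y_v` (`R u v = y_v u`).  `Rᵀ R = 1`.  For every
`(x, y) ∈ W` : `R x = y`, because `(x, R x) = ∑ v, x v • (e_v, y_v) ∈ W` and `(0, y - R x) ∈ W`
has `(y - R x) ⬝ᵥ (y - R x) = 0 ⬝ᵥ 0 = 0`.  So `R (A e_v) = B y_v = B (R e_v)` for all `v`, i.e.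
`R A = B R`, and `R e = e`.
(5) `Q := Rᵀ`.  `Qᵀ Q = R Rᵀ = 1` (`Matrix.mul_eq_one_comm`), `Qᵀ A Q = R A Rᵀ = B R Rᵀ = B`,
`Q e = Rᵀ e = Rᵀ R e = e`.
-/

set_option autoImplicit false

namespace Pool.Agent.H10.DG

open Matrix Pool.Agent.H66.SP Pool.Agent.H95.SQ

theorem mate_adj_transpose {V : Type*} (G : SimpleGraph V) :
    (adj ℚ G)ᵀ = adj ℚ G := by
  ext i j
  simp only [adj, Matrix.transpose_apply, Matrix.of_apply]
  by_cases h : G.Adj i j
  · rw [if_pos h, if_pos h.symm]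
  · rw [if_neg h, if_neg fun h' => h h'.symm]

theorem mate_adj_map {V : Type*} (G : SimpleGraph V) :
    adj ℚ G = (adj ℤ G).map (Int.castRingHom ℚ) := by
  ext i j
  simp only [adj, Matrix.map_apply, Matrix.of_apply]
  split <;> simp

theorem mate_adj_pow {V : Type*} [Fintype V] [DecidableEq V] (G : SimpleGraph V) (k : ℕ)
    (i j : V) : (adj ℚ G ^ k) i j = (((adj ℤ G ^ k) i j : ℤ) : ℚ) := by
  rw [mate_adj_map, ← Matrix.map_pow, Matrix.map_apply]
  rfl

theorem mate_gen {V : Type*} [Fintype V] [DecidableEq V] (M : Matrix V V ℚ) (hM : Mᵀ = M)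
    (k l : ℕ) :
    (M ^ k *ᵥ (fun _ => (1 : ℚ))) ⬝ᵥ (M ^ l *ᵥ fun _ => (1 : ℚ)) = ∑ i, ∑ j, (M ^ (k + l)) i j := by
  have h1 : M ^ k *ᵥ (fun _ => (1 : ℚ)) = (fun _ => (1 : ℚ)) ᵥ* M ^ k := by
    rw [← Matrix.mulVec_transpose, Matrix.transpose_pow, hM]
  rw [h1, ← Matrix.dotProduct_mulVec, Matrix.mulVec_mulVec, ← pow_add]
  simp [dotProduct, Matrix.mulVec]

theorem exists_mate {V : Type*} [Fintype V] [DecidableEq V] (G H : SimpleGraph V)
    (hspan : Submodule.span ℚ {y : V → ℚ | ∃ k : ℕ, y = (adj ℚ G ^ k) *ᵥ fun _ => (1 : ℚ)} = ⊤)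
    (hmom : ∀ k : ℕ, ∑ i, ∑ j, (adj ℤ G ^ k) i j = ∑ i, ∑ j, (adj ℤ H ^ k) i j) :
    ∃ Q : Matrix V V ℚ, IsMate G H Q := by
  have hA := mate_adj_transpose G
  have hB := mate_adj_transpose H
  have hm : ∀ k : ℕ, ∑ i, ∑ j, (adj ℚ G ^ k) i j = ∑ i, ∑ j, (adj ℚ H ^ k) i j := by
    intro k
    simp only [mate_adj_pow]
    exact_mod_cast hmom k
  set A := adj ℚ G with hAdef
  set B := adj ℚ H with hBdef
  let gens : Set ((V → ℚ) × (V → ℚ)) :=
    {p | ∃ k : ℕ, p = (A ^ k *ᵥ (fun _ => (1 : ℚ)), B ^ k *ᵥ (fun _ => (1 : ℚ)))}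
  let W : Submodule ℚ ((V → ℚ) × (V → ℚ)) := Submodule.span ℚ gens
  -- (1)
  have h1 : ∀ p ∈ W, ∀ q ∈ W, p.1 ⬝ᵥ q.1 = p.2 ⬝ᵥ q.2 := by
    intro p hp q hq
    induction hp using Submodule.span_induction with
    | mem p hp =>
      obtain ⟨k, rfl⟩ := hp
      induction hq using Submodule.span_induction with
      | mem q hq =>
        obtain ⟨l, rfl⟩ := hq
        show (A ^ k *ᵥ (fun _ => (1 : ℚ))) ⬝ᵥ (A ^ l *ᵥ (fun _ => (1 : ℚ)))
          = (B ^ k *ᵥ (fun _ => (1 : ℚ))) ⬝ᵥ (B ^ l *ᵥ (fun _ => (1 : ℚ)))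
        rw [mate_gen A hA, mate_gen B hB, hm]
      | zero => simp
      | add x y _ _ hx hy =>
        simp only [Prod.fst_add, Prod.snd_add, dotProduct_add, hx, hy]
      | smul a x _ hx =>
        simp only [Prod.smul_fst, Prod.smul_snd, dotProduct_smul, hx]
    | zero => simp
    | add x y _ _ hx hy =>
      simp only [Prod.fst_add, Prod.snd_add, add_dotProduct, hx, hy]
    | smul a x _ hx =>
      simp only [Prod.smul_fst, Prod.smul_snd, smul_dotProduct, hx]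
  -- (2)
  have h2 : ∀ p ∈ W, ((A *ᵥ p.1, B *ᵥ p.2) : (V → ℚ) × (V → ℚ)) ∈ W := by
    intro p hp
    induction hp using Submodule.span_induction with
    | mem p hp =>
      obtain ⟨k, rfl⟩ := hp
      apply Submodule.subset_span
      refine ⟨k + 1, ?_⟩
      simp only [Matrix.mulVec_mulVec, pow_succ']
    | zero =>
      have : ((A *ᵥ (0 : (V → ℚ) × (V → ℚ)).1, B *ᵥ (0 : (V → ℚ) × (V → ℚ)).2) :
          (V → ℚ) × (V → ℚ)) = 0 := by
        simp
      rw [this]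
      exact W.zero_mem
    | add x y _ _ hx hy =>
      have : ((A *ᵥ (x + y).1, B *ᵥ (x + y).2) : (V → ℚ) × (V → ℚ))
          = (A *ᵥ x.1, B *ᵥ x.2) + (A *ᵥ y.1, B *ᵥ y.2) := by
        simp [Matrix.mulVec_add]
      rw [this]
      exact W.add_mem hx hy
    | smul a x _ hx =>
      have : ((A *ᵥ (a • x).1, B *ᵥ (a • x).2) : (V → ℚ) × (V → ℚ))
          = a • (A *ᵥ x.1, B *ᵥ x.2) := by
        rw [Prod.smul_fst, Prod.smul_snd, Matrix.mulVec_smul, Matrix.mulVec_smul, Prod.smul_mk]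
      rw [this]
      exact W.smul_mem a hx
  -- (3)
  have h3 : ∀ x : V → ℚ, ∃ y : V → ℚ, (x, y) ∈ W := by
    intro x
    have hx : x ∈ Submodule.span ℚ
        {y : V → ℚ | ∃ k : ℕ, y = (adj ℚ G ^ k) *ᵥ fun _ => (1 : ℚ)} := by
      rw [hspan]
      trivial
    induction hx using Submodule.span_induction with
    | mem x hx =>
      obtain ⟨k, rfl⟩ := hx
      exact ⟨B ^ k *ᵥ (fun _ => (1 : ℚ)), Submodule.subset_span ⟨k, rfl⟩⟩
    | zero => exact ⟨0, W.zero_mem⟩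
    | add x y _ _ hx hy =>
      obtain ⟨x', hx'⟩ := hx
      obtain ⟨y', hy'⟩ := hy
      exact ⟨x' + y', W.add_mem hx' hy'⟩
    | smul a x _ hx =>
      obtain ⟨x', hx'⟩ := hx
      exact ⟨a • x', W.smul_mem a hx'⟩
  choose y hy using fun v : V => h3 (Pi.single v 1)
  have hdot : ∀ v w, y v ⬝ᵥ y w = if v = w then 1 else 0 := by
    intro v w
    rw [← h1 _ (hy v) _ (hy w)]
    simp [Pi.single_apply, eq_comm]
  let R : Matrix V V ℚ := Matrix.of fun u v => y v u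
  have hRR : Rᵀ * R = 1 := by
    ext v w
    rw [Matrix.mul_apply, Matrix.one_apply, ← hdot v w]
    rfl
  have hRR' : R * Rᵀ = 1 := mul_eq_one_comm.mp hRR
  -- (4)
  have h0 : ∀ z : V → ℚ, ((0 : V → ℚ), z) ∈ W → z = 0 := by
    intro z hz
    have h := h1 _ hz _ hz
    simp only [zero_dotProduct] at h
    exact dotProduct_self_eq_zero.mp h.symm
  have hmemR : ∀ x : V → ℚ, (x, R *ᵥ x) ∈ W := by
    intro x
    have h : ((x, R *ᵥ x) : (V → ℚ) × (V → ℚ))
        = ∑ v, x v • ((Pi.single v 1, y v) : (V → ℚ) × (V → ℚ)) := by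
      apply Prod.ext
      · rw [Prod.fst_sum]
        funext w
        simp [Finset.sum_apply, Pi.single_apply]
      · rw [Prod.snd_sum]
        funext w
        simp only [Prod.smul_snd, Finset.sum_apply, Pi.smul_apply, smul_eq_mul, Matrix.mulVec,
          dotProduct]
        exact Finset.sum_congr rfl fun v _ => mul_comm _ _
    rw [h]
    exact W.sum_mem fun v _ => W.smul_mem _ (hy v)
  have hR : ∀ x z : V → ℚ, (x, z) ∈ W → R *ᵥ x = z := by
    intro x z hz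
    have h : ((0 : V → ℚ), z - R *ᵥ x) ∈ W := by
      have := W.sub_mem hz (hmemR x)
      simpa using this
    have := h0 _ h
    exact (sub_eq_zero.mp this).symm
  have hRA : R * A = B * R := by
    apply Matrix.ext_of_mulVec_single
    intro v
    rw [← Matrix.mulVec_mulVec, ← Matrix.mulVec_mulVec]
    exact hR _ _ (h2 _ (hmemR (Pi.single v 1)))
  have hRe : R *ᵥ (fun _ => (1 : ℚ)) = fun _ => 1 := by
    apply hR
    apply Submodule.subset_span
    refine ⟨0, ?_⟩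
    simp
  refine ⟨Rᵀ, ?_, ?_, ?_⟩
  · rw [Matrix.transpose_transpose]
    exact hRR'
  · rw [Matrix.transpose_transpose, hRA, Matrix.mul_assoc, hRR', Matrix.mul_one]
  · have h : Rᵀ *ᵥ (R *ᵥ (fun _ => (1 : ℚ))) = fun _ => 1 := by
      rw [Matrix.mulVec_mulVec, hRR, Matrix.one_mulVec]
    rw [hRe] at h
    exact h

end Pool.Agent.H10.DG
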