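import Pool.Agent.H10.DG.Lift

/-!
# DG-R9: a high power of `p` in the level gives data modulo `p ^ j`

PROOF.  Let `d t = finrank (UU Q p t)`; it is antitone in `t` (`UU_anti`,
`Submodule.finrank_mono`), `d 1 < R`, and `d (R * j) ≥ 1` (`UU_ne_bot`; `R ≥ 1` as `d 1 < R`).
If for some `s < R` we have `d (s j + 1) = d (s j + j)` then
`UU Q p (s j + j) = UU Q p (s j + 1)` (`Submodule.eq_of_le_of_finrank_eq`), and `dat_of_const`
gives `Dat p r j G` with `r = d (s j + 1)`, `1 ≤ d (R j) ≤ r ≤ d 1 < R` (`s j + 1 ≤ R j`).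
Otherwise `d (s j + j) ≤ d (s j + 1) - 1` for all `s < R`, so by induction
`d (s j + 1) + s ≤ d 1` for `s < R`, and `d (R j) + R ≤ d 1 < R`, a contradiction.
-/

set_option autoImplicit false

namespace Pool.Agent.H10.DG

open Matrix Pool.Agent.H66.SP Pool.Agent.H95.SQ

theorem dat_of_dvd {V : Type*} [Fintype V] [DecidableEq V] {G H : SimpleGraph V}
    {Q : Matrix V V ℚ} (hQ : IsMate G H Q) {l : ℕ} (hl : IsLevel Q l) {p : ℕ} (hp : p.Prime)
    {R j : ℕ} (hj : 1 ≤ j) (hR : Module.finrank (ZMod p) (UU Q p 1) < R) (h : p ^ (R * j) ∣ l) :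
    ∃ r, 1 ≤ r ∧ r < R ∧ Dat p r j G := by
  have : Fact p.Prime := ⟨hp⟩
  have hR1 : 1 ≤ R := by omega
  have hRj : 1 ≤ R * j := Nat.mul_pos hR1 hj
  have hanti : ∀ {a b : ℕ}, a ≤ b →
      Module.finrank (ZMod p) (UU Q p b) ≤ Module.finrank (ZMod p) (UU Q p a) := fun hab =>
    Submodule.finrank_mono (UU_anti Q p hab)
  have hpos : 1 ≤ Module.finrank (ZMod p) (UU Q p (R * j)) := by
    have hne := UU_ne_bot hl hp hRj h
    exact Submodule.one_le_finrank_iff.mpr hne
  by_cases hex : ∃ s, s < R ∧ Module.finrank (ZMod p) (UU Q p (s * j + 1)) ≤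
      Module.finrank (ZMod p) (UU Q p (s * j + j))
  · obtain ⟨s, hs, hle⟩ := hex
    have heq : UU Q p (s * j + j) = UU Q p (s * j + 1) :=
      Submodule.eq_of_le_of_finrank_le (UU_anti Q p (by omega)) hle
    refine ⟨Module.finrank (ZMod p) (UU Q p (s * j + 1)), ?_, ?_,
      dat_of_const hQ hp hj heq.ge⟩
    · have h1 : s * j + 1 ≤ R * j := by
        have : (s + 1) * j ≤ R * j := Nat.mul_le_mul_right j hs
        rw [Nat.succ_mul] at this
        omega
      exact hpos.trans (hanti h1)
    · exact (hanti (by omega)).trans_lt hR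
  · exfalso
    push Not at hex
    have hind : ∀ s, s ≤ R → s = 0 ∨
        Module.finrank (ZMod p) (UU Q p (s * j)) + s ≤ Module.finrank (ZMod p) (UU Q p 1) := by
      intro s
      induction s with
      | zero => intro _; exact Or.inl rfl
      | succ s ih =>
        intro hs
        right
        have h1 := hex s (by omega)
        rw [Nat.succ_mul]
        rcases ih (by omega) with h0 | h2
        · subst h0
          have e1 : 0 * j + 1 = 1 := by omega
          rw [e1] at h1
          omega
        · have h3 : Module.finrank (ZMod p) (UU Q p (s * j + 1)) ≤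
              Module.finrank (ZMod p) (UU Q p (s * j)) := hanti (by omega)
          omega
    rcases hind R le_rfl with h0 | h1
    · omega
    · omega

end Pool.Agent.H10.DG
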