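import Pool.Agent.H10.DG.LinExt
import Pool.Agent.H10.DG.Codim

/-!
# DG-D10: the window lemma

PROOF.  Strong induction on `finrank U`.  If `finrank U < R + d` take `U' = U`.  Otherwise
`finrank U ≥ R + d ≥ 1`, so `U ≠ ⊥`, and by `exists_eigvec` there is an eigenvector `w ∈ KS p U`
with eigenvalue `μ` such that `minpoly μ` is not injective on `U`; `dg p μ < d` by `hdeg`.  By
`exists_codim` (`f = minpoly (ZMod p) μ`, monic as `μ` is algebraic: `minpoly.monic`,
`Algebra.IsIntegral.isIntegral`) there is an invariant `U₁ < U` with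
`finrank U ≤ finrank U₁ + dg p μ < finrank U₁ + d`; so `finrank U₁ > R`.  Apply the
induction hypothesis to `U₁` (`KS p U₁ ≤ KS p U`).
-/

set_option autoImplicit false

namespace Pool.Agent.H10.DG

open Matrix Classical Pool.Agent.H66.SP Pool.Agent.H95.SQ

theorem window {p : ℕ} [Fact p.Prime] {V : Type*} [Fintype V] [DecidableEq V]
    (A : Matrix V V (ZMod p)) (R d : ℕ) (hd : 1 ≤ d) (U : Submodule (ZMod p) (V → ZMod p))
    (hA : ∀ x ∈ U, A *ᵥ x ∈ U) (hR : R ≤ Module.finrank (ZMod p) U)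
    (hdeg : ∀ (μ : KK p) (w : V → KK p), w ≠ 0 → w ∈ KS p U →
      A.map (algebraMap (ZMod p) (KK p)) *ᵥ w = μ • w → dg p μ < d) :
    ∃ U' : Submodule (ZMod p) (V → ZMod p), U' ≤ U ∧ (∀ x ∈ U', A *ᵥ x ∈ U') ∧
      R ≤ Module.finrank (ZMod p) U' ∧ Module.finrank (ZMod p) U' < R + d := by
  induction hn : Module.finrank (ZMod p) U using Nat.strong_induction_on generalizing U with
  | _ n ih =>
    rcases Nat.lt_or_ge (Module.finrank (ZMod p) U) (R + d) with h | h
    · exact ⟨U, le_rfl, hA, hR, h⟩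
    · have hU : U ≠ ⊥ := by
        rintro rfl
        rw [finrank_bot] at h
        omega
      obtain ⟨μ, w, hw0, hwU, hw, hx⟩ := exists_eigvec A U hA hU
      have hdμ := hdeg μ w hw0 hwU hw
      have hint : IsIntegral (ZMod p) μ := Algebra.IsIntegral.isIntegral μ
      obtain ⟨U₁, hlt, hA₁, hfin⟩ := exists_codim A U hA _ (minpoly.monic hint) hx
      have hfin' : Module.finrank (ZMod p) U ≤ Module.finrank (ZMod p) U₁ + dg p μ := hfin
      have hlt' : Module.finrank (ZMod p) U₁ < Module.finrank (ZMod p) U :=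
        Submodule.finrank_lt_finrank_of_lt hlt
      have hKS : KS p U₁ ≤ KS p U := by
        unfold KS
        refine Submodule.span_mono ?_
        rintro y ⟨x, hx, rfl⟩
        exact ⟨x, hlt.le hx, rfl⟩
      obtain ⟨U', hU', h1, h2, h3⟩ := ih (Module.finrank (ZMod p) U₁) (hn ▸ hlt') U₁ hA₁ (by omega)
        (fun ν y hy0 hy hyν => hdeg ν y hy0 (hKS hy) hyν) rfl
      exact ⟨U', hU'.trans hlt.le, h1, h2, h3⟩

end Pool.Agent.H10.DG
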