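import Pool.Agent.H10.DG.Mom
import Pool.Agent.H10.DG.Kry
import Pool.Agent.H10.DG.Mate
import Pool.Agent.H10.DG.Level
import Pool.Agent.H10.DG.Pig
import Pool.Agent.H10.DG.Fac
import Pool.Agent.H10.DG.Win

/-!
# DG-R11: the deterministic reduction (interface I-R)

PROOF.  `gen_moments`, `span_krylov_rat` (with `hC`), `exists_mate`, `exists_level` give `Q` and
`l`.  It remains to bound `l` by `le_prod_primes` with `m = R * j`.
(1) Let `p ∣ l` be prime and suppose `z < p`; so `p ≠ 2`.  `U = UU Q p 1` is nonzero (`UU_ne_bot`)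
and `Ob p G U` (`UU_ob`).
 (a) `card V ^ 3 < p`: by `exists_eigvec` (with `A = adj (ZMod p) G`;
 `adj (KK p) G = A.map (algebraMap ..)`) there is an eigenvector `0 ≠ w ∈ KS p U`; `w ⬝ᵥ w = 0` by
 `KS_dot` and `∑ w = 0` by `KS_sum`: contradiction with `hL`.
 (b) `p ≤ card V ^ 3`: by `window` with `R = 1` (`hdeg` by `hD` and `KS_sum`) there is an invariant
 `U' ≤ U` with `1 ≤ finrank U' < 1 + d`, and `Ob p G U'`: contradiction with `hM`.
(2) Let `p ≤ z` be prime and suppose `p ^ (R * j) ∣ l`.  If `finrank (UU Q p 1) < R` then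
`dat_of_dvd` contradicts `hS`.  If `p = 2`: `UU_ob2` and `hP2`.  If `p ≠ 2` and
`R ≤ finrank (UU Q p 1)`: `window` (with this `R`; `hdeg` by `hD`, `p ≤ z ≤ card V ^ 3`, and
`KS_sum`) gives an invariant `U' ≤ UU Q p 1` with `R ≤ finrank U' < R + d`, `Ob p G U'`:
contradiction with `hM2`.
-/

set_option autoImplicit false

namespace Pool.Agent.H10.DG

open Matrix Classical Pool.Agent.H66.SP Pool.Agent.H95.SQ

theorem Ob.mono {p : ℕ} {V : Type*} [Fintype V] {G : SimpleGraph V}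
    {U U' : Submodule (ZMod p) (V → ZMod p)} (h : Ob p G U) (hU : U' ≤ U)
    (hA : ∀ x ∈ U', adj (ZMod p) G *ᵥ x ∈ U') : Ob p G U' :=
  ⟨hA, fun x hx y hy => h.2.1 x (hU hx) y (hU hy), fun x hx => h.2.2 x (hU hx)⟩

theorem main_adj_map (p : ℕ) [Fact p.Prime] {V : Type*} (G : SimpleGraph V) :
    (adj (ZMod p) G).map (algebraMap (ZMod p) (KK p)) = adj (KK p) G := by
  ext i j
  simp only [adj, Matrix.map_apply, Matrix.of_apply]
  split_ifs <;> simp

theorem red_main {V : Type*} [Fintype V] [DecidableEq V] (G H : SimpleGraph V) (z R j d : ℕ)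
    (hz2 : 2 ≤ z) (hz : z ≤ Fintype.card V ^ 3) (hj : 1 ≤ j) (hd : 1 ≤ d)
    (hC : ∀ (μ : ℂ) (x : V → ℂ), x ∈ eig (adj ℂ G) μ → ∑ v, x v = 0 → x = 0)
    (hL : ∀ (p : ℕ) [Fact p.Prime], Fintype.card V ^ 3 < p → ∀ (μ : KK p) (w : V → KK p),
      w ≠ 0 → adj (KK p) G *ᵥ w = μ • w → w ⬝ᵥ w = 0 → ∑ v, w v = 0 → False)
    (hD : ∀ (p : ℕ) [Fact p.Prime], p ≠ 2 → p ≤ Fintype.card V ^ 3 →
      ∀ (μ : KK p) (w : V → KK p), d ≤ dg p μ →
      w ≠ 0 → adj (KK p) G *ᵥ w = μ • w → ∑ v, w v = 0 → False)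
    (hM : ∀ (p : ℕ) [Fact p.Prime], z < p → p ≤ Fintype.card V ^ 3 →
      ∀ U : Submodule (ZMod p) (V → ZMod p), Ob p G U → 1 ≤ Module.finrank (ZMod p) U →
      Module.finrank (ZMod p) U ≤ d → False)
    (hM2 : ∀ (p : ℕ) [Fact p.Prime], p ≠ 2 → p ≤ z →
      ∀ U : Submodule (ZMod p) (V → ZMod p), Ob p G U → R ≤ Module.finrank (ZMod p) U →
      Module.finrank (ZMod p) U < R + d → False)
    (hP2 : ∀ U : Submodule (ZMod 2) (V → ZMod 2), Ob2 G U → Module.finrank (ZMod 2) U < R)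
    (hS : ∀ p : ℕ, p.Prime → p ≤ z → ∀ r, 1 ≤ r → r < R → ¬ Dat p r j G)
    (hGH : GenCo G H) :
    ∃ (Q : Matrix V V ℚ) (l : ℕ), IsMate G H Q ∧ IsLevel Q l ∧
      l ≤ ∏ p ∈ (Finset.range (z + 1)).filter Nat.Prime, p ^ (R * j) := by
  obtain ⟨Q, hQ⟩ := exists_mate G H (span_krylov_rat G hC) (gen_moments G H hGH)
  obtain ⟨l, hl⟩ := exists_level Q
  refine ⟨Q, l, hQ, hl, ?_⟩
  apply le_prod_primes hl.pos
  · intro p hp hpl
    by_contra hzp
    push Not at hzp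
    haveI : Fact p.Prime := ⟨hp⟩
    have hp2 : p ≠ 2 := by omega
    have hU : UU Q p 1 ≠ ⊥ := UU_ne_bot hl hp le_rfl (by rwa [pow_one])
    have hOb : Ob p G (UU Q p 1) := UU_ob hQ p le_rfl
    rcases lt_or_ge (Fintype.card V ^ 3) p with h | h
    · obtain ⟨μ, w, hw, hwU, hwe, -⟩ := exists_eigvec (adj (ZMod p) G) (UU Q p 1) hOb.1 hU
      rw [main_adj_map] at hwe
      exact hL p h μ w hw hwe (KS_dot _ hOb.2.1 w hwU w hwU) (KS_sum _ hOb.2.2 w hwU)
    · have h1 : 1 ≤ Module.finrank (ZMod p) (UU Q p 1) := by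
        rw [Nat.one_le_iff_ne_zero]
        intro h0
        exact hU (Submodule.finrank_eq_zero.mp h0)
      obtain ⟨U', hU', hA', hR1, hR2⟩ := window (adj (ZMod p) G) 1 d hd (UU Q p 1) hOb.1 h1 (by
        intro μ w hw hwU hwe
        rw [main_adj_map] at hwe
        by_contra hlt
        push Not at hlt
        exact hD p hp2 h μ w hlt hw hwe (KS_sum _ hOb.2.2 w hwU))
      exact hM p hzp h U' (hOb.mono hU' hA') hR1 (by omega)
  · intro p hp hpz hpl
    haveI : Fact p.Prime := ⟨hp⟩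
    by_cases hR : Module.finrank (ZMod p) (UU Q p 1) < R
    · obtain ⟨r, hr1, hr2, hdat⟩ := dat_of_dvd hQ hl hp hj hR hpl
      exact hS p hp hpz r hr1 hr2 hdat
    · push Not at hR
      by_cases hp2 : p = 2
      · subst hp2
        exact absurd (hP2 _ (UU_ob2 hQ)) (by omega)
      · have hOb : Ob p G (UU Q p 1) := UU_ob hQ p le_rfl
        obtain ⟨U', hU', hA', hR1, hR2⟩ := window (adj (ZMod p) G) R d hd (UU Q p 1) hOb.1 hR (by
          intro μ w hw hwU hwe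
          rw [main_adj_map] at hwe
          by_contra hlt
          push Not at hlt
          exact hD p hp2 (hpz.trans hz) μ w hlt hw hwe (KS_sum _ hOb.2.2 w hwU))
        exact hM2 p hp2 hpz U' (hOb.mono hU' hA') hR1 hR2

end Pool.Agent.H10.DG
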