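import Pool.Agent.H10.DG.Defs
import Pool.Agent.H10.DG.DetJ
import Pool.Agent.H66.SP.MomSp

/-!
# DG-R2: the generalized spectrum determines the number of walks of every length

PROOF.  Let `A = adj ℤ G`, `φ = A.charpoly = det (charmatrix A)` (monic, nonzero), `n = card V`.
(1) `adj ℤ Gᶜ = J - 1 - A`.  Apply the ring homomorphism `σ = Polynomial.compRingHom (-X - 1)` of
`ℤ[X]` entrywise to `charmatrix (adj ℤ Gᶜ)`: the result is `-(charmatrix A + J)`
(diagonal: `σ (X - 0) = -X - 1 = -((X - 0) + 1)`; off the diagonal, `i ≠ j`: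
`σ (- C (1 - A i j)) = -(1 - A i j) = -((-A i j) + 1)`).  So (`RingHom.map_det`, `Matrix.det_neg`)
`σ ((adj ℤ Gᶜ).charpoly) = (-1)^n * det (charmatrix A + J)`.
(2) By `det_add_ones` (`ℤ[X]` is a domain) `det (charmatrix A + J) = φ + ∑ i j, cadj G i j`,
where `cadj G = (charmatrix A).adjugate` (see `Pool/Agent/H66/SP/Adj1.lean`).
(3) The same for `H`; so `h` gives `∑ i j, cadj G i j = ∑ i j, cadj H i j` (cancel `(-1)^n`).
(4) Multiply by `X^(k+1)`, divide by the monic `φ` (`Polynomial.divByMonic` is additive in the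
first argument: `Polynomial.add_divByMonic`, or use `Polynomial.divModByMonicAux`/induction over
the finset), take the coefficient of `X^0` and use `momsp_coeff`.
-/

set_option autoImplicit false

namespace Pool.Agent.H10.DG

open Matrix Pool.Agent.H66.SP Pool.Agent.H95.SQ Polynomial

theorem Mom_add {p q r : ℤ[X]} (hq : q.Monic) : (p + r) /ₘ q = p /ₘ q + r /ₘ q := by
  have h1 := modByMonic_add_div p q
  have h2 := modByMonic_add_div r q
  have d1 := degree_modByMonic_lt p hq
  have d2 := degree_modByMonic_lt r hq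
  exact (div_modByMonic_unique (f := p + r) (p /ₘ q + r /ₘ q) (p %ₘ q + r %ₘ q) hq
    ⟨by linear_combination h1 + h2, lt_of_le_of_lt (degree_add_le _ _) (max_lt d1 d2)⟩).1

theorem Mom_adj_compl {V : Type*} [DecidableEq V] (G : SimpleGraph V) {i j : V} (h : i ≠ j) :
    adj ℤ Gᶜ i j = 1 - adj ℤ G i j := by
  unfold adj
  rw [Matrix.of_apply, Matrix.of_apply]
  by_cases h1 : G.Adj i j
  · rw [if_pos h1, if_neg (by rw [SimpleGraph.compl_adj]; exact fun h2 => h2.2 h1), sub_self]
  · rw [if_neg h1, if_pos (by rw [SimpleGraph.compl_adj]; exact ⟨h, h1⟩), sub_zero]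

theorem Mom_adj_diag {V : Type*} (G : SimpleGraph V) (i : V) : adj ℤ G i i = 0 := by
  unfold adj
  rw [Matrix.of_apply, if_neg (G.loopless.irrefl i)]

theorem Mom_comp {V : Type*} [Fintype V] [DecidableEq V] (G : SimpleGraph V) :
    compRingHom (-X - 1 : ℤ[X]) (adj ℤ Gᶜ).charpoly = (-1) ^ (Fintype.card V) *
      (charmatrix (adj ℤ G) + Matrix.of fun _ _ => (1 : ℤ[X])).det := by
  rw [← Matrix.det_neg, Matrix.charpoly, RingHom.map_det]
  congr 1
  refine Matrix.ext fun i j => ?_
  rw [RingHom.mapMatrix_apply, Matrix.map_apply, Matrix.neg_apply, Matrix.add_apply,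
    Matrix.of_apply, charmatrix_apply, charmatrix_apply, map_sub]
  by_cases h : i = j
  · subst h
    rw [Matrix.diagonal_apply_eq, Mom_adj_diag, Mom_adj_diag]
    simp
    ring
  · rw [Matrix.diagonal_apply_ne _ h, Mom_adj_compl G h]
    simp
    ring

theorem Mom_sum {V : Type*} [Fintype V] [DecidableEq V] (G H : SimpleGraph V)
    (h : GenCo G H) : ∑ i, ∑ j, cadj G i j = ∑ i, ∑ j, cadj H i j := by
  have h1 : (charmatrix (adj ℤ G) + Matrix.of fun _ _ => (1 : ℤ[X])).det =
      (charmatrix (adj ℤ H) + Matrix.of fun _ _ => (1 : ℤ[X])).det := by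
    have h2 := Mom_comp G
    rw [h.2, Mom_comp H] at h2
    exact (mul_left_cancel₀ (pow_ne_zero _ (by norm_num)) h2).symm
  rw [det_add_ones _ (Matrix.charpoly_monic (adj ℤ G)).ne_zero,
    det_add_ones _ (Matrix.charpoly_monic (adj ℤ H)).ne_zero] at h1
  have h3 : (charmatrix (adj ℤ G)).det = (charmatrix (adj ℤ H)).det := h.1
  rw [h3] at h1
  exact add_left_cancel h1

theorem Mom_div {ι : Type*} (s : Finset ι) (f : ι → ℤ[X]) {q : ℤ[X]} (hq : q.Monic) :
    (∑ i ∈ s, f i) /ₘ q = ∑ i ∈ s, (f i /ₘ q) := by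
  classical
  induction s using Finset.induction_on with
  | empty => simp
  | insert a s ha ih => rw [Finset.sum_insert ha, Finset.sum_insert ha, Mom_add hq, ih]

theorem gen_moments {V : Type*} [Fintype V] [DecidableEq V] (G H : SimpleGraph V)
    (h : GenCo G H) (k : ℕ) :
    ∑ i, ∑ j, (adj ℤ G ^ k) i j = ∑ i, ∑ j, (adj ℤ H ^ k) i j := by
  have key : ∀ F : SimpleGraph V, ∑ i, ∑ j, (adj ℤ F ^ k) i j =
      ((X ^ (k + 1) * ∑ i, ∑ j, cadj F i j) /ₘ (adj ℤ F).charpoly).coeff 0 := by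
    intro F
    have hm : (adj ℤ F).charpoly.Monic := Matrix.charpoly_monic _
    rw [Finset.mul_sum, Mom_div _ _ hm, finsetSum_coeff]
    refine Finset.sum_congr rfl fun i _ => ?_
    rw [Finset.mul_sum, Mom_div _ _ hm, finsetSum_coeff]
    exact Finset.sum_congr rfl fun j _ => (momsp_coeff F k i j).symm
  rw [key, key, Mom_sum G H h, h.1]

end Pool.Agent.H10.DG
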