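import Pool.Agent.H10.DG.Defs

/-!
# DG-P3: doubly even spaces are self orthogonal

PROOFS.
* `p2_self`: `nz (x + y) + 2 * m = nz x + nz y`, `m` the number of `v` with `x v ≠ 0`, `y v ≠ 0`
  (in `ZMod 2` that means both are `1`), so `m` is even, and `x ⬝ᵥ y = (m : ZMod 2) = 0`.
* `p2_half`: let `M` be the `d × V` matrix of a basis of `U`, `d = finrank U`.
  `M * Mᵀ = 0`, so the range of `Mᵀ.mulVecLin`, of dimension `rank Mᵀ = rank M = d`, is
  contained in the kernel of `M.mulVecLin`, of dimension `card V - d`.  (Or work with linear maps: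
  the map `(V → F) → (U → F)` dual, `x ↦ (y ↦ x ⬝ᵥ y)` is onto the dual of `U`, so its kernel has
  dimension `card V - d` and contains `U`.)
-/

set_option autoImplicit false

namespace Pool.Agent.H10.DG

open Matrix Classical Pool.Agent.H66.SP Pool.Agent.H95.SQ

theorem P2Self_nz {V : Type*} [Fintype V] (x : V → ZMod 2) : nz x = ∑ v, (x v).val := by
  unfold nz
  rw [Finset.card_filter]
  refine Finset.sum_congr rfl fun v _ => ?_
  have h : ∀ a : ZMod 2, (if a ≠ 0 then 1 else 0) = a.val := by decide
  have h2 := h (x v)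
  rw [← h2]
  split_ifs <;> rfl

theorem p2_self {V : Type*} [Fintype V] (x y : V → ZMod 2) (hx : 4 ∣ nz x) (hy : 4 ∣ nz y)
    (hxy : 4 ∣ nz (x + y)) : x ⬝ᵥ y = 0 := by
  have h1 : nz (x + y) + 2 * ∑ v, (x v).val * (y v).val = nz x + nz y := by
    rw [P2Self_nz, P2Self_nz, P2Self_nz, Finset.mul_sum, ← Finset.sum_add_distrib,
      ← Finset.sum_add_distrib]
    refine Finset.sum_congr rfl fun v _ => ?_
    have h : ∀ a b : ZMod 2, (a + b).val + 2 * (a.val * b.val) = a.val + b.val := by decide
    exact h (x v) (y v)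
  have h2 : x ⬝ᵥ y = ((∑ v, (x v).val * (y v).val : ℕ) : ZMod 2) := by
    unfold dotProduct
    push_cast
    refine Finset.sum_congr rfl fun v _ => ?_
    rw [ZMod.natCast_zmod_val, ZMod.natCast_zmod_val]
  rw [h2, ZMod.natCast_eq_zero_iff]
  omega

theorem p2_half {F : Type*} [Field F] {V : Type*} [Fintype V] [DecidableEq V]
    (U : Submodule F (V → F)) (h : ∀ x ∈ U, ∀ y ∈ U, x ⬝ᵥ y = 0) :
    2 * Module.finrank F U ≤ Fintype.card V := by
  let b := Module.finBasis F U
  let M : Matrix (Fin (Module.finrank F U)) V F := Matrix.of fun i v => (b i : V → F) v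
  have hli : LinearIndependent F M.row := by
    have h1 : LinearIndependent F (fun i => ((b i : U) : V → F)) :=
      b.linearIndependent.map' U.subtype (Submodule.ker_subtype U)
    exact h1
  have hrank : M.rank = Module.finrank F U := by
    have := hli.rank_matrix
    rwa [Fintype.card_fin] at this
  have hker : U ≤ LinearMap.ker M.mulVecLin := by
    intro x hx
    rw [LinearMap.mem_ker, Matrix.mulVecLin_apply]
    funext i
    exact h _ (b i).2 x hx
  have h2 := LinearMap.finrank_range_add_finrank_ker M.mulVecLin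
  rw [Module.finrank_fintype_fun_eq_card] at h2
  have h3 : Module.finrank F (LinearMap.range M.mulVecLin) = M.rank := rfl
  have h4 := Submodule.finrank_mono hker
  omega

end Pool.Agent.H10.DG
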