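import Pool.Agent.H10.DG.P2Wt
import Pool.Agent.H10.DG.P2Self

/-!
# DG-P4: number of bases of doubly even spaces

`bas V d`: independent `d`-tuples with doubly even span not containing the all ones vector;
`basE V d`: independent `(d+1)`-tuples with doubly even span and first vector the all ones vector.

PROOFS.  Let `n = card V`, `PP n d = ∏_{l<d} (2^n / 2^(l+2) + √2^n / 2)`.
* `p2_bas_le`: induction on `d`.  `bas V 0` has at most one element.  An element of
  `bas V (d+1)` is `Fin.snoc u x` with `u ∈ bas V d` (subfamily: `Fin.init`; the span of `u` is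
  contained in the span of `Fin.snoc u x`) and `x` a vector with `4 ∣ nz x` and `u a ⬝ᵥ x = 0`
  (`p2_self`: `u a`, `x`, `u a + x` are in the span).  By `p2_card_dbl` (with the all ones
  vector not in the span of `u`) the number of such `x` is at most
  `2^n / (4 * 2^d) + √2^n / 2`.  (`Finset.card_le_mul_card_image` or an injection into a sigma
  finset.)
* `p2_basE_le`: the same, starting with the tuple consisting of the all ones vector (`d = 0`: at
  most one element); here `u` has `d + 1` elements, its span contains the all ones vector, so the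
  number of `x` is at most `2 * 2^n / (4 * 2^(d+1)) + √2^n / 2 = 2^n / 2^(d+2) + √2^n / 2`.
* `p2_prod`: `2^n / 2^(l+2) + √2^n / 2 = (2^n / 2^(l+2)) (1 + 2^(l+1) / √2^n)` (as `√2^n * √2^n = 2^n`),
  and `∏ (1 + 2^(l+1)/√2^n) ≤ exp (∑_{l<d} 2^(l+1) / √2^n) ≤ exp (2^(d+1)/√2^n) ≤ exp 2 ≤ 8` as
  `2^d ≤ √2^n` (`2 d ≤ n`); `∏_{l<d} 2^(l+2) = 2^(d(d-1)/2 + 2d)` is stated as
  `2^(d.choose 2 + 2 * d)`.
-/

set_option autoImplicit false

namespace Pool.Agent.H10.DG

open Matrix Classical Pool.Agent.H66.SP Pool.Agent.H95.SQ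

/-- independent tuples with doubly even span not containing the all ones vector -/
noncomputable def bas (V : Type*) [Fintype V] (d : ℕ) : Finset (Fin d → V → ZMod 2) :=
  (Finset.univ : Finset (Fin d → V → ZMod 2)).filter (fun u =>
    LinearIndependent (ZMod 2) u ∧ (∀ x ∈ Submodule.span (ZMod 2) (Set.range u), 4 ∣ nz x) ∧
    (fun _ => (1 : ZMod 2)) ∉ Submodule.span (ZMod 2) (Set.range u))

/-- independent tuples with doubly even span starting with the all ones vector -/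
noncomputable def basE (V : Type*) [Fintype V] (d : ℕ) : Finset (Fin (d + 1) → V → ZMod 2) :=
  (Finset.univ : Finset (Fin (d + 1) → V → ZMod 2)).filter (fun u =>
    LinearIndependent (ZMod 2) u ∧ (∀ x ∈ Submodule.span (ZMod 2) (Set.range u), 4 ∣ nz x) ∧
    u 0 = fun _ => (1 : ZMod 2))

/-- the product in the counting of bases -/
noncomputable def PP (n d : ℕ) : ℝ :=
  ∏ l ∈ Finset.range d, ((2 : ℝ) ^ n / 2 ^ (l + 2) + (Real.sqrt 2) ^ n / 2)

theorem P2Bas_fib {V : Type*} [Fintype V] {l : ℕ}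
    (S : Finset (Fin (l + 1) → V → ZMod 2))
    (hS : ∀ w ∈ S, ∀ x ∈ Submodule.span (ZMod 2) (Set.range w), 4 ∣ nz x)
    (u : Fin l → V → ZMod 2) :
    (S.filter (fun w => (Fin.init w : Fin l → V → ZMod 2) = u)).card ≤
      ((Finset.univ : Finset (V → ZMod 2)).filter
        (fun x => (∀ a, u a ⬝ᵥ x = 0) ∧ 4 ∣ nz x)).card := by
  refine Finset.card_le_card_of_injOn (fun w => w (Fin.last l)) ?_ ?_
  · intro w hw
    obtain ⟨hw1, hw2⟩ := Finset.mem_filter.1 hw
    have h1 := hS w hw1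
    have hmem : ∀ i, w i ∈ Submodule.span (ZMod 2) (Set.range w) := fun i =>
      Submodule.subset_span ⟨i, rfl⟩
    rw [Finset.mem_coe, Finset.mem_filter]
    refine ⟨Finset.mem_univ _, fun a => ?_, h1 _ (hmem _)⟩
    have h2 : u a = w (Fin.castSucc a) := by
      rw [← hw2]
      rfl
    rw [h2]
    exact p2_self _ _ (h1 _ (hmem _)) (h1 _ (hmem _)) (h1 _ (Submodule.add_mem _ (hmem _) (hmem _)))
  · intro w hw w' hw' hww'
    have h1 := (Finset.mem_filter.1 hw).2
    have h2 := (Finset.mem_filter.1 hw').2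
    have h3 : w (Fin.last l) = w' (Fin.last l) := hww'
    rw [← Fin.snoc_init_self w, ← Fin.snoc_init_self w', h1, h2, h3]

theorem P2Bas_step {V : Type*} [Fintype V] {l : ℕ}
    (S : Finset (Fin (l + 1) → V → ZMod 2)) (T : Finset (Fin l → V → ZMod 2)) (C : ℝ)
    (hS : ∀ w ∈ S, ∀ x ∈ Submodule.span (ZMod 2) (Set.range w), 4 ∣ nz x)
    (hST : ∀ w ∈ S, (Fin.init w : Fin l → V → ZMod 2) ∈ T)
    (hC : ∀ u ∈ T, (((Finset.univ : Finset (V → ZMod 2)).filter
        (fun x => (∀ a, u a ⬝ᵥ x = 0) ∧ 4 ∣ nz x)).card : ℝ) ≤ C) :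
    (S.card : ℝ) ≤ T.card * C := by
  have h1 : S.card = ∑ u ∈ T, (S.filter (fun w => (Fin.init w : Fin l → V → ZMod 2) = u)).card :=
    Finset.card_eq_sum_card_fiberwise fun w hw => hST w hw
  rw [h1]
  push_cast
  rw [← nsmul_eq_mul, ← Finset.sum_const]
  refine Finset.sum_le_sum fun u hu => ?_
  refine le_trans ?_ (hC u hu)
  exact_mod_cast P2Bas_fib S hS u

theorem P2Bas_span {V : Type*} {l : ℕ} (w : Fin (l + 1) → V → ZMod 2) :
    Submodule.span (ZMod 2) (Set.range (Fin.init w : Fin l → V → ZMod 2)) ≤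
      Submodule.span (ZMod 2) (Set.range w) := by
  apply Submodule.span_mono
  rintro _ ⟨i, rfl⟩
  exact ⟨Fin.castSucc i, rfl⟩

theorem P2Bas_li {V : Type*} {l : ℕ} (w : Fin (l + 1) → V → ZMod 2)
    (hw : LinearIndependent (ZMod 2) w) :
    LinearIndependent (ZMod 2) (Fin.init w : Fin l → V → ZMod 2) :=
  hw.comp Fin.castSucc (Fin.castSucc_injective l)

theorem P2Bas_mem {V : Type*} [Fintype V] (d : ℕ) (u : Fin d → V → ZMod 2) : u ∈ bas V d ↔
    LinearIndependent (ZMod 2) u ∧ (∀ x ∈ Submodule.span (ZMod 2) (Set.range u), 4 ∣ nz x) ∧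
    (fun _ => (1 : ZMod 2)) ∉ Submodule.span (ZMod 2) (Set.range u) := by
  unfold bas
  rw [Finset.mem_filter]
  exact ⟨fun h => h.2, fun h => ⟨Finset.mem_univ _, h⟩⟩

theorem P2Bas_memE {V : Type*} [Fintype V] (d : ℕ) (u : Fin (d + 1) → V → ZMod 2) :
    u ∈ basE V d ↔
    LinearIndependent (ZMod 2) u ∧ (∀ x ∈ Submodule.span (ZMod 2) (Set.range u), 4 ∣ nz x) ∧
    u 0 = fun _ => (1 : ZMod 2) := by
  unfold basE
  rw [Finset.mem_filter]
  exact ⟨fun h => h.2, fun h => ⟨Finset.mem_univ _, h⟩⟩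

theorem P2Bas_dbl {V : Type*} [Fintype V] {l : ℕ} (u : Fin l → V → ZMod 2)
    (hu : LinearIndependent (ZMod 2) u) :
    4 * 2 ^ l * (((Finset.univ : Finset (V → ZMod 2)).filter
      (fun x => (∀ a, u a ⬝ᵥ x = 0) ∧ 4 ∣ nz x)).card : ℝ) ≤
    2 ^ Fintype.card V *
      (1 + if (fun _ => (1 : ZMod 2)) ∈ Submodule.span (ZMod 2) (Set.range u) then 1 else 0) +
    2 * 2 ^ l * (Real.sqrt 2) ^ Fintype.card V :=
  p2_card_dbl u hu

theorem p2_bas_le (V : Type*) [Fintype V] [DecidableEq V] (d : ℕ) :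
    ((bas V d).card : ℝ) ≤ PP (Fintype.card V) d := by
  induction d with
  | zero =>
    have h1 : (bas V 0).card ≤ 1 := by
      rw [Finset.card_le_one]
      intro a _ b _
      funext i
      exact i.elim0
    have h2 : PP (Fintype.card V) 0 = 1 := by
      unfold PP
      rw [Finset.range_zero, Finset.prod_empty]
    rw [h2]
    exact_mod_cast h1
  | succ d ih =>
    have h1 : PP (Fintype.card V) (d + 1) = PP (Fintype.card V) d *
        ((2 : ℝ) ^ Fintype.card V / 2 ^ (d + 2) + (Real.sqrt 2) ^ Fintype.card V / 2) := by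
      unfold PP
      rw [Finset.prod_range_succ]
    have hC0 : (0 : ℝ) ≤ (2 : ℝ) ^ Fintype.card V / 2 ^ (d + 2) +
        (Real.sqrt 2) ^ Fintype.card V / 2 := by positivity
    rw [h1]
    refine le_trans ?_ (mul_le_mul_of_nonneg_right ih hC0)
    refine P2Bas_step (bas V (d + 1)) (bas V d) _ ?_ ?_ ?_
    · intro w hw
      exact ((P2Bas_mem _ _).1 hw).2.1
    · intro w hw
      obtain ⟨a1, a2, a3⟩ := (P2Bas_mem _ _).1 hw
      refine (P2Bas_mem _ _).2 ⟨P2Bas_li w a1, fun x hx => ?_, fun hx => ?_⟩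
      · exact a2 x (P2Bas_span w hx)
      · exact a3 (P2Bas_span w hx)
    · intro u hu
      obtain ⟨a1, a2, a3⟩ := (P2Bas_mem _ _).1 hu
      have h2 := P2Bas_dbl u a1
      rw [if_neg a3, add_zero, mul_one] at h2
      have h3 : (0 : ℝ) < 4 * 2 ^ d := by positivity
      refine le_of_mul_le_mul_left ?_ h3
      refine h2.trans (le_of_eq ?_)
      rw [pow_add 2 d 2]
      field_simp
      ring

theorem p2_basE_le (V : Type*) [Fintype V] [DecidableEq V] (d : ℕ) :
    ((basE V d).card : ℝ) ≤ PP (Fintype.card V) d := by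
  induction d with
  | zero =>
    have h1 : (basE V 0).card ≤ 1 := by
      rw [Finset.card_le_one]
      intro a ha b hb
      have ha' := ((P2Bas_memE _ _).1 ha).2.2
      have hb' := ((P2Bas_memE _ _).1 hb).2.2
      funext i
      have hi : i = 0 := Fin.ext (by omega)
      rw [hi, ha', hb']
    have h2 : PP (Fintype.card V) 0 = 1 := by
      unfold PP
      rw [Finset.range_zero, Finset.prod_empty]
    rw [h2]
    exact_mod_cast h1
  | succ d ih =>
    have h1 : PP (Fintype.card V) (d + 1) = PP (Fintype.card V) d *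
        ((2 : ℝ) ^ Fintype.card V / 2 ^ (d + 2) + (Real.sqrt 2) ^ Fintype.card V / 2) := by
      unfold PP
      rw [Finset.prod_range_succ]
    have hC0 : (0 : ℝ) ≤ (2 : ℝ) ^ Fintype.card V / 2 ^ (d + 2) +
        (Real.sqrt 2) ^ Fintype.card V / 2 := by positivity
    rw [h1]
    refine le_trans ?_ (mul_le_mul_of_nonneg_right ih hC0)
    refine P2Bas_step (basE V (d + 1)) (basE V d) _ ?_ ?_ ?_
    · intro w hw
      exact ((P2Bas_memE _ _).1 hw).2.1
    · intro w hw
      obtain ⟨a1, a2, a3⟩ := (P2Bas_memE _ _).1 hw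
      refine (P2Bas_memE _ _).2 ⟨P2Bas_li w a1, fun x hx => ?_, ?_⟩
      · exact a2 x (P2Bas_span w hx)
      · rw [← a3]
        rfl
    · intro u hu
      obtain ⟨a1, a2, a3⟩ := (P2Bas_memE _ _).1 hu
      have h2 := P2Bas_dbl u a1
      have a4 : (fun _ => (1 : ZMod 2)) ∈ Submodule.span (ZMod 2) (Set.range u) := by
        rw [← a3]
        exact Submodule.subset_span ⟨0, rfl⟩
      rw [if_pos a4] at h2
      have h3 : (0 : ℝ) < 4 * 2 ^ (d + 1) := by positivity
      refine le_of_mul_le_mul_left ?_ h3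
      refine h2.trans (le_of_eq ?_)
      rw [pow_add 2 d 1, pow_add 2 d 2]
      field_simp
      ring

theorem P2Bas_sq (n : ℕ) : (Real.sqrt 2) ^ n * (Real.sqrt 2) ^ n = 2 ^ n := by
  rw [← mul_pow, Real.mul_self_sqrt (by norm_num)]

theorem P2Bas_prod (n d : ℕ) : PP n d * 2 ^ (d.choose 2 + 2 * d) =
    2 ^ (n * d) * ∏ l ∈ Finset.range d, (1 + (2 : ℝ) ^ (l + 1) / (Real.sqrt 2) ^ n) := by
  induction d with
  | zero => simp [PP]
  | succ d ih =>
    have hs : (0 : ℝ) < (Real.sqrt 2) ^ n := by positivity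
    have hsq := P2Bas_sq n
    have h1 : PP n (d + 1) = PP n d * ((2 : ℝ) ^ n / 2 ^ (d + 2) + (Real.sqrt 2) ^ n / 2) := by
      unfold PP
      rw [Finset.prod_range_succ]
    have h2 : (d + 1).choose 2 + 2 * (d + 1) = (d.choose 2 + 2 * d) + (d + 2) := by
      rw [Nat.choose_succ_succ' d 1, Nat.choose_one_right]
      ring
    have h3 : ((2 : ℝ) ^ n / 2 ^ (d + 2) + (Real.sqrt 2) ^ n / 2) * 2 ^ (d + 2) =
        2 ^ n * (1 + (2 : ℝ) ^ (d + 1) / (Real.sqrt 2) ^ n) := by
      rw [← hsq, pow_add 2 d 2, pow_add 2 d 1]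
      field_simp
    rw [h1, h2, pow_add 2 (d.choose 2 + 2 * d) (d + 2), Finset.prod_range_succ]
    calc PP n d * ((2 : ℝ) ^ n / 2 ^ (d + 2) + (Real.sqrt 2) ^ n / 2) *
          (2 ^ (d.choose 2 + 2 * d) * 2 ^ (d + 2)) =
        (PP n d * 2 ^ (d.choose 2 + 2 * d)) *
          (((2 : ℝ) ^ n / 2 ^ (d + 2) + (Real.sqrt 2) ^ n / 2) * 2 ^ (d + 2)) := by ring
      _ = _ := by
        rw [ih, h3, Nat.mul_succ, pow_add 2 (n * d) n]
        ring

theorem P2Bas_geo (d : ℕ) : ∑ l ∈ Finset.range d, (2 : ℝ) ^ (l + 1) ≤ 2 ^ (d + 1) := by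
  have h : ∑ l ∈ Finset.range d, (2 : ℝ) ^ (l + 1) = 2 ^ (d + 1) - 2 := by
    induction d with
    | zero => simp
    | succ d ih =>
      rw [Finset.sum_range_succ, ih]
      ring
  rw [h]
  linarith

theorem p2_prod (n d : ℕ) (h : 2 * d ≤ n) :
    PP n d * 2 ^ (d.choose 2 + 2 * d) ≤ 8 * 2 ^ (n * d) := by
  rw [P2Bas_prod, mul_comm (8 : ℝ)]
  refine mul_le_mul_of_nonneg_left ?_ (by positivity)
  set s : ℝ := (Real.sqrt 2) ^ n with hs
  have hs0 : 0 < s := by positivity
  have hds : (2 : ℝ) ^ d ≤ s := by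
    have h1 : (1 : ℝ) ≤ Real.sqrt 2 := by
      rw [Real.one_le_sqrt]
      norm_num
    calc (2 : ℝ) ^ d = (Real.sqrt 2) ^ (2 * d) := by
          rw [pow_mul, Real.sq_sqrt (by norm_num)]
      _ ≤ s := pow_le_pow_right₀ h1 h
  have h1 : ∏ l ∈ Finset.range d, (1 + (2 : ℝ) ^ (l + 1) / s) ≤
      ∏ l ∈ Finset.range d, Real.exp ((2 : ℝ) ^ (l + 1) / s) := by
    refine Finset.prod_le_prod (fun l _ => by positivity) fun l _ => ?_
    have := Real.add_one_le_exp ((2 : ℝ) ^ (l + 1) / s)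
    linarith
  refine h1.trans ?_
  rw [← Real.exp_sum, ← Finset.sum_div]
  have h2 : (∑ l ∈ Finset.range d, (2 : ℝ) ^ (l + 1)) / s ≤ 2 := by
    rw [div_le_iff₀ hs0]
    refine (P2Bas_geo d).trans ?_
    rw [pow_succ]
    linarith
  have h3 := Real.exp_le_exp.2 h2
  refine h3.trans ?_
  have h4 : Real.exp 2 = Real.exp 1 * Real.exp 1 := by
    rw [← Real.exp_add]
    norm_num
  have h5 := Real.exp_one_lt_d9
  have h6 := Real.exp_pos 1
  rw [h4]
  nlinarith

end Pool.Agent.H10.DG
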