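import Pool.Agent.H10.DG.Defs

/-!
# DG-P5: number of bases of a space over the field with two elements

PROOFS.
* `p2_gl`: `∏_{i<d} (2^d - 2^i) * 4 ≥ 2^(d*d)`: `∏_{i<d} (2^d - 2^i) = 2^(d*d) ∏_{j=1}^d (1 - 2^(-j))`
  and by induction `∏_{j=1}^d (1 - 2^(-j)) ≥ 1/4 + 2^(-d-1)` for `d ≥ 1`
  (`(1/4 + 2^(-d-1)) (1 - 2^(-d-1)) ≥ 1/4 + 2^(-d-2)`).
* `p2_bases`: the number of independent `d`-tuples in `U` (`d = finrank U`) is
  `∏_{i<d} (2^d - 2^i)` (`card_linearIndependent` of Mathlib, applied to `U`; the map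
  `U`-valued tuples to `(V → ZMod 2)`-valued tuples is injective and preserves independence); an
  independent `d`-tuple in `U` spans `U`.
* `p2_basesE`: the number of the `k`-tuples `u` in `U` such that `Fin.cons e u` is independent is
  `∏_{i=1}^k (2^d - 2^i)`, for `k < d` (induction on `k`: the next vector is any vector of `U`
  outside of the span of the previous `k + 1` vectors, which has `2^(k+1)` elements), and
  `∏_{i=1}^(d-1) (2^d - 2^i) = ∏_{i<d} (2^d - 2^i) / (2^d - 1) ≥ 2^(d*d) / 4 / 2^d`.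
  (Alternatively: the number of bases with first vector `e` is the same for all nonzero
  `e ∈ U`, as the linear automorphisms of `U` act transitively, so it is at least the number of
  all bases divided by `2^d`.)
-/

set_option autoImplicit false

namespace Pool.Agent.H10.DG

open Matrix Classical Pool.Agent.H66.SP Pool.Agent.H95.SQ

theorem P2Gl_step (d : ℕ) : ∏ i ∈ Finset.range (d + 1), (2 ^ (d + 1) - 2 ^ i) =
    (2 ^ (d + 1) - 1) * (2 ^ d * ∏ i ∈ Finset.range d, (2 ^ d - 2 ^ i)) := by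
  rw [Finset.prod_range_succ', pow_zero, mul_comm]
  congr 1
  have h1 : ∀ i ∈ Finset.range d, (2 ^ (d + 1) - 2 ^ (i + 1)) = 2 * (2 ^ d - 2 ^ i) := by
    intro i _
    rw [pow_succ, pow_succ, ← Nat.sub_mul, mul_comm]
  rw [Finset.prod_congr rfl h1, Finset.prod_mul_distrib, Finset.prod_const, Finset.card_range]

theorem P2Gl_aux (d : ℕ) : 2 ^ ((d + 1) * (d + 1)) * (2 ^ (d + 1) + 2) ≤
    4 * (2 ^ (d + 1) * ∏ i ∈ Finset.range (d + 1), (2 ^ (d + 1) - 2 ^ i)) := by
  induction d with
  | zero => simp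
  | succ d ih =>
    rw [P2Gl_step (d + 1)]
    set P : ℕ := ∏ i ∈ Finset.range (d + 1), (2 ^ (d + 1) - 2 ^ i) with hP
    set a : ℕ := 2 ^ (d + 1) with ha
    have ha2 : 2 ≤ a := by
      rw [ha, pow_succ]
      have := Nat.one_le_two_pow (n := d)
      omega
    have e1 : (2 : ℕ) ^ (d + 1 + 1) = 2 * a := by rw [ha, pow_succ]; ring
    have e2 : (2 : ℕ) ^ ((d + 1 + 1) * (d + 1 + 1)) = 2 ^ ((d + 1) * (d + 1)) * (2 * (a * a)) := by
      have e3 : 2 * (a * a) = 2 ^ (2 * (d + 1) + 1) := by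
        rw [ha, pow_succ, two_mul, pow_add]; ring
      rw [e3, ← pow_add]
      congr 1
      ring
    rw [e1, e2]
    obtain ⟨b, hb⟩ : ∃ b, 2 * a - 1 = b := ⟨_, rfl⟩
    have hb' : b + 1 = 2 * a := by omega
    rw [hb]
    have h1 : 2 * (a * a) * (2 * a + 2) ≤ (a + 2) * (b * (2 * a)) := by
      have h2 : a * (2 * a + 2) ≤ (a + 2) * b := by nlinarith
      calc 2 * (a * a) * (2 * a + 2) = (2 * a) * (a * (2 * a + 2)) := by ring
        _ ≤ (2 * a) * ((a + 2) * b) := Nat.mul_le_mul_left _ h2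
        _ = _ := by ring
    calc 2 ^ ((d + 1) * (d + 1)) * (2 * (a * a)) * (2 * a + 2) =
        2 ^ ((d + 1) * (d + 1)) * (2 * (a * a) * (2 * a + 2)) := by ring
      _ ≤ 2 ^ ((d + 1) * (d + 1)) * ((a + 2) * (b * (2 * a))) := Nat.mul_le_mul_left _ h1
      _ = (2 ^ ((d + 1) * (d + 1)) * (a + 2)) * (b * (2 * a)) := by ring
      _ ≤ (4 * (a * P)) * (b * (2 * a)) := Nat.mul_le_mul_right _ ih
      _ = 4 * (2 * a * (b * (a * P))) := by ring

theorem p2_gl (d : ℕ) : 2 ^ (d * d) ≤ 4 * ∏ i ∈ Finset.range d, (2 ^ d - 2 ^ i) := by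
  cases d with
  | zero => simp
  | succ d =>
    have h1 := P2Gl_aux d
    have h2 : 2 ^ ((d + 1) * (d + 1)) * 2 ^ (d + 1) ≤
        (4 * ∏ i ∈ Finset.range (d + 1), (2 ^ (d + 1) - 2 ^ i)) * 2 ^ (d + 1) := by
      calc 2 ^ ((d + 1) * (d + 1)) * 2 ^ (d + 1) ≤
          2 ^ ((d + 1) * (d + 1)) * (2 ^ (d + 1) + 2) := Nat.mul_le_mul_left _ (by omega)
        _ ≤ _ := h1
        _ = _ := by ring
    exact Nat.le_of_mul_le_mul_right h2 (by positivity)

theorem P2Gl_card {V : Type*} [Fintype V] [DecidableEq V]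
    (U : Submodule (ZMod 2) (V → ZMod 2)) (d : ℕ) (hd : Module.finrank (ZMod 2) U = d) :
    Nat.card {s : Fin d → U // LinearIndependent (ZMod 2) s} =
      ∏ i ∈ Finset.range d, (2 ^ d - 2 ^ i) := by
  have h := card_linearIndependent (K := ZMod 2) (V := U) (k := d) hd.ge
  rw [h, hd, ZMod.card, Finset.prod_range]

theorem P2Gl_span {V : Type*} [Fintype V] [DecidableEq V]
    (U : Submodule (ZMod 2) (V → ZMod 2)) (d : ℕ) (hd : Module.finrank (ZMod 2) U = d)
    (s : Fin d → U) (hs : LinearIndependent (ZMod 2) s) :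
    LinearIndependent (ZMod 2) (fun i => ((s i : U) : V → ZMod 2)) ∧
    Submodule.span (ZMod 2) (Set.range (fun i => ((s i : U) : V → ZMod 2))) = U := by
  refine ⟨hs.map' U.subtype (Submodule.ker_subtype U), ?_⟩
  have h1 : Submodule.span (ZMod 2) (Set.range s) = ⊤ :=
    hs.span_eq_top_of_card_eq_finrank' (by rw [Fintype.card_fin, hd])
  have h2 : Set.range (fun i => ((s i : U) : V → ZMod 2)) = U.subtype '' Set.range s := by
    rw [← Set.range_comp]
    rfl
  rw [h2, Submodule.span_image, h1, Submodule.map_top, Submodule.range_subtype]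

theorem p2_bases {V : Type*} [Fintype V] [DecidableEq V] (U : Submodule (ZMod 2) (V → ZMod 2))
    (d : ℕ) (hd : Module.finrank (ZMod 2) U = d) :
    2 ^ (d * d) ≤ 4 * ((Finset.univ : Finset (Fin d → V → ZMod 2)).filter (fun u =>
      LinearIndependent (ZMod 2) u ∧ Submodule.span (ZMod 2) (Set.range u) = U)).card := by
  refine (p2_gl d).trans (Nat.mul_le_mul_left _ ?_)
  rw [← P2Gl_card U d hd]
  have : Fintype {s : Fin d → U // LinearIndependent (ZMod 2) s} := Fintype.ofFinite _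
  rw [Nat.card_eq_fintype_card, ← Finset.card_univ]
  refine Finset.card_le_card_of_injOn (fun s i => ((s.1 i : U) : V → ZMod 2)) ?_ ?_
  · intro s _
    rw [Finset.mem_coe, Finset.mem_filter]
    exact ⟨Finset.mem_univ _, P2Gl_span U d hd s.1 s.2⟩
  · intro s _ t _ hst
    apply Subtype.ext
    funext i
    exact Subtype.ext (congrFun hst i)

theorem P2Gl_trans {E : Type*} [AddCommGroup E] [Module (ZMod 2) E] [Module.Finite (ZMod 2) E]
    (e1 e2 : E) (h1 : e1 ≠ 0) (h2 : e2 ≠ 0) : ∃ g : E ≃ₗ[ZMod 2] E, g e1 = e2 := by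
  obtain ⟨g, hg⟩ := Submodule.exists_linearEquiv_restrict_eq
    ((LinearEquiv.toSpanNonzeroSingleton (ZMod 2) E e1 h1).symm ≪≫ₗ
      LinearEquiv.toSpanNonzeroSingleton (ZMod 2) E e2 h2)
  refine ⟨g, ?_⟩
  have := hg (LinearEquiv.toSpanNonzeroSingleton (ZMod 2) E e1 h1 1)
  rw [LinearEquiv.trans_apply, LinearEquiv.symm_apply_apply,
    LinearEquiv.toSpanNonzeroSingleton_apply, LinearEquiv.toSpanNonzeroSingleton_apply] at this
  simpa using this.symm

theorem p2_basesE {V : Type*} [Fintype V] [DecidableEq V] (U : Submodule (ZMod 2) (V → ZMod 2))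
    (d : ℕ) (hd : Module.finrank (ZMod 2) U = d + 1) (e : V → ZMod 2) (he : e ∈ U)
    (he0 : e ≠ 0) :
    2 ^ ((d + 1) * d) ≤ 4 * ((Finset.univ : Finset (Fin (d + 1) → V → ZMod 2)).filter (fun u =>
      LinearIndependent (ZMod 2) u ∧ Submodule.span (ZMod 2) (Set.range u) = U ∧ u 0 = e)).card := by
  have : Fintype {s : Fin (d + 1) → U // LinearIndependent (ZMod 2) s} := Fintype.ofFinite _
  have : Fintype U := Fintype.ofFinite _
  set B : U → Finset {s : Fin (d + 1) → U // LinearIndependent (ZMod 2) s} :=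
    fun e1 => Finset.univ.filter (fun s => s.1 0 = e1) with hB
  set e' : U := ⟨e, he⟩ with he'
  have he'0 : e' ≠ 0 := by
    intro h
    exact he0 (congrArg Subtype.val h)
  have h1 : Fintype.card {s : Fin (d + 1) → U // LinearIndependent (ZMod 2) s} =
      ∑ e1 : U, (B e1).card := by
    rw [← Finset.card_univ]
    exact Finset.card_eq_sum_card_fiberwise
      (f := fun s : {s : Fin (d + 1) → U // LinearIndependent (ZMod 2) s} => s.1 0)
      (fun s _ => Finset.mem_coe.2 (Finset.mem_univ _))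
  have h2 : ∀ e1 : U, (B e1).card ≤ (B e').card := by
    intro e1
    by_cases h0 : e1 = 0
    · have : B e1 = ∅ := by
        rw [hB]
        refine Finset.filter_eq_empty_iff.2 fun s _ hs => ?_
        exact s.2.ne_zero 0 (hs.trans h0)
      rw [this, Finset.card_empty]
      exact Nat.zero_le _
    · obtain ⟨g, hg⟩ := P2Gl_trans e1 e' h0 he'0
      refine Finset.card_le_card_of_injOn (fun s => ⟨fun i => g (s.1 i),
        s.2.map' g.toLinearMap g.ker⟩) ?_ ?_
      · intro s hs
        have hs' : s.1 0 = e1 := (Finset.mem_filter.1 hs).2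
        rw [Finset.mem_coe, Finset.mem_filter]
        refine ⟨Finset.mem_univ _, ?_⟩
        show g (s.1 0) = e'
        rw [hs', hg]
      · intro s _ t _ hst
        apply Subtype.ext
        funext i
        have := congrFun (congrArg Subtype.val hst) i
        exact g.injective this
  have h3 : Fintype.card {s : Fin (d + 1) → U // LinearIndependent (ZMod 2) s} ≤
      2 ^ (d + 1) * (B e').card := by
    rw [h1]
    refine (Finset.sum_le_sum fun e1 _ => h2 e1).trans ?_
    rw [Finset.sum_const, Finset.card_univ, smul_eq_mul,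
      Module.card_eq_pow_finrank (K := ZMod 2) (V := U), hd, ZMod.card]
  have h4 : (B e').card ≤ ((Finset.univ : Finset (Fin (d + 1) → V → ZMod 2)).filter (fun u =>
      LinearIndependent (ZMod 2) u ∧ Submodule.span (ZMod 2) (Set.range u) = U ∧
        u 0 = e)).card := by
    refine Finset.card_le_card_of_injOn (fun s i => ((s.1 i : U) : V → ZMod 2)) ?_ ?_
    · intro s hs
      have hs' : s.1 0 = e' := (Finset.mem_filter.1 hs).2
      rw [Finset.mem_coe, Finset.mem_filter]
      have h5 := P2Gl_span U (d + 1) hd s.1 s.2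
      refine ⟨Finset.mem_univ _, h5.1, h5.2, ?_⟩
      show ((s.1 0 : U) : V → ZMod 2) = e
      rw [hs']
    · intro s _ t _ hst
      apply Subtype.ext
      funext i
      exact Subtype.ext (congrFun hst i)
  have h5 := p2_gl (d + 1)
  rw [← P2Gl_card U (d + 1) hd, Nat.card_eq_fintype_card] at h5
  have h6 : 2 ^ ((d + 1) * d) * 2 ^ (d + 1) ≤ (4 * (B e').card) * 2 ^ (d + 1) := by
    calc 2 ^ ((d + 1) * d) * 2 ^ (d + 1) = 2 ^ ((d + 1) * (d + 1)) := by
          rw [← pow_add]; congr 1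
      _ ≤ 4 * Fintype.card {s : Fin (d + 1) → U // LinearIndependent (ZMod 2) s} := h5
      _ ≤ 4 * (2 ^ (d + 1) * (B e').card) := Nat.mul_le_mul_left _ h3
      _ = _ := by ring
  have h7 := Nat.le_of_mul_le_mul_right h6 (by positivity)
  exact h7.trans (Nat.mul_le_mul_left _ h4)

end Pool.Agent.H10.DG
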