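import Pool.Agent.H10.DG.P2Sol
import Pool.Agent.H10.DG.P2Bas
import Pool.Agent.H10.DG.P2Gl

/-!
# DG-P6: double counting of (graph, basis)

PROOFS.  (1) `p2_cnt`: every `G` of the set (call it `𝒢`) has a `U`; by `p2_bases` it has at
least `2^(d*d) / 4` tuples `u ∈ bas V d` such that the span of `u` is invariant, i.e. there is
`θ : Fin d → Fin d → ZMod 2` with `adj (ZMod 2) G *ᵥ u a = ∑ b, θ a b • u b` for all `a`
(`Submodule.mem_span_range_iff_exists_fun`).  So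
`|𝒢| 2^(d*d) ≤ 4 ∑_{u ∈ bas V d} ∑_θ #{G | ∀ a, adj (ZMod 2) G *ᵥ u a = ∑ b, θ a b • u b}
 ≤ 4 |bas V d| 2^(d*d) 2^((n-d).choose 2)` by `p2_card_sol`; cancel `2^(d*d)`.
(2) `p2_cntE`: the same with `p2_basesE` (the all ones vector is not `0`: `V` is nonempty because
`finrank U = d + 1 > 0`): `|𝒢| 2^((d+1) d) ≤ 4 |basE V d| 2^((d+1)(d+1)) 2^((n-d-1).choose 2)`.
-/

set_option autoImplicit false

namespace Pool.Agent.H10.DG

open Matrix Classical Pool.Agent.H66.SP Pool.Agent.H95.SQ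

theorem p2cnt_mem_bas {V : Type*} [Fintype V] {d : ℕ} (u : Fin d → V → ZMod 2) :
    u ∈ bas V d ↔
      LinearIndependent (ZMod 2) u ∧ (∀ x ∈ Submodule.span (ZMod 2) (Set.range u), 4 ∣ nz x) ∧
      (fun _ => (1 : ZMod 2)) ∉ Submodule.span (ZMod 2) (Set.range u) := by
  unfold bas
  simp only [Finset.mem_filter, Finset.mem_univ, true_and]

theorem p2cnt_mem_basE {V : Type*} [Fintype V] {d : ℕ} (u : Fin (d + 1) → V → ZMod 2) :
    u ∈ basE V d ↔
      LinearIndependent (ZMod 2) u ∧ (∀ x ∈ Submodule.span (ZMod 2) (Set.range u), 4 ∣ nz x) ∧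
      u 0 = fun _ => (1 : ZMod 2) := by
  unfold basE
  simp only [Finset.mem_filter, Finset.mem_univ, true_and]

theorem p2cnt_gen {V : Type*} [Fintype V] [DecidableEq V] (m K : ℕ)
    (𝒢 : Finset (SimpleGraph V)) (ℬ : Finset (Fin m → V → ZMod 2))
    (hℬ : ∀ u ∈ ℬ, LinearIndependent (ZMod 2) u)
    (h𝒢 : ∀ G ∈ 𝒢, K ≤ 4 * (ℬ.filter (fun u => ∃ θ : Fin m → Fin m → ZMod 2,
      ∀ a, adj (ZMod 2) G *ᵥ u a = ∑ b, θ a b • u b)).card) :
    𝒢.card * K ≤ 4 * (ℬ.card * 2 ^ (m * m) * 2 ^ ((Fintype.card V - m).choose 2)) := by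
  have h1 : 𝒢.card * K ≤ ∑ G ∈ 𝒢, 4 * (ℬ.filter (fun u => ∃ θ : Fin m → Fin m → ZMod 2,
      ∀ a, adj (ZMod 2) G *ᵥ u a = ∑ b, θ a b • u b)).card := by
    rw [← smul_eq_mul, ← Finset.sum_const]
    exact Finset.sum_le_sum h𝒢
  refine h1.trans ?_
  rw [← Finset.mul_sum]
  refine Nat.mul_le_mul_left _ ?_
  have h2 : ∑ G ∈ 𝒢, (ℬ.filter (fun u => ∃ θ : Fin m → Fin m → ZMod 2,
      ∀ a, adj (ZMod 2) G *ᵥ u a = ∑ b, θ a b • u b)).card =
      ∑ u ∈ ℬ, (𝒢.filter (fun G => ∃ θ : Fin m → Fin m → ZMod 2,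
        ∀ a, adj (ZMod 2) G *ᵥ u a = ∑ b, θ a b • u b)).card := by
    simp only [Finset.card_filter]
    rw [Finset.sum_comm]
  rw [h2]
  have h3 : ∀ u ∈ ℬ, (𝒢.filter (fun G => ∃ θ : Fin m → Fin m → ZMod 2,
        ∀ a, adj (ZMod 2) G *ᵥ u a = ∑ b, θ a b • u b)).card ≤
      2 ^ (m * m) * 2 ^ ((Fintype.card V - m).choose 2) := by
    intro u hu
    have hsub : 𝒢.filter (fun G => ∃ θ : Fin m → Fin m → ZMod 2,
        ∀ a, adj (ZMod 2) G *ᵥ u a = ∑ b, θ a b • u b) ⊆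
        (Finset.univ : Finset (Fin m → Fin m → ZMod 2)).biUnion (fun θ =>
          (Finset.univ : Finset (SimpleGraph V)).filter
            (fun G => ∀ a, adj (ZMod 2) G *ᵥ u a = ∑ b, θ a b • u b)) := by
      intro G hG
      rw [Finset.mem_filter] at hG
      obtain ⟨-, θ, hθ⟩ := hG
      rw [Finset.mem_biUnion]
      refine ⟨θ, Finset.mem_univ _, ?_⟩
      rw [Finset.mem_filter]
      exact ⟨Finset.mem_univ _, hθ⟩
    refine (Finset.card_le_card hsub).trans (Finset.card_biUnion_le.trans ?_)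
    refine (Finset.sum_le_sum fun θ _ =>
      p2_card_sol u (fun a => ∑ b, θ a b • u b) (hℬ u hu)).trans (le_of_eq ?_)
    rw [Finset.sum_const, Finset.card_univ, smul_eq_mul]
    have h4 : Fintype.card (Fin m → Fin m → ZMod 2) = 2 ^ (m * m) := by
      rw [Fintype.card_fun, Fintype.card_fun, ZMod.card, Fintype.card_fin, pow_mul]
    rw [h4]
  refine (Finset.sum_le_sum h3).trans (le_of_eq ?_)
  rw [Finset.sum_const, smul_eq_mul, mul_assoc]

theorem p2cnt_theta {V : Type*} [Fintype V] [DecidableEq V] {m : ℕ} (G : SimpleGraph V)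
    (u : Fin m → V → ZMod 2) (U : Submodule (ZMod 2) (V → ZMod 2))
    (hu : Submodule.span (ZMod 2) (Set.range u) = U) (hU : ∀ x ∈ U, adj (ZMod 2) G *ᵥ x ∈ U) :
    ∃ θ : Fin m → Fin m → ZMod 2, ∀ a, adj (ZMod 2) G *ᵥ u a = ∑ b, θ a b • u b := by
  have h1 : ∀ a, ∃ c : Fin m → ZMod 2, ∑ b, c b • u b = adj (ZMod 2) G *ᵥ u a := by
    intro a
    have h2 : adj (ZMod 2) G *ᵥ u a ∈ Submodule.span (ZMod 2) (Set.range u) := by
      rw [hu]
      refine hU _ ?_
      rw [← hu]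
      exact Submodule.subset_span ⟨a, rfl⟩
    exact (Submodule.mem_span_range_iff_exists_fun (ZMod 2)).1 h2
  choose θ hθ using h1
  exact ⟨θ, fun a => (hθ a).symm⟩

theorem p2_cnt (V : Type*) [Fintype V] [DecidableEq V] (d : ℕ) :
    ((Finset.univ : Finset (SimpleGraph V)).filter (fun G =>
      ∃ U : Submodule (ZMod 2) (V → ZMod 2), Ob2 G U ∧ Module.finrank (ZMod 2) U = d ∧
        (fun _ => (1 : ZMod 2)) ∉ U)).card ≤
    4 * (bas V d).card * 2 ^ ((Fintype.card V - d).choose 2) := by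
  have h := p2cnt_gen d (2 ^ (d * d))
    ((Finset.univ : Finset (SimpleGraph V)).filter (fun G =>
      ∃ U : Submodule (ZMod 2) (V → ZMod 2), Ob2 G U ∧ Module.finrank (ZMod 2) U = d ∧
        (fun _ => (1 : ZMod 2)) ∉ U)) (bas V d) (by
      intro u hu
      exact ((p2cnt_mem_bas u).1 hu).1) (by
      intro G hG
      rw [Finset.mem_filter] at hG
      obtain ⟨-, U, hU, hd, h1⟩ := hG
      refine (p2_bases U d hd).trans (Nat.mul_le_mul_left _ (Finset.card_le_card ?_))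
      intro u hu
      rw [Finset.mem_filter] at hu
      obtain ⟨-, hl, hs⟩ := hu
      rw [Finset.mem_filter]
      refine ⟨?_, p2cnt_theta G u U hs hU.1⟩
      rw [p2cnt_mem_bas, hs]
      exact ⟨hl, hU.2, h1⟩)
  have hp : 0 < 2 ^ (d * d) := by positivity
  refine Nat.le_of_mul_le_mul_right (h.trans (le_of_eq ?_)) hp
  ring

theorem p2_cntE (V : Type*) [Fintype V] [DecidableEq V] (d : ℕ) :
    ((Finset.univ : Finset (SimpleGraph V)).filter (fun G =>
      ∃ U : Submodule (ZMod 2) (V → ZMod 2), Ob2 G U ∧ Module.finrank (ZMod 2) U = d + 1 ∧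
        (fun _ => (1 : ZMod 2)) ∈ U)).card ≤
    4 * 2 ^ (d + 1) * (basE V d).card * 2 ^ ((Fintype.card V - (d + 1)).choose 2) := by
  have h := p2cnt_gen (d + 1) (2 ^ ((d + 1) * d))
    ((Finset.univ : Finset (SimpleGraph V)).filter (fun G =>
      ∃ U : Submodule (ZMod 2) (V → ZMod 2), Ob2 G U ∧ Module.finrank (ZMod 2) U = d + 1 ∧
        (fun _ => (1 : ZMod 2)) ∈ U)) (basE V d) (by
      intro u hu
      exact ((p2cnt_mem_basE u).1 hu).1) (by
      intro G hG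
      rw [Finset.mem_filter] at hG
      obtain ⟨-, U, hU, hd, h1⟩ := hG
      have h0 : (fun _ => (1 : ZMod 2) : V → ZMod 2) ≠ 0 := by
        intro h0
        have hV : IsEmpty V := by
          by_contra hc
          rw [not_isEmpty_iff] at hc
          obtain ⟨v⟩ := hc
          exact one_ne_zero (congrFun h0 v)
        have h2 := Submodule.finrank_le U
        rw [Module.finrank_fintype_fun_eq_card, Fintype.card_eq_zero] at h2
        omega
      refine (p2_basesE U d hd _ h1 h0).trans (Nat.mul_le_mul_left _ (Finset.card_le_card ?_))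
      intro u hu
      rw [Finset.mem_filter] at hu
      obtain ⟨-, hl, hs, h3⟩ := hu
      rw [Finset.mem_filter]
      refine ⟨?_, p2cnt_theta G u U hs hU.1⟩
      rw [p2cnt_mem_basE, hs]
      exact ⟨hl, hU.2, h3⟩)
  have hp : 0 < 2 ^ ((d + 1) * d) := by positivity
  refine Nat.le_of_mul_le_mul_right (h.trans (le_of_eq ?_)) hp
  have h5 : 2 ^ ((d + 1) * (d + 1)) = 2 ^ ((d + 1) * d) * 2 ^ (d + 1) := by
    rw [← pow_add]
    congr 1
  rw [h5]
  ring

end Pool.Agent.H10.DG
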