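import Pool.Agent.H10.DG.P2Cnt

/-!
# DG-P7: interface theorem I-P2 (rank in characteristic two)

PROOFS.  Let `g = 2^(n.choose 2)` be the number of graphs on `Fin n`.
* `p2_one`: `p2_cnt`, `p2_cntE` (if `d ≥ 1`, with `d - 1`), `p2_bas_le`, `p2_basE_le`, `p2_prod`
  (`2 d ≤ n`) and `(n-d).choose 2 + n d = n.choose 2 + d (d+1)/2`:
  first part `≤ 4 * 8 * 2^(n d - d(d-1)/2 - 2d) * 2^((n-d).choose 2) = 32 * 2^(-d) g`; second
  part (`d ≥ 1`) `≤ 4 * 2^d * 8 * 2^(n (d-1) - (d-1)(d-2)/2 - 2(d-1)) * 2^((n-d).choose 2)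
  = 64 * 2^(d-n) g ≤ 64 / √2^n g` as `2 d ≤ n`.  (Stated as `(32 / 2^d + 64 / √2^n) g`.)
* `ip2`: `Ob2 G U` implies `2 * finrank U ≤ n` (`p2_self`, `p2_half`), so the set is contained in
  the union over `R ≤ d ≤ n / 2` of the sets of `p2_one`, of proportion at most
  `∑_{d ≥ R} 32 / 2^d + (n + 1) 64 / √2^n ≤ 64 / 2^R + 64 (n + 1) / √2^n`; take `R` with
  `64 / 2^R ≤ ε / 2` and `n₀` such that the second term is `≤ ε / 2` for `n ≥ n₀`.
-/

set_option autoImplicit false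

namespace Pool.Agent.H10.DG

open Matrix Classical Pool.Agent.H66.SP Pool.Agent.H95.SQ

theorem p2fin_choose (n d : ℕ) (h : d ≤ n) :
    n.choose 2 + d.choose 2 + d = (n - d).choose 2 + n * d := by
  obtain ⟨m, rfl⟩ : ∃ m, n = m + d := ⟨n - d, by omega⟩
  rw [Nat.add_sub_cancel]
  induction d with
  | zero => simp
  | succ d ih =>
    have e1 := ih (by omega)
    have e2 : (m + (d + 1)).choose 2 = (m + d) + (m + d).choose 2 := by
      rw [← add_assoc, Nat.choose_succ_succ' (m + d) 1, Nat.choose_one_right]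
    have e3 : (d + 1).choose 2 = d + d.choose 2 := by
      rw [Nat.choose_succ_succ' d 1, Nat.choose_one_right]
    rw [e2, e3]
    have e4 : (m + (d + 1)) * (d + 1) = (m + d) * d + (m + d) + d + 1 := by ring
    rw [e4]
    omega

theorem p2fin_A (n d : ℕ) (h : 2 * d ≤ n) :
    (((Finset.univ : Finset (SimpleGraph (Fin n))).filter (fun G =>
      ∃ U : Submodule (ZMod 2) (Fin n → ZMod 2), Ob2 G U ∧ Module.finrank (ZMod 2) U = d ∧
        (fun _ => (1 : ZMod 2)) ∉ U)).card : ℝ) ≤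
    32 / 2 ^ d * (Fintype.card (SimpleGraph (Fin n)) : ℝ) := by
  have h1 := p2_cnt (Fin n) d
  rw [Fintype.card_fin] at h1
  have h2 := p2_bas_le (Fin n) d
  rw [Fintype.card_fin] at h2
  have h3 := p2_prod n d h
  have h4 := p2fin_choose n d (by omega)
  set S : ℕ := ((Finset.univ : Finset (SimpleGraph (Fin n))).filter (fun G =>
      ∃ U : Submodule (ZMod 2) (Fin n → ZMod 2), Ob2 G U ∧ Module.finrank (ZMod 2) U = d ∧
        (fun _ => (1 : ZMod 2)) ∉ U)).card with hS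
  have h5 : (S : ℝ) ≤ 4 * (bas (Fin n) d).card * 2 ^ ((n - d).choose 2) := by
    exact_mod_cast h1
  have hg : (Fintype.card (SimpleGraph (Fin n)) : ℝ) = 2 ^ (n.choose 2) := by
    rw [p2_card_graph, Fintype.card_fin]
    push_cast
    rfl
  rw [hg]
  have h6 : (S : ℝ) * 2 ^ (d.choose 2 + 2 * d) ≤ 32 * 2 ^ (n.choose 2) * 2 ^ (d.choose 2 + d) := by
    calc (S : ℝ) * 2 ^ (d.choose 2 + 2 * d)
        ≤ (4 * PP n d * 2 ^ ((n - d).choose 2)) * 2 ^ (d.choose 2 + 2 * d) := by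
          apply mul_le_mul_of_nonneg_right _ (by positivity)
          refine h5.trans ?_
          apply mul_le_mul_of_nonneg_right _ (by positivity)
          linarith
      _ = 4 * 2 ^ ((n - d).choose 2) * (PP n d * 2 ^ (d.choose 2 + 2 * d)) := by ring
      _ ≤ 4 * 2 ^ ((n - d).choose 2) * (8 * 2 ^ (n * d)) :=
          mul_le_mul_of_nonneg_left h3 (by positivity)
      _ = 32 * 2 ^ ((n - d).choose 2 + n * d) := by rw [pow_add]; ring
      _ = 32 * 2 ^ (n.choose 2) * 2 ^ (d.choose 2 + d) := by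
          rw [← h4, add_assoc, pow_add]; ring
  have h7 : (S : ℝ) * 2 ^ d * 2 ^ (d.choose 2 + d) ≤
      32 * 2 ^ (n.choose 2) * 2 ^ (d.choose 2 + d) := by
    refine le_trans (le_of_eq ?_) h6
    rw [mul_assoc, ← pow_add]
    congr 2
    ring
  have h8 := le_of_mul_le_mul_right h7 (by positivity)
  rw [div_mul_eq_mul_div, le_div_iff₀ (by positivity)]
  exact h8

theorem p2fin_sqrt (n : ℕ) : (Real.sqrt 2) ^ n * (Real.sqrt 2) ^ n = 2 ^ n := by
  rw [← mul_pow, Real.mul_self_sqrt (by norm_num)]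

theorem p2fin_B (n e : ℕ) (h : 2 * (e + 1) ≤ n) :
    (((Finset.univ : Finset (SimpleGraph (Fin n))).filter (fun G =>
      ∃ U : Submodule (ZMod 2) (Fin n → ZMod 2), Ob2 G U ∧ Module.finrank (ZMod 2) U = e + 1 ∧
        (fun _ => (1 : ZMod 2)) ∈ U)).card : ℝ) ≤
    64 / (Real.sqrt 2) ^ n * (Fintype.card (SimpleGraph (Fin n)) : ℝ) := by
  have h1 := p2_cntE (Fin n) e
  rw [Fintype.card_fin] at h1
  have h2 := p2_basE_le (Fin n) e
  rw [Fintype.card_fin] at h2
  have h3 := p2_prod n e (by omega)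
  have h4 := p2fin_choose n (e + 1) (by omega)
  have h4' : (e + 1).choose 2 = e + e.choose 2 := by
    rw [Nat.choose_succ_succ' e 1, Nat.choose_one_right]
  set S : ℕ := ((Finset.univ : Finset (SimpleGraph (Fin n))).filter (fun G =>
      ∃ U : Submodule (ZMod 2) (Fin n → ZMod 2), Ob2 G U ∧ Module.finrank (ZMod 2) U = e + 1 ∧
        (fun _ => (1 : ZMod 2)) ∈ U)).card with hS
  have h5 : (S : ℝ) ≤ 4 * 2 ^ (e + 1) * (basE (Fin n) e).card * 2 ^ ((n - (e + 1)).choose 2) := by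
    exact_mod_cast h1
  have hg : (Fintype.card (SimpleGraph (Fin n)) : ℝ) = 2 ^ (n.choose 2) := by
    rw [p2_card_graph, Fintype.card_fin]
    push_cast
    rfl
  rw [hg]
  have h4'' : (n - (e + 1)).choose 2 + n * e + n = n.choose 2 + (e.choose 2 + 2 * e) + 1 := by
    rw [h4'] at h4
    have : n * (e + 1) = n * e + n := by ring
    rw [this] at h4
    omega
  have h6 : (S : ℝ) * 2 ^ n * 2 ^ (e.choose 2 + 2 * e) ≤
      64 * 2 ^ (e + 1) * 2 ^ (n.choose 2) * 2 ^ (e.choose 2 + 2 * e) := by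
    calc (S : ℝ) * 2 ^ n * 2 ^ (e.choose 2 + 2 * e)
        ≤ (4 * 2 ^ (e + 1) * PP n e * 2 ^ ((n - (e + 1)).choose 2)) * 2 ^ n *
            2 ^ (e.choose 2 + 2 * e) := by
          apply mul_le_mul_of_nonneg_right _ (by positivity)
          apply mul_le_mul_of_nonneg_right _ (by positivity)
          refine h5.trans ?_
          apply mul_le_mul_of_nonneg_right _ (by positivity)
          exact mul_le_mul_of_nonneg_left h2 (by positivity)
      _ = 4 * 2 ^ (e + 1) * 2 ^ ((n - (e + 1)).choose 2) * 2 ^ n *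
            (PP n e * 2 ^ (e.choose 2 + 2 * e)) := by ring
      _ ≤ 4 * 2 ^ (e + 1) * 2 ^ ((n - (e + 1)).choose 2) * 2 ^ n * (8 * 2 ^ (n * e)) :=
          mul_le_mul_of_nonneg_left h3 (by positivity)
      _ = 32 * 2 ^ (e + 1) * 2 ^ ((n - (e + 1)).choose 2 + n * e + n) := by
          rw [pow_add, pow_add]; ring
      _ = 64 * 2 ^ (e + 1) * 2 ^ (n.choose 2) * 2 ^ (e.choose 2 + 2 * e) := by
          rw [h4'', pow_add, pow_add]; ring
  have h8 := le_of_mul_le_mul_right h6 (by positivity)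
  have hs := p2fin_sqrt n
  have hs0 : 0 < (Real.sqrt 2) ^ n := by positivity
  have h9 : (2 : ℝ) ^ (e + 1) ≤ (Real.sqrt 2) ^ n := by
    have h10 : ((2 : ℝ) ^ (e + 1)) * 2 ^ (e + 1) ≤ (Real.sqrt 2) ^ n * (Real.sqrt 2) ^ n := by
      rw [hs, ← pow_add]
      exact pow_le_pow_right₀ (by norm_num) (by omega)
    exact abs_le_of_sq_le_sq' (by nlinarith) hs0.le |>.2
  rw [div_mul_eq_mul_div, le_div_iff₀ hs0]
  have h11 : (S : ℝ) * (Real.sqrt 2) ^ n * (Real.sqrt 2) ^ n ≤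
      64 * 2 ^ (n.choose 2) * (Real.sqrt 2) ^ n := by
    calc (S : ℝ) * (Real.sqrt 2) ^ n * (Real.sqrt 2) ^ n = S * 2 ^ n := by
          rw [mul_assoc, hs]
      _ ≤ 64 * 2 ^ (e + 1) * 2 ^ (n.choose 2) := h8
      _ = 64 * 2 ^ (n.choose 2) * 2 ^ (e + 1) := by ring
      _ ≤ 64 * 2 ^ (n.choose 2) * (Real.sqrt 2) ^ n :=
          mul_le_mul_of_nonneg_left h9 (by positivity)
  exact le_of_mul_le_mul_right h11 hs0

theorem p2_one (n d : ℕ) (h : 2 * d ≤ n) :
    (((Finset.univ : Finset (SimpleGraph (Fin n))).filter (fun G =>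
      ∃ U : Submodule (ZMod 2) (Fin n → ZMod 2), Ob2 G U ∧
        Module.finrank (ZMod 2) U = d)).card : ℝ) ≤
    (32 / 2 ^ d + 64 / (Real.sqrt 2) ^ n) * (Fintype.card (SimpleGraph (Fin n)) : ℝ) := by
  have hg0 : (0 : ℝ) ≤ (Fintype.card (SimpleGraph (Fin n)) : ℝ) := Nat.cast_nonneg _
  rcases Nat.eq_zero_or_pos d with rfl | hd
  · have h1 : (((Finset.univ : Finset (SimpleGraph (Fin n))).filter (fun G =>
      ∃ U : Submodule (ZMod 2) (Fin n → ZMod 2), Ob2 G U ∧
        Module.finrank (ZMod 2) U = 0)).card : ℝ) ≤ (Fintype.card (SimpleGraph (Fin n)) : ℝ) := by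
      exact_mod_cast Finset.card_le_univ _
    refine h1.trans ?_
    have h2 : (0 : ℝ) ≤ 64 / (Real.sqrt 2) ^ n := by positivity
    rw [pow_zero, div_one]
    nlinarith
  · obtain ⟨e, rfl⟩ : ∃ e, d = e + 1 := ⟨d - 1, by omega⟩
    have hA := p2fin_A n (e + 1) h
    have hB := p2fin_B n e h
    have hsub : ((Finset.univ : Finset (SimpleGraph (Fin n))).filter (fun G =>
        ∃ U : Submodule (ZMod 2) (Fin n → ZMod 2), Ob2 G U ∧
          Module.finrank (ZMod 2) U = e + 1)) ⊆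
        ((Finset.univ : Finset (SimpleGraph (Fin n))).filter (fun G =>
        ∃ U : Submodule (ZMod 2) (Fin n → ZMod 2), Ob2 G U ∧ Module.finrank (ZMod 2) U = e + 1 ∧
          (fun _ => (1 : ZMod 2)) ∉ U)) ∪
        ((Finset.univ : Finset (SimpleGraph (Fin n))).filter (fun G =>
        ∃ U : Submodule (ZMod 2) (Fin n → ZMod 2), Ob2 G U ∧ Module.finrank (ZMod 2) U = e + 1 ∧
          (fun _ => (1 : ZMod 2)) ∈ U)) := by
      intro G hG
      rw [Finset.mem_filter] at hG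
      obtain ⟨-, U, hU1, hU2⟩ := hG
      rw [Finset.mem_union, Finset.mem_filter, Finset.mem_filter]
      by_cases hU : (fun _ => (1 : ZMod 2)) ∈ U
      · exact Or.inr ⟨Finset.mem_univ _, U, hU1, hU2, hU⟩
      · exact Or.inl ⟨Finset.mem_univ _, U, hU1, hU2, hU⟩
    have h1 := (Finset.card_le_card hsub).trans (Finset.card_union_le _ _)
    have h2 : (((Finset.univ : Finset (SimpleGraph (Fin n))).filter (fun G =>
        ∃ U : Submodule (ZMod 2) (Fin n → ZMod 2), Ob2 G U ∧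
          Module.finrank (ZMod 2) U = e + 1)).card : ℝ) ≤
        (((Finset.univ : Finset (SimpleGraph (Fin n))).filter (fun G =>
        ∃ U : Submodule (ZMod 2) (Fin n → ZMod 2), Ob2 G U ∧ Module.finrank (ZMod 2) U = e + 1 ∧
          (fun _ => (1 : ZMod 2)) ∉ U)).card : ℝ) +
        (((Finset.univ : Finset (SimpleGraph (Fin n))).filter (fun G =>
        ∃ U : Submodule (ZMod 2) (Fin n → ZMod 2), Ob2 G U ∧ Module.finrank (ZMod 2) U = e + 1 ∧
          (fun _ => (1 : ZMod 2)) ∈ U)).card : ℝ) := by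
      exact_mod_cast h1
    rw [add_mul]
    exact h2.trans (add_le_add hA hB)

theorem p2fin_geom (m : ℕ) : ∑ k ∈ Finset.range m, (1 / 2 : ℝ) ^ k ≤ 2 := by
  have h : ∑ k ∈ Finset.range m, (1 / 2 : ℝ) ^ k = 2 - 2 * (1 / 2) ^ m := by
    induction m with
    | zero => simp
    | succ m ih =>
      rw [Finset.sum_range_succ, ih, pow_succ]
      ring
  rw [h]
  have : (0 : ℝ) < (1 / 2) ^ m := by positivity
  linarith

/-- the bound for one dimension, without the condition on `d` -/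
theorem p2fin_all (n d : ℕ) :
    (((Finset.univ : Finset (SimpleGraph (Fin n))).filter (fun G =>
      ∃ U : Submodule (ZMod 2) (Fin n → ZMod 2), Ob2 G U ∧
        Module.finrank (ZMod 2) U = d)).card : ℝ) ≤
    (32 / 2 ^ d + 64 / (Real.sqrt 2) ^ n) * (Fintype.card (SimpleGraph (Fin n)) : ℝ) := by
  by_cases h : 2 * d ≤ n
  · exact p2_one n d h
  · rw [Finset.filter_false_of_mem, Finset.card_empty, Nat.cast_zero]
    · positivity
    · rintro G - ⟨U, hU, hd⟩
      apply h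
      rw [← hd]
      have := p2_half U (fun x hx y hy => p2_self x y (hU.2 x hx) (hU.2 y hy)
        (hU.2 _ (U.add_mem hx hy)))
      rwa [Fintype.card_fin] at this

theorem p2fin_lim (ε : ℝ) (hε : 0 < ε) : ∃ n₀ : ℕ, ∀ n : ℕ, n₀ ≤ n →
    ((n : ℝ) + 1) * (64 / (Real.sqrt 2) ^ n) ≤ ε := by
  have hs : (1 : ℝ) < Real.sqrt 2 := by
    rw [Real.lt_sqrt (by norm_num)]
    norm_num
  have hr0 : (0 : ℝ) ≤ 1 / Real.sqrt 2 := by positivity
  have hr1 : 1 / Real.sqrt 2 < 1 := by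
    rw [div_lt_one (by positivity)]
    exact hs
  have t1 := tendsto_self_mul_const_pow_of_lt_one hr0 hr1
  have t2 := tendsto_pow_atTop_nhds_zero_of_lt_one hr0 hr1
  have t3 := (t1.add t2).const_mul 64
  rw [add_zero, mul_zero] at t3
  obtain ⟨n₀, hn⟩ := Filter.eventually_atTop.1 (t3.eventually (ge_mem_nhds hε))
  refine ⟨n₀, fun n h => ?_⟩
  have := hn n h
  refine le_trans (le_of_eq ?_) this
  rw [one_div, inv_pow]
  ring

theorem ip2 (ε : ℝ) (hε : 0 < ε) : ∃ R n₀ : ℕ, ∀ n : ℕ, n₀ ≤ n →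
    (((Finset.univ : Finset (SimpleGraph (Fin n))).filter (fun G =>
      ∃ U : Submodule (ZMod 2) (Fin n → ZMod 2), Ob2 G U ∧
        R ≤ Module.finrank (ZMod 2) U)).card : ℝ) ≤
    ε * (Fintype.card (SimpleGraph (Fin n)) : ℝ) := by
  obtain ⟨R, hR⟩ := exists_pow_lt_of_lt_one (show (0 : ℝ) < ε / 128 by positivity)
    (show (1 / 2 : ℝ) < 1 by norm_num)
  obtain ⟨n₀, hn₀⟩ := p2fin_lim (ε / 2) (by positivity)
  refine ⟨R, n₀, fun n hn => ?_⟩
  set S : ℕ → Finset (SimpleGraph (Fin n)) := fun d =>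
    (Finset.univ : Finset (SimpleGraph (Fin n))).filter (fun G =>
      ∃ U : Submodule (ZMod 2) (Fin n → ZMod 2), Ob2 G U ∧
        Module.finrank (ZMod 2) U = d) with hS
  have hsub : ((Finset.univ : Finset (SimpleGraph (Fin n))).filter (fun G =>
      ∃ U : Submodule (ZMod 2) (Fin n → ZMod 2), Ob2 G U ∧
        R ≤ Module.finrank (ZMod 2) U)) ⊆ (Finset.range (n + 1)).biUnion (fun k => S (R + k)) := by
    intro G hG
    rw [Finset.mem_filter] at hG
    obtain ⟨-, U, hU1, hU2⟩ := hG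
    rw [Finset.mem_biUnion]
    refine ⟨Module.finrank (ZMod 2) U - R, ?_, ?_⟩
    · rw [Finset.mem_range]
      have h1 := Submodule.finrank_le U
      rw [Module.finrank_fintype_fun_eq_card, Fintype.card_fin] at h1
      omega
    · rw [hS, Finset.mem_filter]
      exact ⟨Finset.mem_univ _, U, hU1, by omega⟩
  have h1 := (Finset.card_le_card hsub).trans Finset.card_biUnion_le
  have h2 : (((Finset.univ : Finset (SimpleGraph (Fin n))).filter (fun G =>
      ∃ U : Submodule (ZMod 2) (Fin n → ZMod 2), Ob2 G U ∧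
        R ≤ Module.finrank (ZMod 2) U)).card : ℝ) ≤
      ∑ k ∈ Finset.range (n + 1), ((S (R + k)).card : ℝ) := by
    exact_mod_cast h1
  have h3 : ∑ k ∈ Finset.range (n + 1), ((S (R + k)).card : ℝ) ≤
      ∑ k ∈ Finset.range (n + 1), (32 / 2 ^ (R + k) + 64 / (Real.sqrt 2) ^ n) *
        (Fintype.card (SimpleGraph (Fin n)) : ℝ) :=
    Finset.sum_le_sum fun k _ => p2fin_all n (R + k)
  refine (h2.trans h3).trans ?_
  rw [← Finset.sum_mul]
  apply mul_le_mul_of_nonneg_right _ (Nat.cast_nonneg _)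
  rw [Finset.sum_add_distrib, Finset.sum_const, Finset.card_range, nsmul_eq_mul]
  have h4 : ∑ k ∈ Finset.range (n + 1), (32 : ℝ) / 2 ^ (R + k) =
      32 * (1 / 2) ^ R * ∑ k ∈ Finset.range (n + 1), (1 / 2 : ℝ) ^ k := by
    rw [Finset.mul_sum]
    refine Finset.sum_congr rfl fun k _ => ?_
    rw [pow_add, one_div, inv_pow, inv_pow]
    field_simp
  have h5 := p2fin_geom (n + 1)
  have h6 : 32 * (1 / 2 : ℝ) ^ R * ∑ k ∈ Finset.range (n + 1), (1 / 2 : ℝ) ^ k ≤
      32 * (1 / 2) ^ R * 2 := mul_le_mul_of_nonneg_left h5 (by positivity)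
  have h7 := hn₀ n hn
  rw [h4]
  push_cast
  linarith

end Pool.Agent.H10.DG
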