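import Pool.Agent.H10.DG.Defs
import Pool.Agent.H66.SP.Odl
import Pool.Agent.H66.SP.Arith

/-!
# DG-P1: graphs with prescribed images of independent vectors (characteristic two)

PROOF.  Let `E` be the span of the `u a`, `finrank E = d`.  `exists_pivots` (`H66/SP/Odl.lean`)
gives a finset `T`, `T.card = d`, such that the coordinate functionals `coordE E t`, `t ∈ T`, are
linearly independent; so (*): if `r : V → ZMod 2` vanishes outside `T` and `∑ t, r t * u a t = 0`
for all `a`, then `r = 0` (the functional `∑ t, r t • coordE E t` vanishes on the span).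
The map `G ↦ G.comap (Subtype.val : {v // v ∉ T} → V)` is injective on the set: let `G`, `G'` be
in the set with the same induced graph outside of `T`, `D = adj (ZMod 2) G - adj (ZMod 2) G'`: symmetric,
`D i j = 0` for `i, j ∉ T`, `D *ᵥ u a = 0`.  For `i ∉ T` the row `D i` vanishes outside `T`, so it is
`0` by (*); by symmetry `D i j = 0` if `i ∈ T`, `j ∉ T`, so also for `i ∈ T` the row `D i` vanishes
outside of `T` and is `0`.  So `D = 0` and `G = G'`.  The number of graphs on `{v // v ∉ T}` is
`2 ^ ((card V - d).choose 2)` (`card_graph_fin` of `H66/SP/Arith.lean` and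
`Fintype.card_congr (Equiv.simpleGraph _)`).
-/

set_option autoImplicit false

namespace Pool.Agent.H10.DG

open Matrix Classical Pool.Agent.H66.SP Pool.Agent.H95.SQ

theorem p2_card_graph (W : Type*) [Fintype W] [DecidableEq W] :
    Fintype.card (SimpleGraph W) = 2 ^ ((Fintype.card W).choose 2) := by
  rw [← card_graph_fin (Fintype.card W)]
  exact Fintype.card_congr (Equiv.simpleGraph (Fintype.equivFin W))

theorem p2Sol_zero {V : Type*} [Fintype V] [DecidableEq V] (E : Submodule (ZMod 2) (V → ZMod 2))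
    (T : Finset V) (hT : LinearIndependent (ZMod 2) (fun t : T => coordE E (t : V)))
    (r : V → ZMod 2) (hr : ∀ v, v ∉ T → r v = 0) (h : ∀ x ∈ E, r ⬝ᵥ x = 0) : r = 0 := by
  have h0 : ∑ t : T, r (t : V) • coordE E (t : V) = 0 := by
    apply LinearMap.ext
    intro x
    rw [LinearMap.sum_apply, LinearMap.zero_apply]
    have h1 : ∀ t : T, (r (t : V) • coordE E (t : V)) x = r (t : V) * (x : V → ZMod 2) (t : V) :=
      fun t => rfl
    rw [Finset.sum_congr rfl fun t _ => h1 t]
    have h2 := h x x.2
    unfold dotProduct at h2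
    rw [← Finset.sum_subset (Finset.subset_univ T)] at h2
    · rw [← h2]
      exact Finset.sum_coe_sort T (fun v => r v * (x : V → ZMod 2) v)
    · intro v _ hv
      rw [hr v hv, zero_mul]
  have h3 := Fintype.linearIndependent_iff.1 hT (fun t => r (t : V)) h0
  funext v
  by_cases hv : v ∈ T
  · exact h3 ⟨v, hv⟩
  · exact hr v hv

theorem p2Sol_row {V : Type*} [Fintype V] [DecidableEq V] {d : ℕ} (u : Fin d → V → ZMod 2)
    (r : V → ZMod 2) (h : ∀ a, r ⬝ᵥ u a = 0) :
    ∀ x ∈ Submodule.span (ZMod 2) (Set.range u), r ⬝ᵥ x = 0 := by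
  intro x hx
  induction hx using Submodule.span_induction with
  | mem x hx =>
    obtain ⟨a, rfl⟩ := hx
    exact h a
  | zero => exact dotProduct_zero r
  | add x y _ _ h1 h2 => rw [dotProduct_add, h1, h2, add_zero]
  | smul a x _ h1 => rw [dotProduct_smul, h1, smul_zero]

theorem p2Sol_adj {V : Type*} {G G' : SimpleGraph V} {i j : V}
    (h : adj (ZMod 2) G i j = adj (ZMod 2) G' i j) : G.Adj i j ↔ G'.Adj i j := by
  unfold adj at h
  rw [Matrix.of_apply, Matrix.of_apply] at h
  by_cases h1 : G.Adj i j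
  · by_cases h2 : G'.Adj i j
    · exact ⟨fun _ => h2, fun _ => h1⟩
    · rw [if_pos h1, if_neg h2] at h
      exact absurd h one_ne_zero
  · by_cases h2 : G'.Adj i j
    · rw [if_neg h1, if_pos h2] at h
      exact absurd h.symm one_ne_zero
    · exact ⟨fun h3 => absurd h3 h1, fun h3 => absurd h3 h2⟩

theorem p2Sol_symm {V : Type*} (G : SimpleGraph V) (i j : V) :
    adj (ZMod 2) G i j = adj (ZMod 2) G j i := by
  unfold adj
  rw [Matrix.of_apply, Matrix.of_apply]
  by_cases h1 : G.Adj i j
  · rw [if_pos h1, if_pos (G.adj_symm h1)]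
  · rw [if_neg h1, if_neg (fun h => h1 (G.adj_symm h))]

theorem p2_card_sol {V : Type*} [Fintype V] [DecidableEq V] {d : ℕ} (u v : Fin d → V → ZMod 2)
    (hu : LinearIndependent (ZMod 2) u) :
    ((Finset.univ : Finset (SimpleGraph V)).filter
      (fun G => ∀ a, adj (ZMod 2) G *ᵥ u a = v a)).card ≤ 2 ^ ((Fintype.card V - d).choose 2) := by
  obtain ⟨T, hTc, hT⟩ := exists_pivots (Submodule.span (ZMod 2) (Set.range u))
  rw [finrank_span_eq_card hu, Fintype.card_fin] at hTc
  have hc : Fintype.card {v : V // v ∉ T} = Fintype.card V - d := by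
    rw [Fintype.card_subtype_compl, Fintype.card_coe, hTc]
  have hcard : (Finset.univ : Finset (SimpleGraph {v : V // v ∉ T})).card =
      2 ^ ((Fintype.card V - d).choose 2) := by
    rw [Finset.card_univ, p2_card_graph, hc]
  rw [← hcard]
  apply Finset.card_le_card_of_injOn (fun G => G.comap (Subtype.val : {v : V // v ∉ T} → V))
  · intro G _
    exact Finset.mem_coe.2 (Finset.mem_univ _)
  · intro G hG G' hG' hGG
    have hG1 := (Finset.mem_filter.1 (Finset.mem_coe.1 hG)).2
    have hG2 := (Finset.mem_filter.1 (Finset.mem_coe.1 hG')).2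
    have hout : ∀ i j, i ∉ T → j ∉ T → adj (ZMod 2) G i j - adj (ZMod 2) G' i j = 0 := by
      intro i j hi hj
      have h1 : (G.comap (Subtype.val : {v : V // v ∉ T} → V)).Adj ⟨i, hi⟩ ⟨j, hj⟩ ↔
          (G'.comap (Subtype.val : {v : V // v ∉ T} → V)).Adj ⟨i, hi⟩ ⟨j, hj⟩ := by
        have h2 : G.comap (Subtype.val : {v : V // v ∉ T} → V) =
          G'.comap (Subtype.val : {v : V // v ∉ T} → V) := hGG
        rw [h2]
      have h3 : G.Adj i j ↔ G'.Adj i j := h1
      unfold adj
      rw [Matrix.of_apply, Matrix.of_apply]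
      by_cases h4 : G.Adj i j
      · rw [if_pos h4, if_pos (h3.1 h4), sub_self]
      · rw [if_neg h4, if_neg (fun h => h4 (h3.2 h)), sub_self]
    have hrow : ∀ i, (∀ j, j ∉ T → adj (ZMod 2) G i j - adj (ZMod 2) G' i j = 0) →
        ∀ j, adj (ZMod 2) G i j = adj (ZMod 2) G' i j := by
      intro i hi j
      have h1 := p2Sol_zero _ T hT (fun j => adj (ZMod 2) G i j - adj (ZMod 2) G' i j) hi
        (p2Sol_row u _ (by
          intro a
          have h2 : (fun j => adj (ZMod 2) G i j - adj (ZMod 2) G' i j) ⬝ᵥ u a =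
              (adj (ZMod 2) G *ᵥ u a) i - (adj (ZMod 2) G' *ᵥ u a) i := by
            have h3 : (fun j => adj (ZMod 2) G i j - adj (ZMod 2) G' i j) =
              adj (ZMod 2) G i - adj (ZMod 2) G' i := rfl
            rw [h3, sub_dotProduct]
            rfl
          rw [h2, hG1 a, hG2 a, sub_self]))
      exact sub_eq_zero.1 (congrFun h1 j)
    have hall : ∀ i j, adj (ZMod 2) G i j = adj (ZMod 2) G' i j := by
      intro i
      by_cases hi : i ∈ T
      · apply hrow i
        intro j hj
        rw [p2Sol_symm G i j, p2Sol_symm G' i j, hrow j (fun k hk => hout j k hj hk) i, sub_self]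
      · exact hrow i (fun k hk => hout i k hi hk)
    ext i j
    exact p2Sol_adj (hall i j)

end Pool.Agent.H10.DG
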