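import Pool.Agent.H10.DG.Defs

/-!
# DG-P2: vectors of weight divisible by four orthogonal to given independent vectors

PROOF.  Let `n = card V`, `sg : ZMod 2 → ℝ` (or `ℂ`), `sg 0 = 1`, `sg 1 = -1`, a character.  With
`i = Complex.I`: `1[4 ∣ m] = (1/4) ∑_{k<4} (i^k)^m` and, for `x : V → ZMod 2`,
`1[u a ⬝ᵥ x = 0 for all a] = 2^(-l) ∑_{c : Fin l → ZMod 2} sg (∑ a, c a * (u a ⬝ᵥ x))
= 2^(-l) ∑_c ∏_v sg (y_c v * x v)`, `y_c = ∑ a, c a • u a`.  So
`4 * 2^l * N = ∑_{k<4} ∑_c ∑_x ∏_v sg (y_c v * x v) (i^k)^[x v ≠ 0]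
            = ∑_{k<4} ∑_c ∏_v (1 + sg (y_c v) i^k)`   (`Finset.prod_univ_sum`/`Fintype.prod_sum`).
`k = 0`: the product is `2^n` if `y_c = 0`, i.e. `c = 0` (independence), else `0`: total `2^n`.
`k = 2`: the product is `2^n` if `y_c` is the all ones vector, else `0`; at most one such `c`, and
none if the all ones vector is not in the span.  `k = 1, 3`: every factor has norm `√2`, so each
product has norm `√2^n`; there are `2 * 2^l` of them.
-/

set_option autoImplicit false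

namespace Pool.Agent.H10.DG

open Matrix Classical Pool.Agent.H66.SP Pool.Agent.H95.SQ

/-- the sign character -/
noncomputable def P2Wt_sg (a : ZMod 2) : ℂ := if a = 0 then 1 else -1

theorem P2Wt_cases (a : ZMod 2) : a = 0 ∨ a = 1 := by
  revert a
  decide

theorem P2Wt_sg_zero : P2Wt_sg 0 = 1 := by simp [P2Wt_sg]

theorem P2Wt_sg_one : P2Wt_sg 1 = -1 := by simp [P2Wt_sg]

theorem P2Wt_sg_add (a b : ZMod 2) : P2Wt_sg (a + b) = P2Wt_sg a * P2Wt_sg b := by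
  have h11 : (1 : ZMod 2) + 1 = 0 := by decide
  rcases P2Wt_cases a with rfl | rfl <;> rcases P2Wt_cases b with rfl | rfl
  · rw [zero_add, P2Wt_sg_zero, one_mul]
  · rw [zero_add, P2Wt_sg_zero, one_mul]
  · rw [add_zero, P2Wt_sg_zero, mul_one]
  · rw [h11, P2Wt_sg_zero, P2Wt_sg_one]
    norm_num

theorem P2Wt_sg_sum {ι : Type*} (s : Finset ι) (f : ι → ZMod 2) :
    P2Wt_sg (∑ i ∈ s, f i) = ∏ i ∈ s, P2Wt_sg (f i) := by
  induction s using Finset.induction_on with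
  | empty => simp [P2Wt_sg_zero]
  | insert a s ha ih => rw [Finset.sum_insert ha, Finset.prod_insert ha, P2Wt_sg_add, ih]

theorem P2Wt_prod_sum {ι : Type*} [Fintype ι] [DecidableEq ι] (g : ι → ZMod 2 → ℂ) :
    ∏ i, (g i 0 + g i 1) = ∑ x : ι → ZMod 2, ∏ i, g i (x i) := by
  have h := Finset.prod_univ_sum (fun _ : ι => (Finset.univ : Finset (ZMod 2))) g
  rw [Fintype.piFinset_univ] at h
  rw [← h]
  refine Finset.prod_congr rfl fun i _ => ?_
  exact (Fin.sum_univ_two (g i)).symm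

theorem P2Wt_dot {V : Type*} [Fintype V] {l : ℕ} (u : Fin l → V → ZMod 2)
    (c : Fin l → ZMod 2) (x : V → ZMod 2) :
    (∑ a, c a • u a) ⬝ᵥ x = ∑ a, c a * (u a ⬝ᵥ x) := by
  simp only [dotProduct, Finset.sum_apply, Pi.smul_apply, smul_eq_mul, Finset.sum_mul,
    Finset.mul_sum, mul_assoc]
  exact Finset.sum_comm

theorem P2Wt_char {V : Type*} [Fintype V] {l : ℕ} (u : Fin l → V → ZMod 2) (x : V → ZMod 2) :
    ∑ c : Fin l → ZMod 2, P2Wt_sg ((∑ a, c a • u a) ⬝ᵥ x) =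
      if (∀ a, u a ⬝ᵥ x = 0) then (2 : ℂ) ^ l else 0 := by
  have h1 : ∀ c : Fin l → ZMod 2, P2Wt_sg ((∑ a, c a • u a) ⬝ᵥ x) =
      ∏ a, (fun (a : Fin l) (b : ZMod 2) => P2Wt_sg (b * (u a ⬝ᵥ x))) a (c a) := by
    intro c
    rw [P2Wt_dot, P2Wt_sg_sum]
  have h2 := P2Wt_prod_sum (fun (a : Fin l) (b : ZMod 2) => P2Wt_sg (b * (u a ⬝ᵥ x)))
  rw [Finset.sum_congr rfl fun c _ => h1 c]
  refine Eq.trans (Eq.symm ?_) (Eq.trans (b := ∏ a, ((1 : ℂ) + P2Wt_sg (u a ⬝ᵥ x))) rfl ?_)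
  · refine Eq.trans ?_ (Eq.trans h2 ?_)
    · simp only [zero_mul, one_mul, P2Wt_sg_zero]
    · congr
  split_ifs with h
  · have h2 : ∀ a, (1 : ℂ) + P2Wt_sg (u a ⬝ᵥ x) = 2 := by
      intro a
      rw [h a, P2Wt_sg_zero]
      norm_num
    rw [Finset.prod_congr rfl fun a _ => h2 a, Finset.prod_const, Finset.card_univ,
      Fintype.card_fin]
  · push Not at h
    obtain ⟨a, ha⟩ := h
    apply Finset.prod_eq_zero (Finset.mem_univ a)
    rw [(P2Wt_cases _).resolve_left ha, P2Wt_sg_one]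
    norm_num

theorem P2Wt_four (m : ℕ) :
    ∑ k ∈ Finset.range 4, (Complex.I ^ k) ^ m = if 4 ∣ m then (4 : ℂ) else 0 := by
  have h1 : ∀ k : ℕ, (Complex.I ^ k) ^ m = (Complex.I ^ (m % 4)) ^ k := by
    intro k
    rw [← pow_mul, mul_comm k m, pow_mul, Complex.I_pow_eq_pow_mod m]
  rw [Finset.sum_congr rfl fun k _ => h1 k]
  have h2 : m % 4 < 4 := Nat.mod_lt _ (by norm_num)
  have h3 : (4 ∣ m) ↔ m % 4 = 0 := Nat.dvd_iff_mod_eq_zero
  rw [if_congr h3 rfl rfl]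
  generalize m % 4 = r at h2
  have hI2 : Complex.I ^ 2 = -1 := Complex.I_sq
  have hI3 : Complex.I ^ 3 = -Complex.I := Complex.I_pow_three
  interval_cases r
  · simp
  · simp [Finset.sum_range_succ, hI2, hI3]
  · simp [Finset.sum_range_succ, hI2]
    norm_num
  · have e2 : (-Complex.I) ^ 2 = -1 := by rw [neg_sq, hI2]
    have e3 : (-Complex.I) ^ 3 = Complex.I := by
      have e4 : (-Complex.I) ^ 3 = -(Complex.I ^ 3) := by ring
      rw [e4, hI3, neg_neg]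
    rw [hI3, Finset.sum_range_succ, Finset.sum_range_succ, Finset.sum_range_succ,
      Finset.sum_range_one, e2, e3, if_neg (by norm_num)]
    ring

theorem P2Wt_term {V : Type*} [Fintype V] (y x : V → ZMod 2) (w : ℂ) :
    ∏ v, (if x v = 0 then 1 else P2Wt_sg (y v) * w) = P2Wt_sg (y ⬝ᵥ x) * w ^ nz x := by
  have h1 : ∀ v, (if x v = 0 then 1 else P2Wt_sg (y v) * w) =
      P2Wt_sg (y v * x v) * (if x v ≠ 0 then w else 1) := by
    intro v
    rcases P2Wt_cases (x v) with h | h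
    · rw [h, if_pos rfl, mul_zero, P2Wt_sg_zero, if_neg (by simp), mul_one]
    · rw [h, if_neg (by decide), mul_one, if_pos (by decide)]
  rw [Finset.prod_congr rfl fun v _ => h1 v, Finset.prod_mul_distrib, ← P2Wt_sg_sum]
  congr 1
  rw [Finset.prod_ite, Finset.prod_const, Finset.prod_const_one, mul_one]
  unfold nz
  congr

theorem P2Wt_main {V : Type*} [Fintype V] [DecidableEq V] {l : ℕ} (u : Fin l → V → ZMod 2) :
    4 * 2 ^ l * (((Finset.univ : Finset (V → ZMod 2)).filter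
      (fun x => (∀ a, u a ⬝ᵥ x = 0) ∧ 4 ∣ nz x)).card : ℂ) =
    ∑ k ∈ Finset.range 4, ∑ c : Fin l → ZMod 2,
      ∏ v, (1 + P2Wt_sg ((∑ a, c a • u a) v) * Complex.I ^ k) := by
  have h1 : ∀ (k : ℕ) (c : Fin l → ZMod 2),
      ∏ v, (1 + P2Wt_sg ((∑ a, c a • u a) v) * Complex.I ^ k) =
      ∑ x : V → ZMod 2, P2Wt_sg ((∑ a, c a • u a) ⬝ᵥ x) * (Complex.I ^ k) ^ nz x := by
    intro k c
    rw [← Finset.sum_congr rfl fun x _ => P2Wt_term (∑ a, c a • u a) x (Complex.I ^ k)]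
    have h2 := P2Wt_prod_sum (fun (v : V) (b : ZMod 2) =>
      if b = 0 then (1 : ℂ) else P2Wt_sg ((∑ a, c a • u a) v) * Complex.I ^ k)
    rw [← h2]
    refine Finset.prod_congr rfl fun v _ => ?_
    simp
  have h3 : ∀ x : V → ZMod 2, (∑ k ∈ Finset.range 4, ∑ c : Fin l → ZMod 2,
      P2Wt_sg ((∑ a, c a • u a) ⬝ᵥ x) * (Complex.I ^ k) ^ nz x) =
      if (∀ a, u a ⬝ᵥ x = 0) ∧ 4 ∣ nz x then 4 * 2 ^ l else 0 := by
    intro x
    have h4 : ∀ k ∈ Finset.range 4, ∑ c : Fin l → ZMod 2,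
        P2Wt_sg ((∑ a, c a • u a) ⬝ᵥ x) * (Complex.I ^ k) ^ nz x =
        (if (∀ a, u a ⬝ᵥ x = 0) then (2 : ℂ) ^ l else 0) * (Complex.I ^ k) ^ nz x := by
      intro k _
      rw [← Finset.sum_mul, P2Wt_char]
    rw [Finset.sum_congr rfl h4, ← Finset.mul_sum, P2Wt_four]
    by_cases hA : ∀ a, u a ⬝ᵥ x = 0
    · by_cases hB : 4 ∣ nz x
      · rw [if_pos hA, if_pos hB, if_pos ⟨hA, hB⟩]
        ring
      · rw [if_neg hB, if_neg (fun h : (∀ a, u a ⬝ᵥ x = 0) ∧ 4 ∣ nz x => hB h.2), mul_zero]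
    · rw [if_neg hA, if_neg (fun h : (∀ a, u a ⬝ᵥ x = 0) ∧ 4 ∣ nz x => hA h.1), zero_mul]
  have h5 : ∑ k ∈ Finset.range 4, ∑ c : Fin l → ZMod 2,
      ∏ v, (1 + P2Wt_sg ((∑ a, c a • u a) v) * Complex.I ^ k) =
      ∑ x : V → ZMod 2, ∑ k ∈ Finset.range 4, ∑ c : Fin l → ZMod 2,
        P2Wt_sg ((∑ a, c a • u a) ⬝ᵥ x) * (Complex.I ^ k) ^ nz x := by
    rw [Finset.sum_comm (s := (Finset.univ : Finset (V → ZMod 2)))]
    refine Finset.sum_congr rfl fun k _ => ?_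
    rw [Finset.sum_comm (s := (Finset.univ : Finset (V → ZMod 2)))]
    exact Finset.sum_congr rfl fun c _ => h1 k c
  rw [h5, Finset.sum_congr rfl fun x _ => h3 x, ← Finset.sum_filter, Finset.sum_const,
    nsmul_eq_mul]
  ring

theorem P2Wt_le_two (b : ZMod 2) (k : ℕ) : ‖(1 : ℂ) + P2Wt_sg b * Complex.I ^ k‖ ≤ 2 := by
  have h1 : ‖P2Wt_sg b * Complex.I ^ k‖ = 1 := by
    rw [norm_mul, norm_pow, Complex.norm_I, one_pow, mul_one]
    rcases P2Wt_cases b with rfl | rfl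
    · rw [P2Wt_sg_zero, norm_one]
    · rw [P2Wt_sg_one, norm_neg, norm_one]
  calc ‖(1 : ℂ) + P2Wt_sg b * Complex.I ^ k‖ ≤ ‖(1 : ℂ)‖ + ‖P2Wt_sg b * Complex.I ^ k‖ :=
        norm_add_le _ _
    _ = 2 := by
        rw [h1, norm_one]
        norm_num

theorem P2Wt_prod_le {V : Type*} [Fintype V] (y : V → ZMod 2) (k : ℕ) :
    ‖∏ v, ((1 : ℂ) + P2Wt_sg (y v) * Complex.I ^ k)‖ ≤ 2 ^ Fintype.card V := by
  rw [norm_prod]
  calc ∏ v, ‖(1 : ℂ) + P2Wt_sg (y v) * Complex.I ^ k‖ ≤ ∏ _v : V, (2 : ℝ) :=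
        Finset.prod_le_prod (fun _ _ => norm_nonneg _) fun v _ => P2Wt_le_two (y v) k
    _ = 2 ^ Fintype.card V := by rw [Finset.prod_const, Finset.card_univ]

theorem P2Wt_odd (b : ZMod 2) : ‖(1 : ℂ) + P2Wt_sg b * Complex.I ^ 1‖ = Real.sqrt 2 ∧
    ‖(1 : ℂ) + P2Wt_sg b * Complex.I ^ 3‖ = Real.sqrt 2 := by
  have hp : ‖(1 : ℂ) + Complex.I‖ = Real.sqrt 2 := by
    rw [Complex.norm_def]
    congr 1
    simp [Complex.normSq_apply]
    norm_num
  have hm : ‖(1 : ℂ) - Complex.I‖ = Real.sqrt 2 := by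
    rw [Complex.norm_def]
    congr 1
    simp [Complex.normSq_apply]
    norm_num
  have hI3 : Complex.I ^ 3 = -Complex.I := Complex.I_pow_three
  rcases P2Wt_cases b with rfl | rfl
  · rw [P2Wt_sg_zero, one_mul, one_mul, pow_one, hI3]
    exact ⟨hp, by rw [← sub_eq_add_neg]; exact hm⟩
  · rw [P2Wt_sg_one, pow_one, hI3]
    refine ⟨?_, ?_⟩
    · rw [neg_one_mul, ← sub_eq_add_neg]
      exact hm
    · rw [neg_one_mul, neg_neg]
      exact hp

theorem p2_card_dbl {V : Type*} [Fintype V] [DecidableEq V] {l : ℕ} (u : Fin l → V → ZMod 2)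
    (hu : LinearIndependent (ZMod 2) u) :
    4 * 2 ^ l * (((Finset.univ : Finset (V → ZMod 2)).filter
      (fun x => (∀ a, u a ⬝ᵥ x = 0) ∧ 4 ∣ nz x)).card : ℝ) ≤
    2 ^ Fintype.card V *
      (1 + if (fun _ => (1 : ZMod 2)) ∈ Submodule.span (ZMod 2) (Set.range u) then 1 else 0) +
    2 * 2 ^ l * (Real.sqrt 2) ^ Fintype.card V := by
  have hinj : ∀ c c' : Fin l → ZMod 2, ∑ a, c a • u a = ∑ a, c' a • u a → c = c' := by
    intro c c' h
    have h1 : ∑ a, (c a - c' a) • u a = 0 := by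
      simp only [sub_smul, Finset.sum_sub_distrib, h, sub_self]
    have h2 := Fintype.linearIndependent_iff.1 hu (fun a => c a - c' a) h1
    funext a
    exact sub_eq_zero.1 (h2 a)
  have hmain := P2Wt_main u
  have h1 : 4 * 2 ^ l * (((Finset.univ : Finset (V → ZMod 2)).filter
      (fun x => (∀ a, u a ⬝ᵥ x = 0) ∧ 4 ∣ nz x)).card : ℝ) ≤
      ∑ k ∈ Finset.range 4, ∑ c : Fin l → ZMod 2,
        ‖∏ v, (1 + P2Wt_sg ((∑ a, c a • u a) v) * Complex.I ^ k)‖ := by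
    have h2 : ‖(4 * 2 ^ l * (((Finset.univ : Finset (V → ZMod 2)).filter
        (fun x => (∀ a, u a ⬝ᵥ x = 0) ∧ 4 ∣ nz x)).card : ℂ))‖ =
        4 * 2 ^ l * (((Finset.univ : Finset (V → ZMod 2)).filter
        (fun x => (∀ a, u a ⬝ᵥ x = 0) ∧ 4 ∣ nz x)).card : ℝ) := by
      rw [norm_mul, norm_mul, norm_pow, Complex.norm_natCast]
      norm_num
    rw [← h2, hmain]
    refine le_trans (norm_sum_le _ _) (Finset.sum_le_sum fun k _ => norm_sum_le _ _)
  refine h1.trans ?_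
  rw [Finset.sum_range_succ, Finset.sum_range_succ, Finset.sum_range_succ, Finset.sum_range_one]
  -- the four sums
  have t0 : ∑ c : Fin l → ZMod 2,
      ‖∏ v, (1 + P2Wt_sg ((∑ a, c a • u a) v) * Complex.I ^ 0)‖ ≤ 2 ^ Fintype.card V := by
    rw [Finset.sum_eq_single (0 : Fin l → ZMod 2)]
    · exact P2Wt_prod_le _ 0
    · intro c _ hc
      have h3 : (∑ a, c a • u a) ≠ 0 := by
        intro h4
        apply hc
        apply hinj
        rw [h4]
        simp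
      obtain ⟨v, hv⟩ := Function.ne_iff.1 h3
      rw [norm_eq_zero]
      apply Finset.prod_eq_zero (Finset.mem_univ v)
      rw [(P2Wt_cases _).resolve_left hv, P2Wt_sg_one]
      norm_num
    · intro h
      exact absurd (Finset.mem_univ _) h
  have t2 : ∑ c : Fin l → ZMod 2,
      ‖∏ v, (1 + P2Wt_sg ((∑ a, c a • u a) v) * Complex.I ^ 2)‖ ≤ 2 ^ Fintype.card V *
      (if (fun _ => (1 : ZMod 2)) ∈ Submodule.span (ZMod 2) (Set.range u) then 1 else 0) := by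
    have hz : ∀ c : Fin l → ZMod 2, (∑ a, c a • u a) ≠ (fun _ => (1 : ZMod 2)) →
        ‖∏ v, (1 + P2Wt_sg ((∑ a, c a • u a) v) * Complex.I ^ 2)‖ = 0 := by
      intro c hc
      obtain ⟨v, hv⟩ := Function.ne_iff.1 hc
      rw [norm_eq_zero]
      apply Finset.prod_eq_zero (Finset.mem_univ v)
      rw [(P2Wt_cases _).resolve_right hv, P2Wt_sg_zero, Complex.I_sq]
      norm_num
    split_ifs with h
    · rw [Submodule.mem_span_range_iff_exists_fun] at h
      obtain ⟨c0, hc0⟩ := h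
      rw [Finset.sum_eq_single c0, mul_one]
      · exact P2Wt_prod_le _ 2
      · intro c _ hc
        apply hz
        intro h4
        exact hc (hinj _ _ (h4.trans hc0.symm))
      · intro h
        exact absurd (Finset.mem_univ _) h
    · rw [mul_zero]
      apply le_of_eq
      apply Finset.sum_eq_zero
      intro c _
      apply hz
      intro h4
      exact h (Submodule.mem_span_range_iff_exists_fun (ZMod 2) |>.2 ⟨c, h4⟩)
  have hcard : Fintype.card (Fin l → ZMod 2) = 2 ^ l := by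
    rw [Fintype.card_fun, Fintype.card_fin]
    rfl
  have t1 : ∑ c : Fin l → ZMod 2,
      ‖∏ v, (1 + P2Wt_sg ((∑ a, c a • u a) v) * Complex.I ^ 1)‖ =
      2 ^ l * (Real.sqrt 2) ^ Fintype.card V := by
    have h3 : ∀ c : Fin l → ZMod 2,
        ‖∏ v, (1 + P2Wt_sg ((∑ a, c a • u a) v) * Complex.I ^ 1)‖ =
        (Real.sqrt 2) ^ Fintype.card V := by
      intro c
      rw [norm_prod, Finset.prod_congr rfl fun v _ => (P2Wt_odd _).1, Finset.prod_const,
        Finset.card_univ]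
    rw [Finset.sum_congr rfl fun c _ => h3 c, Finset.sum_const, Finset.card_univ, hcard,
      nsmul_eq_mul]
    push_cast
    ring
  have t3 : ∑ c : Fin l → ZMod 2,
      ‖∏ v, (1 + P2Wt_sg ((∑ a, c a • u a) v) * Complex.I ^ 3)‖ =
      2 ^ l * (Real.sqrt 2) ^ Fintype.card V := by
    have h3 : ∀ c : Fin l → ZMod 2,
        ‖∏ v, (1 + P2Wt_sg ((∑ a, c a • u a) v) * Complex.I ^ 3)‖ =
        (Real.sqrt 2) ^ Fintype.card V := by
      intro c
      rw [norm_prod, Finset.prod_congr rfl fun v _ => (P2Wt_odd _).2, Finset.prod_const,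
        Finset.card_univ]
    rw [Finset.sum_congr rfl fun c _ => h3 c, Finset.sum_const, Finset.card_univ, hcard,
      nsmul_eq_mul]
    push_cast
    ring
  rw [t1, t3]
  linarith

end Pool.Agent.H10.DG
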