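import Pool.Agent.H10.DG.Defs

/-!
# DG-A3: from spectra of graphs on any finite vertex set to `GenCo`

`spec G` is the multiset of the (complex) eigenvalues of the adjacency matrix, the roots of the
characteristic polynomial with multiplicity.

PROOF of `dgs_of`.  The number of elements of `spec H` is `card W` (the characteristic polynomial is
monic of degree `card W` and splits over `ℂ`: `IsAlgClosed.splits`, `Polynomial.splits_iff_card_roots`), so
`card W = n`; take `e : W ≃ Fin n` and `H' = e.simpleGraph H` (`H' ≃g H`).  The characteristic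
polynomial of `H'` and of `H'ᶜ` are those of `H`, `Hᶜ` (`Matrix.charpoly_reindex`; the complement of
`H'` is the image of the complement of `H`).  A monic polynomial over `ℂ` is determined by its
roots (`Polynomial.eq_prod_roots_of_monic_of_splits_id` or similar), so the characteristic polynomials of
`G`, `H'` over `ℂ` are equal, and so are those of `Gᶜ`, `H'ᶜ`.  They are the images of the integral
ones (`Matrix.charpoly_map`, `adj ℤ G` mapped to `ℂ` is `G.adjMatrix ℂ`; decidability instances by
`convert`/`ext`), and `Polynomial.map_injective`; so `GenCo G H'` and `h` gives `G ≃g H' ≃g H`.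
-/

set_option autoImplicit false

open Classical in
/-- the spectrum of a graph: the multiset of the eigenvalues of its adjacency matrix -/
noncomputable def Pool.Agent.H10.DG.spec {V : Type} [Fintype V] (G : SimpleGraph V) :
    Multiset ℂ :=
  (G.adjMatrix ℂ).charpoly.roots

namespace Pool.Agent.H10.DG

open Matrix Pool.Agent.H66.SP Pool.Agent.H95.SQ

theorem Spec_roots {V : Type} [Fintype V] [inst : DecidableEq V] (G : SimpleGraph V) :
    spec G = ((adj ℤ G).charpoly.map (Int.castRingHom ℂ)).roots := by
  obtain rfl : inst = fun a b => Classical.propDecidable (a = b) := Subsingleton.elim _ _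
  unfold spec
  have e : (@SimpleGraph.adjMatrix ℂ V G (fun a b => Classical.propDecidable (G.Adj a b)) _ _) =
      (adj ℤ G).map (Int.castRingHom ℂ) := by
    ext i j
    by_cases h : G.Adj i j
    · simp [adj, h]
    · simp [adj, h]
  rw [e]
  let : DecidableEq V := fun a b => Classical.propDecidable (a = b)
  exact congrArg Polynomial.roots (Matrix.charpoly_map (adj ℤ G) (Int.castRingHom ℂ))

theorem Spec_card {V : Type} [Fintype V] [DecidableEq V] (G : SimpleGraph V) :
    Multiset.card (spec G) = Fintype.card V := by
  rw [Spec_roots]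
  have h := Polynomial.splits_iff_card_roots.1
    (IsAlgClosed.splits ((adj ℤ G).charpoly.map (Int.castRingHom ℂ)))
  rw [h, (Matrix.charpoly_monic _).natDegree_map, Matrix.charpoly_natDegree_eq_dim]

theorem Spec_poly (P Q : Polynomial ℤ) (hP : P.Monic) (hQ : Q.Monic)
    (h : (P.map (Int.castRingHom ℂ)).roots = (Q.map (Int.castRingHom ℂ)).roots) : P = Q := by
  apply Polynomial.map_injective (Int.castRingHom ℂ) (RingHom.injective_int _)
  rw [(IsAlgClosed.splits (P.map (Int.castRingHom ℂ))).eq_prod_roots_of_monic (hP.map _),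
    (IsAlgClosed.splits (Q.map (Int.castRingHom ℂ))).eq_prod_roots_of_monic (hQ.map _), h]

theorem Spec_char {V W : Type} [Fintype V] [DecidableEq V] [Fintype W] [DecidableEq W]
    (G : SimpleGraph V) (H : SimpleGraph W) (h : spec H = spec G) :
    (adj ℤ G).charpoly = (adj ℤ H).charpoly := by
  rw [Spec_roots, Spec_roots] at h
  exact Spec_poly _ _ (Matrix.charpoly_monic _) (Matrix.charpoly_monic _) h.symm

theorem Spec_comap {V W : Type} [Fintype V] [DecidableEq V] [Fintype W] [DecidableEq W]
    (e : W ≃ V) (H : SimpleGraph W) :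
    (adj ℤ (H.comap e.symm)).charpoly = (adj ℤ H).charpoly := by
  rw [← Matrix.charpoly_reindex e (adj ℤ H)]
  rfl

theorem Spec_compl {V W : Type} (e : W ≃ V) (H : SimpleGraph W) :
    (H.comap e.symm)ᶜ = (Hᶜ).comap e.symm := by
  ext x y
  simp

theorem dgs_of {n : ℕ} (G : SimpleGraph (Fin n))
    (h : ∀ H : SimpleGraph (Fin n), GenCo G H → Nonempty (G ≃g H)) (W : Type) [Fintype W]
    (H : SimpleGraph W) (h1 : spec H = spec G) (h2 : spec Hᶜ = spec Gᶜ) : Nonempty (G ≃g H) := by
  have : DecidableEq W := Classical.decEq W
  have hc : Fintype.card W = n := by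
    rw [← Spec_card H, h1, Spec_card, Fintype.card_fin]
  have e : W ≃ Fin n := Fintype.equivFinOfCardEq hc
  obtain ⟨φ⟩ := h (H.comap e.symm) ⟨by rw [Spec_comap]; exact Spec_char G H h1, by
    rw [Spec_compl, Spec_comap]; exact Spec_char Gᶜ Hᶜ h2⟩
  exact ⟨φ.trans (SimpleGraph.Iso.comap e.symm H)⟩

end Pool.Agent.H10.DG
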