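import Pool.Agent.H66.DG.AsmF
import Pool.Agent.H10.DG.Spec
import Pool.Agent.H95.DL.Main

/-!
# Almost all graphs are determined by their generalized spectrum (Haemers' conjecture)
-/

set_option autoImplicit false

namespace Pool.Agent.H10.DG

open Matrix Pool.Agent.H66.SP Pool.Agent.H95.SQ Pool.Agent.H66.DG

/-- the conclusion for any property which holds for the graphs of `almost_all` -/
theorem tendsto_of (P : ∀ n : ℕ, SimpleGraph (Fin n) → Prop)
    (hP : ∀ n (G : SimpleGraph (Fin n)),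
      (∀ H : SimpleGraph (Fin n), GenCo G H → Nonempty (G ≃g H)) → P n G)
    (h : ∀ ε : ℝ, 0 < ε → ∃ n₀ : ℕ, ∀ n : ℕ, n₀ ≤ n →
      cg n (fun G => ¬ ∀ H : SimpleGraph (Fin n), GenCo G H → Nonempty (G ≃g H)) ≤ ε * ng n) :
    Filter.Tendsto (fun n : ℕ => (Nat.card {G : SimpleGraph (Fin n) // P n G} : ℝ) /
      (Nat.card (SimpleGraph (Fin n)) : ℝ)) Filter.atTop (nhds 1) := by
  classical
  rw [Metric.tendsto_atTop]
  intro ε hε
  obtain ⟨n₀, hn₀⟩ := h (ε / 2) (by positivity)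
  refine ⟨n₀, fun n hn => ?_⟩
  have h1 := hn₀ n hn
  have hng : ((Nat.card (SimpleGraph (Fin n)) : ℕ) : ℝ) = ng n := by
    rw [Nat.card_eq_fintype_card]
    rfl
  have hpos := ng_pos n
  have h2 : ng n ≤ cg n (P n) +
      cg n (fun G => ¬ ∀ H : SimpleGraph (Fin n), GenCo G H → Nonempty (G ≃g H)) := by
    have h3 := cg_or n (P n)
      (fun G => ¬ ∀ H : SimpleGraph (Fin n), GenCo G H → Nonempty (G ≃g H))
    refine le_trans (le_of_eq ?_) h3
    rw [cg_eq, Finset.filter_true_of_mem]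
    · rfl
    · intro G _
      by_cases hG : ∀ H : SimpleGraph (Fin n), GenCo G H → Nonempty (G ≃g H)
      · exact Or.inl (hP n G hG)
      · exact Or.inr hG
  have h4 : cg n (P n) ≤ ng n := cg_le_ng n _
  have h5 : ((Nat.card {G : SimpleGraph (Fin n) // P n G} : ℕ) : ℝ) = cg n (P n) := rfl
  rw [h5, hng, Real.dist_eq, abs_sub_lt_iff]
  have h6 : cg n (P n) / ng n ≤ 1 := by rwa [div_le_one hpos]
  have h7 : 1 - ε / 2 ≤ cg n (P n) / ng n := by
    rw [le_div_iff₀ hpos]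
    nlinarith
  constructor <;> linarith

open Classical in
theorem stL : StL := by
  intro ε hε
  obtain ⟨n₀, h⟩ := Pool.Agent.H95.DL.IL ε hε
  refine ⟨n₀, fun n hn => ?_⟩
  refine le_trans ?_ ((h n hn).trans (le_of_eq (by ring)))
  refine Nat.cast_le.mpr (Finset.card_le_card fun x hx => ?_)
  rw [Finset.mem_filter] at hx ⊢
  obtain ⟨hx1, p, hp, hN, μ, w, h1, h2, h3, h4⟩ := hx
  exact ⟨hx1, p, hp, μ, w, hN, h1, h2, h3, h4⟩

open Classical in
theorem stLC : StLC := by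
  intro ε hε
  obtain ⟨n₀, h⟩ := Pool.Agent.H95.DL.ILC ε hε
  refine ⟨n₀, fun n hn => ?_⟩
  refine le_trans ?_ ((h n hn).trans (le_of_eq (by ring)))
  refine Nat.cast_le.mpr (Finset.card_le_card fun x hx => ?_)
  rw [Finset.mem_filter] at hx ⊢
  obtain ⟨hx1, μ, w, h1, h2, h3⟩ := hx
  exact ⟨hx1, μ, w, h1, h2, h3⟩

end Pool.Agent.H10.DG
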