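import Pool.Agent.H10.DG.SRec

/-!
# DG-D6: pairs (graph, sign vector), one prime

PROOF.  The number of the pairs is the sum over `G` of the number of `b`
(`Finset.card_filter`, `Fintype.sum_prod_type`).  Let `P G` be as in `card_seimult`.  The `G` with
`¬ P G` contribute at most `2^n` each: `card_seimult`.  The `G` with `P G`: `card_sei_step`
(`mem_eig`).
-/

set_option autoImplicit false

namespace Pool.Agent.H10.DG

open Matrix Classical Pool.Agent.H66.SP Pool.Agent.H95.SQ Pool.Agent.H95.DL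

theorem card_bad_pair (p : ℕ) [Fact p.Prime] (hp : p ≠ 2) (d n : ℕ) :
    ((Finset.univ : Finset (SimpleGraph (Fin n) × (Fin n → Bool))).filter
      (fun x => ∃ μ : KK p, d ≤ dg p μ ∧ ∃ w : Fin n → KK p, w ≠ 0 ∧
        sei (KK p) x.1 *ᵥ w = μ • w ∧ sv (KK p) x.2 ⬝ᵥ w = 0)).card * 2 ^ d ≤
      (n * n + n) * 2 ^ n * Fintype.card (SimpleGraph (Fin n)) := by
  set Bd : SimpleGraph (Fin n) → Finset (Fin n → Bool) := fun G =>
    (Finset.univ : Finset (Fin n → Bool)).filter (fun b => ∃ μ : KK p, d ≤ dg p μ ∧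
      ∃ w : Fin n → KK p, w ≠ 0 ∧ sei (KK p) G *ᵥ w = μ • w ∧ sv (KK p) b ⬝ᵥ w = 0) with hBd
  have h1 : ((Finset.univ : Finset (SimpleGraph (Fin n) × (Fin n → Bool))).filter
      (fun x => ∃ μ : KK p, d ≤ dg p μ ∧ ∃ w : Fin n → KK p, w ≠ 0 ∧
        sei (KK p) x.1 *ᵥ w = μ • w ∧ sv (KK p) x.2 ⬝ᵥ w = 0)).card = ∑ G, (Bd G).card := by
    rw [Finset.card_filter, Fintype.sum_prod_type]
    refine Finset.sum_congr rfl (fun G _ => ?_)
    rw [hBd, Finset.card_filter]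
  rw [h1, Finset.sum_mul]
  have hg : ∀ G, (∀ μ : KK p, d ≤ dg p μ → mult (sei (KK p) G) μ ≤ 1) →
      (Bd G).card * 2 ^ d ≤ n * 2 ^ n := by
    intro G hG
    have h := card_sei_step hp d G hG
    rw [Fintype.card_fin] at h
    refine le_trans (Nat.mul_le_mul_right _ (Finset.card_le_card ?_)) h
    intro b hb
    rw [hBd, Finset.mem_filter] at hb
    rw [Finset.mem_filter]
    obtain ⟨_, μ, hμ, w, hw, hw2, hw3⟩ := hb
    exact ⟨Finset.mem_univ _, μ, hμ, w, hw, (mem_eig _ _ _).mpr hw2, hw3⟩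
  have hbad : ∀ G, (Bd G).card * 2 ^ d ≤ 2 ^ n * 2 ^ d := by
    intro G
    refine Nat.mul_le_mul_right _ ?_
    refine (Finset.card_le_univ _).trans ?_
    rw [Fintype.card_fun, Fintype.card_bool, Fintype.card_fin]
  rw [← Finset.sum_filter_add_sum_filter_not Finset.univ
    (fun G : SimpleGraph (Fin n) => ¬ ∀ μ : KK p, d ≤ dg p μ → mult (sei (KK p) G) μ ≤ 1)]
  have s1 : ∑ G ∈ (Finset.univ : Finset (SimpleGraph (Fin n))).filter
      (fun G => ¬ ∀ μ : KK p, d ≤ dg p μ → mult (sei (KK p) G) μ ≤ 1), (Bd G).card * 2 ^ d ≤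
      (n * n * Fintype.card (SimpleGraph (Fin n))) * 2 ^ n := by
    refine (Finset.sum_le_card_nsmul _ _ _ (fun G _ => hbad G)).trans ?_
    rw [smul_eq_mul]
    calc _ = ((Finset.univ : Finset (SimpleGraph (Fin n))).filter
          (fun G => ¬ ∀ μ : KK p, d ≤ dg p μ → mult (sei (KK p) G) μ ≤ 1)).card * 2 ^ d * 2 ^ n := by
          ring
      _ ≤ _ := Nat.mul_le_mul_right _ (card_seimult p hp d n)
  have s2 : ∑ G ∈ (Finset.univ : Finset (SimpleGraph (Fin n))).filter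
      (fun G => ¬ ¬ ∀ μ : KK p, d ≤ dg p μ → mult (sei (KK p) G) μ ≤ 1), (Bd G).card * 2 ^ d ≤
      Fintype.card (SimpleGraph (Fin n)) * (n * 2 ^ n) := by
    refine (Finset.sum_le_card_nsmul _ _ (n * 2 ^ n) (fun G hG => ?_)).trans ?_
    · rw [Finset.mem_filter, not_not] at hG
      exact hg G hG.2
    · rw [smul_eq_mul]
      exact Nat.mul_le_mul_right _ (Finset.card_le_univ _)
  calc _ ≤ (n * n * Fintype.card (SimpleGraph (Fin n))) * 2 ^ n +
        Fintype.card (SimpleGraph (Fin n)) * (n * 2 ^ n) := Nat.add_le_add s1 s2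
    _ = _ := by ring

end Pool.Agent.H10.DG
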