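import Pool.Agent.H95.DL.Defs

/-!
# DG-D3: adding one vertex, Seidel matrices

PROOF (compare `Pool/Agent/H66/SP/Inter.lean`).  For `z ∈ eig (sei K (ext G b)) μ`, write
`x = z ∘ inl`, `t = z (inr ())`: `sei K G *ᵥ x + t • sv K b = μ • x` and `sv K b ⬝ᵥ x = μ * t`
(`sei K (ext G b)` has the blocks `sei K G`, `sv K b`, `0`).  The linear functional
`z ↦ z (inr ())` on the space `eig (sei K (ext G b)) μ` of dimension `≥ 2` has a nonzero `z` in its
kernel; then `x` is nonzero, in `eig (sei K G) μ`, and `sv K b ⬝ᵥ x = 0`.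
-/

set_option autoImplicit false

namespace Pool.Agent.H10.DG

open Matrix Classical Pool.Agent.H66.SP Pool.Agent.H95.SQ Pool.Agent.H95.DL

theorem sei_ext_inl {K : Type*} [Field K] {V : Type*} [Fintype V] (G : SimpleGraph V)
    (b : V → Bool) (z : V ⊕ Unit → K) (v : V) :
    (sei K (ext G b) *ᵥ z) (Sum.inl v) =
      (sei K G *ᵥ (fun u => z (Sum.inl u))) v + sv K b v * z (Sum.inr ()) := by
  simp [Matrix.mulVec, dotProduct, Fintype.sum_sum_type, sei, Pool.Agent.H66.SP.ext, glue, sv]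

theorem sei_ext_inr {K : Type*} [Field K] {V : Type*} [Fintype V] (G : SimpleGraph V)
    (b : V → Bool) (z : V ⊕ Unit → K) :
    (sei K (ext G b) *ᵥ z) (Sum.inr ()) = sv K b ⬝ᵥ (fun u => z (Sum.inl u)) := by
  simp [Matrix.mulVec, dotProduct, Fintype.sum_sum_type, sei, Pool.Agent.H66.SP.ext, glue, sv]
  refine Finset.sum_congr rfl (fun i _ => ?_)
  by_cases hb : b i = true
  · rw [if_pos hb, if_pos hb]
  · rw [if_neg hb, if_neg hb]

theorem exists_of_mult_ext {K : Type*} [Field K] {V : Type*} [Fintype V] (G : SimpleGraph V)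
    (b : V → Bool) (μ : K) (h : 1 < mult (sei K (ext G b)) μ) :
    ∃ x : V → K, x ≠ 0 ∧ x ∈ eig (sei K G) μ ∧ sv K b ⬝ᵥ x = 0 := by
  set f : eig (sei K (ext G b)) μ →ₗ[K] K :=
    (LinearMap.proj (Sum.inr ())).comp (Submodule.subtype _) with hf
  have h1 := LinearMap.finrank_range_add_finrank_ker f
  have h2 : Module.finrank K (LinearMap.range f) ≤ 1 := by
    have := Submodule.finrank_le (LinearMap.range f)
    rwa [Module.finrank_self] at this
  have h3 : LinearMap.ker f ≠ ⊥ := by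
    intro h0
    rw [h0, finrank_bot] at h1
    unfold mult at h
    omega
  obtain ⟨z, hz, hz0⟩ := (Submodule.ne_bot_iff _).1 h3
  have hk : (z : V ⊕ Unit → K) (Sum.inr ()) = 0 := LinearMap.mem_ker.1 hz
  have he := (mem_eig _ _ _).1 z.2
  refine ⟨fun u => (z : V ⊕ Unit → K) (Sum.inl u), ?_, ?_, ?_⟩
  · intro hx
    apply hz0
    apply Subtype.ext
    ext w
    rcases w with u | ⟨⟩
    · exact congrFun hx u
    · exact hk
  · rw [mem_eig]
    ext v
    have h4 := congrFun he (Sum.inl v)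
    rw [sei_ext_inl, hk, mul_zero, add_zero] at h4
    rw [h4]
    rfl
  · have h4 := congrFun he (Sum.inr ())
    rw [sei_ext_inr] at h4
    rw [h4]
    simp [hk]

end Pool.Agent.H10.DG
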