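import Pool.Agent.H10.DG.STrans
import Pool.Agent.H10.DG.SInt
import Pool.Agent.H66.SP.Rec

/-!
# DG-D5: multiplicities of the eigenvalues of large degree are at most one

PROOF (compare `rec_aux`, `rec_card_equiv`, `rec_card_step`, `rec_card_succ` in
`Pool/Agent/H66/SP/Rec.lean`; `card_filter_glue`).  Induction on `n`; put
`P_V G := ∀ μ : KK p, d ≤ dg p μ → mult (sei (KK p) G) μ ≤ 1`.  `n = 0`: all multiplicities are `0`.
Step: `P` is invariant under graph isomorphisms (`sei` permuted), so the number `B (n+1)` of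
bad graphs on `Fin (n+1)` is the sum over `G : SimpleGraph (Fin n)` of the number of `b` with
`¬ P (ext G b)` (as in `rec_card_step`).  If `¬ P G` this number is at most `2^n`.  If `P G` and
`¬ P (ext G b)` then by `exists_of_mult_ext` `b` is in the set of `card_sei_step`, so the number
of `b`, times `2^d`, is at most `n 2^n`.  With `g n = card (SimpleGraph (Fin n))`,
`g (n+1) = g n * 2^n` (`rec_card_succ`):
`B (n+1) 2^d ≤ B n 2^d 2^n + g n n 2^n ≤ (n * n + n) g n 2^n ≤ (n+1) * (n+1) * g (n+1)`.
-/

set_option autoImplicit false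

namespace Pool.Agent.H10.DG

open Matrix Classical Pool.Agent.H66.SP Pool.Agent.H95.SQ Pool.Agent.H95.DL

theorem srec_adj {K : Type*} [Ring K] {V W : Type*} {G : SimpleGraph V}
    {H : SimpleGraph W} (φ : G ≃g H) (u v : V) : sei K H (φ u) (φ v) = sei K G u v := by
  simp only [sei, Matrix.of_apply, φ.map_adj_iff]
  by_cases h : u = v
  · subst h
    simp
  · have h' : ¬ φ u = φ v := fun hh => h (φ.injective hh)
    simp only [h, h', if_false]

theorem srec_mulVec {K : Type*} [Ring K] {V W : Type*} [Fintype V] [Fintype W]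
    {G : SimpleGraph V} {H : SimpleGraph W} (φ : G ≃g H) (x : V → K) :
    sei K H *ᵥ (x ∘ φ.symm) = (sei K G *ᵥ x) ∘ φ.symm := by
  funext w
  change ∑ z : W, sei K H w z * x (φ.symm z) = ∑ v : V, sei K G (φ.symm w) v * x v
  rw [← φ.toEquiv.sum_comp (fun z => sei K H w z * x (φ.symm z))]
  refine Finset.sum_congr rfl fun v _ => ?_
  change sei K H w (φ v) * x (φ.symm (φ v)) = _
  rw [φ.symm_apply_apply]
  have h1 := srec_adj (K := K) φ (φ.symm w) v
  rw [φ.apply_symm_apply] at h1
  rw [h1]

theorem srec_mult_iso {K : Type*} [Field K] {V W : Type*} [Fintype V] [Fintype W]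
    {G : SimpleGraph V} {H : SimpleGraph W} (φ : G ≃g H) (μ : K) :
    mult (sei K G) μ = mult (sei K H) μ := by
  have e1 : eig (sei K H) μ = (eig (sei K G) μ).map
      (LinearEquiv.funCongrLeft K K φ.symm.toEquiv : (V → K) →ₗ[K] (W → K)) := by
    ext y
    rw [Submodule.mem_map, mem_eig]
    constructor
    · intro hy
      refine ⟨y ∘ φ, ?_, ?_⟩
      · rw [mem_eig]
        have h1 := srec_mulVec (K := K) φ.symm y
        have h2 : (y ∘ φ.symm.symm) = y ∘ φ := rfl
        rw [h2] at h1
        rw [h1, hy]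
        rfl
      · funext w
        change y (φ (φ.symm w)) = y w
        rw [φ.apply_symm_apply]
    · rintro ⟨x, hx, rfl⟩
      rw [mem_eig] at hx
      have h1 := srec_mulVec (K := K) φ x
      change sei K H *ᵥ (x ∘ φ.symm) = μ • (x ∘ φ.symm)
      rw [h1, hx]
      rfl
  unfold mult
  rw [e1]
  exact (LinearEquiv.finrank_map_eq (LinearEquiv.funCongrLeft K K φ.symm.toEquiv) _).symm

theorem srec_card_equiv {V W : Type*} [Fintype V] [Fintype W] [DecidableEq V] [DecidableEq W]
    (e : V ≃ W) (P : SimpleGraph V → Prop) (P' : SimpleGraph W → Prop)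
    (h : ∀ G, P G ↔ P' (e.simpleGraph G)) :
    ((Finset.univ : Finset (SimpleGraph V)).filter P).card =
      ((Finset.univ : Finset (SimpleGraph W)).filter P').card := by
  refine Finset.card_equiv e.simpleGraph (fun G => ?_)
  simp only [Finset.mem_filter, Finset.mem_univ, true_and]
  exact h G

theorem srec_card_step (k : ℕ) (P : SimpleGraph (Fin (k + 1)) → Prop)
    (P' : SimpleGraph (Fin k ⊕ Unit) → Prop)
    (h : ∀ G, P G ↔ P' ((finSuccEquivLast.trans
      (Equiv.optionEquivSumPUnit.{0} (Fin k))).simpleGraph G)) :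
    ((Finset.univ : Finset (SimpleGraph (Fin (k + 1)))).filter P).card =
      ∑ G : SimpleGraph (Fin k), ((Finset.univ : Finset (Fin k → Bool)).filter
        (fun b => P' (ext G b))).card := by
  have h1 : ((Finset.univ : Finset (SimpleGraph (Fin k ⊕ Unit))).filter P').card =
      ∑ G : SimpleGraph (Fin k), ∑ H : SimpleGraph Unit,
        ((Finset.univ : Finset (Unit → Fin k → Bool)).filter
          (fun b => P' (glue G b H))).card := by
    convert card_filter_glue (V := Fin k) (R := Unit) P'
  rw [srec_card_equiv _ P P' h, h1]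
  refine Finset.sum_congr rfl (fun G _ => ?_)
  rw [Finset.sum_eq_single (⊥ : SimpleGraph Unit)]
  · refine Finset.card_equiv (Equiv.funUnique Unit (Fin k → Bool)) (fun b => ?_)
    simp only [Finset.mem_filter, Finset.mem_univ, true_and]
    have h : glue G b ⊥ = Pool.Agent.H66.SP.ext G ((Equiv.funUnique Unit (Fin k → Bool)) b) := by
      unfold Pool.Agent.H66.SP.ext
      congr 1
    rw [h]
  · intro H _ hH
    exact absurd (rec_unit H) hH
  · intro h
    exact absurd (Finset.mem_univ _) h

theorem card_seimult (p : ℕ) [Fact p.Prime] (hp : p ≠ 2) (d n : ℕ) :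
    ((Finset.univ : Finset (SimpleGraph (Fin n))).filter
      (fun G => ¬ ∀ μ : KK p, d ≤ dg p μ → mult (sei (KK p) G) μ ≤ 1)).card * 2 ^ d ≤
      n * n * Fintype.card (SimpleGraph (Fin n)) := by
  induction n with
  | zero =>
    have h : (Finset.univ : Finset (SimpleGraph (Fin 0))).filter
        (fun G => ¬ ∀ μ : KK p, d ≤ dg p μ → mult (sei (KK p) G) μ ≤ 1) = ∅ := by
      rw [Finset.filter_eq_empty_iff]
      intro G _ h
      refine h fun μ _ => ?_
      have h : mult (sei (KK p) G) μ ≤ 0 := by
        unfold mult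
        refine (Submodule.finrank_le _).trans ?_
        simp
      omega
    rw [h]
    simp
  | succ k ih =>
    have hstep : ((Finset.univ : Finset (SimpleGraph (Fin (k + 1)))).filter
        (fun G => ¬ ∀ μ : KK p, d ≤ dg p μ → mult (sei (KK p) G) μ ≤ 1)).card =
        ∑ G : SimpleGraph (Fin k), ((Finset.univ : Finset (Fin k → Bool)).filter
          (fun b => ¬ ∀ μ : KK p, d ≤ dg p μ →
            mult (sei (KK p) (Pool.Agent.H66.SP.ext G b)) μ ≤ 1)).card := by
      convert srec_card_step k
        (fun G => ¬ ∀ μ : KK p, d ≤ dg p μ → mult (sei (KK p) G) μ ≤ 1)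
        (fun G => ¬ ∀ μ : KK p, d ≤ dg p μ → mult (sei (KK p) G) μ ≤ 1)
        (fun G => by
          have hi : ∀ μ : KK p, mult (sei (KK p) ((finSuccEquivLast.trans
              (Equiv.optionEquivSumPUnit.{0} (Fin k))).simpleGraph G)) μ =
              mult (sei (KK p) G) μ := fun μ =>
            srec_mult_iso (SimpleGraph.Iso.comap (finSuccEquivLast.trans
              (Equiv.optionEquivSumPUnit.{0} (Fin k))).symm G) μ
          simp only [hi])
    rw [hstep, rec_card_succ]
    have key : ∀ G : SimpleGraph (Fin k),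
        ((Finset.univ : Finset (Fin k → Bool)).filter
          (fun b => ¬ ∀ μ : KK p, d ≤ dg p μ → mult (sei (KK p) (ext G b)) μ ≤ 1)).card * 2 ^ d ≤
        (if ¬ ∀ μ : KK p, d ≤ dg p μ → mult (sei (KK p) G) μ ≤ 1 then 2 ^ k * 2 ^ d else 0) +
          k * 2 ^ k := by
      intro G
      by_cases hG : ∀ μ : KK p, d ≤ dg p μ → mult (sei (KK p) G) μ ≤ 1
      · rw [if_neg (not_not.mpr hG), zero_add]
        have h := card_sei_step hp d G hG
        rw [Fintype.card_fin] at h
        refine le_trans (Nat.mul_le_mul_right _ (Finset.card_le_card ?_)) h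
        intro b hb
        rw [Finset.mem_filter] at hb ⊢
        refine ⟨Finset.mem_univ _, ?_⟩
        have hb2 := hb.2
        push Not at hb2
        obtain ⟨μ, hμ, hm⟩ := hb2
        exact ⟨μ, hμ, exists_of_mult_ext G b μ hm⟩
      · rw [if_pos hG]
        have h : ((Finset.univ : Finset (Fin k → Bool)).filter
            (fun b => ¬ ∀ μ : KK p, d ≤ dg p μ → mult (sei (KK p) (ext G b)) μ ≤ 1)).card ≤
            2 ^ k := by
          refine (Finset.card_filter_le _ _).trans ?_
          rw [Finset.card_univ, Fintype.card_fun, Fintype.card_bool, Fintype.card_fin]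
        exact (Nat.mul_le_mul_right _ h).trans (Nat.le_add_right _ _)
    rw [Finset.sum_mul]
    refine (Finset.sum_le_sum (fun G _ => key G)).trans ?_
    rw [Finset.sum_add_distrib, ← Finset.sum_filter, Finset.sum_const, Finset.sum_const,
      smul_eq_mul, smul_eq_mul, Finset.card_univ]
    set g := Fintype.card (SimpleGraph (Fin k)) with hg
    set B := (Finset.univ.filter (fun G : SimpleGraph (Fin k) =>
      ¬ ∀ μ : KK p, d ≤ dg p μ → mult (sei (KK p) G) μ ≤ 1)).card with hB
    calc B * (2 ^ k * 2 ^ d) + g * (k * 2 ^ k) = (B * 2 ^ d) * 2 ^ k + g * (k * 2 ^ k) := by ring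
      _ ≤ (k * k * g) * 2 ^ k + g * (k * 2 ^ k) := Nat.add_le_add_right
          (Nat.mul_le_mul_right _ ih) _
      _ = (k * k + k) * (g * 2 ^ k) := by ring
      _ ≤ (k + 1) * (k + 1) * (g * 2 ^ k) := Nat.mul_le_mul_right _ (by nlinarith)

end Pool.Agent.H10.DG
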