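import Pool.Agent.H95.DL.Defs

/-!
# DG-D2: few sign vectors satisfy one equation over a large field

PROOF.  Take a subset `T` of `V` such that `(w v)_{v ∈ T}` is linearly independent over `ZMod p`
and `T.card = finrank (span (range w)) ≥ d` (`exists_linearIndependent` for the set `Set.range w`,
then choose preimages; or `exists_linearIndepOn_extension`/`LinearIndepOn`).  Two `b`, `b'` in
the set which agree outside `T` satisfy `∑ v ∈ T, (s_v - s'_v) w_v = 0` where
`s_v - s'_v ∈ {0, 2, -2}` is the cast of an element of `ZMod p`, so `s_v = s'_v` for `v ∈ T`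
(`2 ≠ 0` in `ZMod p` as `p ≠ 2`), so `b = b'`.  So the restriction to the complement of `T`
is injective on the set, which has at most `2 ^ (card V - T.card)` elements, and
`2 ^ (card V - T.card) * 2 ^ d ≤ 2 ^ card V`.
-/

set_option autoImplicit false

namespace Pool.Agent.H10.DG

open Matrix Classical Pool.Agent.H66.SP Pool.Agent.H95.SQ Pool.Agent.H95.DL

theorem card_sgn_le {p : ℕ} [Fact p.Prime] (hp : p ≠ 2) {V : Type*} [Fintype V] [DecidableEq V]
    (w : V → KK p) (c : KK p) (d : ℕ)
    (hd : d ≤ Module.finrank (ZMod p) (Submodule.span (ZMod p) (Set.range w))) :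
    ((Finset.univ : Finset (V → Bool)).filter (fun b => sv (KK p) b ⬝ᵥ w = c)).card * 2 ^ d ≤
      2 ^ Fintype.card V := by
  obtain ⟨B, -, -, hB, hli⟩ := exists_linearIndepOn_extension
    (linearIndepOn_empty (ZMod p) w) (Set.empty_subset (Set.univ : Set V))
  set T : Finset V := B.toFinset with hT
  have hmemT : ∀ v, v ∈ T ↔ v ∈ B := fun v => Set.mem_toFinset
  have hcard : Module.finrank (ZMod p) (Submodule.span (ZMod p) (Set.range w)) ≤ T.card := by
    have h1 : Submodule.span (ZMod p) (Set.range w) ≤ Submodule.span (ZMod p) ((T.image w : Finset (KK p)) : Set (KK p)) := by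
      rw [Submodule.span_le]
      rintro y ⟨v, rfl⟩
      have := hB ⟨v, Set.mem_univ v, rfl⟩
      have h2 : w '' B = ((T.image w : Finset (KK p)) : Set (KK p)) := by
        rw [Finset.coe_image, hT, Set.coe_toFinset]
      rw [← h2]
      exact this
    have : FiniteDimensional (ZMod p) (Submodule.span (ZMod p) ((T.image w : Finset (KK p)) : Set (KK p))) :=
      FiniteDimensional.span_finset _ _
    exact (Submodule.finrank_mono h1).trans ((finrank_span_finset_le_card _).trans Finset.card_image_le)
  have hdT : d ≤ T.card := hd.trans hcard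
  have hTV : T.card ≤ Fintype.card V := Finset.card_le_univ T
  -- injectivity of the restriction to the complement
  have hinj : Set.InjOn (fun (b : V → Bool) (v : {v // v ∉ T}) => b v.1)
      (((Finset.univ : Finset (V → Bool)).filter (fun b => sv (KK p) b ⬝ᵥ w = c)) : Set (V → Bool)) := by
    intro b hb b' hb' hbb
    rw [Finset.mem_coe, Finset.mem_filter] at hb hb'
    have hout : ∀ v, v ∉ T → b v = b' v := fun v hv => congrFun hbb ⟨v, hv⟩
    have hsum : ∑ v ∈ T, ((if b v = true then (-1 : ZMod p) else 1) - (if b' v = true then -1 else 1)) • w v = 0 := by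
      have h1 : sv (KK p) b ⬝ᵥ w - sv (KK p) b' ⬝ᵥ w = 0 := by rw [hb.2, hb'.2, sub_self]
      rw [← h1]
      unfold dotProduct
      rw [← Finset.sum_sub_distrib]
      rw [← Finset.sum_subset (Finset.subset_univ T)]
      · refine Finset.sum_congr rfl fun v _ => ?_
        unfold sv
        rw [sub_smul, ← sub_mul, sub_mul]
        congr 1
        · split_ifs <;> simp
        · split_ifs <;> simp
      · intro v _ hv
        unfold sv
        rw [hout v hv, sub_self]
    have hz := linearIndepOn_iff'.mp hli T (fun v => (if b v = true then (-1 : ZMod p) else 1) - (if b' v = true then -1 else 1))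
      (fun v hv => (hmemT v).mp (Finset.mem_coe.mp hv)) hsum
    funext v
    by_cases hv : v ∈ T
    · have h2 := hz v hv
      have h3 : (2 : ZMod p) ≠ 0 := by
        intro h
        have h4 : ((2 : ℕ) : ZMod p) = 0 := by exact_mod_cast h
        rw [ZMod.natCast_eq_zero_iff] at h4
        exact hp ((Nat.prime_dvd_prime_iff_eq (Fact.out : p.Prime) Nat.prime_two).mp h4)
      rcases hbv : b v with _ | _ <;> rcases hbv' : b' v with _ | _
      · rfl
      · exfalso
        apply h3
        simp only [hbv, hbv', Bool.false_eq_true, if_false, if_true] at h2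
        linear_combination h2
      · exfalso
        apply h3
        simp only [hbv, hbv', Bool.false_eq_true, if_false, if_true] at h2
        linear_combination -h2
      · rfl
    · exact hout v hv
  have hc : ((Finset.univ : Finset (V → Bool)).filter (fun b => sv (KK p) b ⬝ᵥ w = c)).card ≤
      2 ^ (Fintype.card V - T.card) := by
    have h1 := Finset.card_le_card_of_injOn (s := (Finset.univ : Finset (V → Bool)).filter (fun b => sv (KK p) b ⬝ᵥ w = c))
      (t := (Finset.univ : Finset ({v // v ∉ T} → Bool)))
      (fun (b : V → Bool) (v : {v // v ∉ T}) => b v.1) (fun _ _ => Finset.mem_univ _) hinj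
    refine h1.trans ?_
    rw [Finset.card_univ, Fintype.card_fun, Fintype.card_bool, Fintype.card_subtype_compl]
    simp
  calc _ ≤ 2 ^ (Fintype.card V - T.card) * 2 ^ T.card :=
        Nat.mul_le_mul hc (Nat.pow_le_pow_right (by norm_num) hdT)
    _ = 2 ^ Fintype.card V := by
        rw [← pow_add, Nat.sub_add_cancel hTV]

end Pool.Agent.H10.DG
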