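import Pool.Agent.H10.DG.SpanDg
import Pool.Agent.H10.DG.Sgn
import Pool.Agent.H66.SP.Eigs

/-!
# DG-D4: union bound over the eigenvalues of large degree and multiplicity one

PROOF.  By `card_eigs` there is a finset `S` of at most `card V` elements containing all
eigenvalues.  The set is contained in the union over `μ ∈ S` with `d ≤ dg p μ` and
`eig (sei (KK p) G) μ ≠ ⊥` of the sets `{b | sv b ⬝ᵥ w_μ = 0}`, where `w_μ` is a fixed nonzero
element of `eig (sei (KK p) G) μ`: as `mult ≤ 1`, every `x` in the eigenspace is a multiple of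
`w_μ`, `x = c • w_μ` with `c ≠ 0` (`finrank_le_one_iff` or `Module.finrank_eq_one_iff...`).  Each
of these sets satisfies `card * 2^d ≤ 2 ^ card V` by `card_sgn_le` and `dg_le_span`
(`sei (KK p) G = (sei (ZMod p) G).map (algebraMap _ _)`, entrywise: `0`, `-1`, `1`).
-/

set_option autoImplicit false

namespace Pool.Agent.H10.DG

open Matrix Classical Pool.Agent.H66.SP Pool.Agent.H95.SQ Pool.Agent.H95.DL

theorem STrans_map (p : ℕ) [Fact p.Prime] {V : Type*} (G : SimpleGraph V) :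
    (sei (ZMod p) G).map (algebraMap (ZMod p) (KK p)) = sei (KK p) G := by
  ext i j
  rw [Matrix.map_apply]
  unfold sei
  simp only [Matrix.of_apply]
  split_ifs <;> simp

theorem STrans_one {p : ℕ} [Fact p.Prime] (hp : p ≠ 2) {V : Type*} [Fintype V] [DecidableEq V]
    (d : ℕ) (G : SimpleGraph V)
    (hG : ∀ μ : KK p, d ≤ dg p μ → mult (sei (KK p) G) μ ≤ 1) (μ : KK p) :
    ((Finset.univ : Finset (V → Bool)).filter (fun b => d ≤ dg p μ ∧
      ∃ x : V → KK p, x ≠ 0 ∧ x ∈ eig (sei (KK p) G) μ ∧ sv (KK p) b ⬝ᵥ x = 0)).card * 2 ^ d ≤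
      2 ^ Fintype.card V := by
  by_cases hd : d ≤ dg p μ
  · obtain ⟨v, hv⟩ := finrank_le_one_iff.1 (hG μ hd)
    by_cases hv0 : (v : V → KK p) = 0
    · rw [Finset.card_eq_zero.2, zero_mul]
      · exact Nat.zero_le _
      · rw [Finset.filter_eq_empty_iff]
        rintro b - ⟨-, x, hx, hxe, -⟩
        obtain ⟨c, hc⟩ := hv ⟨x, hxe⟩
        have h1 : c • (v : V → KK p) = x := congrArg Subtype.val hc
        rw [hv0, smul_zero] at h1
        exact hx h1.symm
    · refine le_trans (Nat.mul_le_mul_right _ (Finset.card_le_card ?_))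
        (card_sgn_le hp (v : V → KK p) 0 d (hd.trans
          (dg_le_span p (sei (ZMod p) G) μ (v : V → KK p) hv0 ?_)))
      · intro b hb
        rw [Finset.mem_filter] at hb ⊢
        obtain ⟨-, -, x, hx, hxe, hbx⟩ := hb
        obtain ⟨c, hc⟩ := hv ⟨x, hxe⟩
        have h1 : c • (v : V → KK p) = x := congrArg Subtype.val hc
        have hc0 : c ≠ 0 := by
          rintro rfl
          rw [zero_smul] at h1
          exact hx h1.symm
        rw [← h1, dotProduct_smul, smul_eq_mul] at hbx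
        exact ⟨Finset.mem_univ _, (mul_eq_zero.1 hbx).resolve_left hc0⟩
      · rw [STrans_map]
        exact (mem_eig _ _ _).1 v.2
  · rw [Finset.card_eq_zero.2, zero_mul]
    · exact Nat.zero_le _
    · rw [Finset.filter_eq_empty_iff]
      rintro b - ⟨h, -⟩
      exact hd h

theorem card_sei_step {p : ℕ} [Fact p.Prime] (hp : p ≠ 2) {V : Type*} [Fintype V] [DecidableEq V]
    (d : ℕ) (G : SimpleGraph V)
    (hG : ∀ μ : KK p, d ≤ dg p μ → mult (sei (KK p) G) μ ≤ 1) :
    ((Finset.univ : Finset (V → Bool)).filter (fun b => ∃ μ : KK p, d ≤ dg p μ ∧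
      ∃ x : V → KK p, x ≠ 0 ∧ x ∈ eig (sei (KK p) G) μ ∧ sv (KK p) b ⬝ᵥ x = 0)).card * 2 ^ d ≤
      Fintype.card V * 2 ^ Fintype.card V := by
  obtain ⟨S, hS, hS2⟩ := card_eigs (sei (KK p) G)
  have h1 : ((Finset.univ : Finset (V → Bool)).filter (fun b => ∃ μ : KK p, d ≤ dg p μ ∧
      ∃ x : V → KK p, x ≠ 0 ∧ x ∈ eig (sei (KK p) G) μ ∧ sv (KK p) b ⬝ᵥ x = 0)) ⊆
      S.biUnion (fun μ => (Finset.univ : Finset (V → Bool)).filter (fun b => d ≤ dg p μ ∧
      ∃ x : V → KK p, x ≠ 0 ∧ x ∈ eig (sei (KK p) G) μ ∧ sv (KK p) b ⬝ᵥ x = 0)) := by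
    intro b hb
    rw [Finset.mem_filter] at hb
    obtain ⟨-, μ, hd, x, hx, hxe, hbx⟩ := hb
    rw [Finset.mem_biUnion]
    refine ⟨μ, hS2 μ ?_, Finset.mem_filter.2 ⟨Finset.mem_univ _, hd, x, hx, hxe, hbx⟩⟩
    intro h0
    rw [h0, Submodule.mem_bot] at hxe
    exact hx hxe
  refine (Nat.mul_le_mul_right _ ((Finset.card_le_card h1).trans Finset.card_biUnion_le)).trans ?_
  rw [Finset.sum_mul]
  refine (Finset.sum_le_sum fun μ _ => STrans_one hp d G hG μ).trans ?_
  rw [Finset.sum_const, smul_eq_mul]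
  exact Nat.mul_le_mul_right _ hS

end Pool.Agent.H10.DG
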