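import Pool.Agent.H95.SQ.Defs

/-!
# DG-D1: the entries of an eigenvector span a large space over the prime field

PROOF.  Let `S` be the `ZMod p`-span of the entries of `w` (finite dimensional).  From
`∑ u, A v u • w u = μ * w v` we get `μ * w v ∈ S` for all `v`, so `μ * s ∈ S` for all `s ∈ S`
(`Submodule.span_induction`), so `μ^i * s ∈ S` for all `i`.  Take `v` with `w v ≠ 0` and
`d = dg p μ = (minpoly (ZMod p) μ).natDegree`.  The elements `μ^i * w v`, `i : Fin d`, are
linearly independent over `ZMod p` (`linearIndependent_pow μ` composed with the injective linear map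
`x ↦ x * w v`: `LinearIndependent.map'`) and lie in `S`, so `d ≤ finrank S`
(`LinearIndependent.fintype_card_le_finrank` for the family in the subtype `S`).
-/

set_option autoImplicit false

namespace Pool.Agent.H10.DG

open Matrix Classical Pool.Agent.H66.SP Pool.Agent.H95.SQ

theorem dg_le_span (p : ℕ) [Fact p.Prime] {V : Type*} [Fintype V] (A : Matrix V V (ZMod p))
    (μ : KK p) (w : V → KK p) (hw : w ≠ 0)
    (h : A.map (algebraMap (ZMod p) (KK p)) *ᵥ w = μ • w) :
    dg p μ ≤ Module.finrank (ZMod p) (Submodule.span (ZMod p) (Set.range w)) := by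
  set S : Submodule (ZMod p) (KK p) := Submodule.span (ZMod p) (Set.range w) with hS
  have hfin : FiniteDimensional (ZMod p) S :=
    FiniteDimensional.span_of_finite (ZMod p) (Set.finite_range w)
  have h1 : ∀ v, μ * w v ∈ S := by
    intro v
    have hv := congrFun h v
    rw [Pi.smul_apply, smul_eq_mul] at hv
    rw [← hv]
    unfold Matrix.mulVec dotProduct
    refine Submodule.sum_mem _ (fun u _ => ?_)
    show algebraMap (ZMod p) (KK p) (A v u) * w u ∈ S
    rw [← Algebra.smul_def]
    exact Submodule.smul_mem _ _ (Submodule.subset_span ⟨u, rfl⟩)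
  have h2 : ∀ s ∈ S, μ * s ∈ S := by
    intro s hs
    induction hs using Submodule.span_induction with
    | mem x hx =>
      obtain ⟨v, rfl⟩ := hx
      exact h1 v
    | zero => rw [mul_zero]; exact Submodule.zero_mem _
    | add x y _ _ hx hy => rw [mul_add]; exact Submodule.add_mem _ hx hy
    | smul a x _ hx => rw [mul_smul_comm]; exact Submodule.smul_mem _ _ hx
  have h3 : ∀ (i : ℕ) (s : KK p), s ∈ S → μ ^ i * s ∈ S := by
    intro i
    induction i with
    | zero => intro s hs; rwa [pow_zero, one_mul]
    | succ i ih => intro s hs; rw [pow_succ, mul_assoc]; exact ih _ (h2 s hs)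
  obtain ⟨v, hv⟩ : ∃ v, w v ≠ 0 := by
    by_contra hno
    push Not at hno
    exact hw (funext hno)
  have hmem : w v ∈ S := Submodule.subset_span ⟨v, rfl⟩
  let f : Fin (minpoly (ZMod p) μ).natDegree → S := fun i => ⟨μ ^ (i : ℕ) * w v, h3 i _ hmem⟩
  have hli : LinearIndependent (ZMod p) f := by
    apply LinearIndependent.of_comp S.subtype
    have h4 := linearIndependent_pow (K := ZMod p) μ
    have h5 := h4.map' (LinearMap.mulRight (ZMod p) (w v)) (by
      rw [LinearMap.ker_eq_bot]
      intro x y hxy
      simp only [LinearMap.mulRight_apply] at hxy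
      exact mul_right_cancel₀ hv hxy)
    exact h5
  have := hli.fintype_card_le_finrank
  rw [Fintype.card_fin] at this
  exact this

end Pool.Agent.H10.DG
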