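import Pool.Agent.H95.DL.Defs
import Pool.Agent.H10.DG.Defs

/-!
# DG-W1: Seidel switching

`swi G b`: complement the pairs `{i, j}` with `b i ≠ b j`.

PROOFS.
* `sei_swi`: cases on `i = j`, `G.Adj i j`, `b i`, `b j`.
* `swi_swi`: `swi (swi G b) b = G`: if `i ≠ j` then
  `((G.Adj i j ↔ b i = b j) ↔ b i = b j) ↔ G.Adj i j`; if `i = j` both sides are false.
* `card_swi`: the map `(G, b) ↦ (swi G b, b)` is an involution of `SimpleGraph V × (V → Bool)`, so
  the number of the pairs with `P (swi G b)` is the number of the pairs with `P G`, and that is the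
  product of the number of `G` with `P G` and `2 ^ card V`
  (`Finset.card_bij'` or `Finset.card_equiv`; `Finset.card_product`).
* `card_le_of_swi`: by `card_swi` and `h`.
-/

set_option autoImplicit false

namespace Pool.Agent.H10.DG

open Matrix Classical Pool.Agent.H66.SP Pool.Agent.H95.SQ Pool.Agent.H95.DL

/-- Seidel switching -/
def swi {V : Type*} (G : SimpleGraph V) (b : V → Bool) : SimpleGraph V where
  Adj i j := i ≠ j ∧ (G.Adj i j ↔ b i = b j)
  symm := ⟨by
    rintro i j ⟨h1, h2⟩
    refine ⟨fun h => h1 h.symm, ?_⟩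
    rw [G.adj_comm, h2]
    exact ⟨fun h => h.symm, fun h => h.symm⟩⟩
  loopless := ⟨fun _ h => h.1 rfl⟩

theorem sei_swi (K : Type*) [Ring K] {V : Type*} (G : SimpleGraph V) (b : V → Bool) (i j : V) :
    sei K (swi G b) i j = sv K b i * sei K G i j * sv K b j := by
  unfold sei sv
  rw [Matrix.of_apply, Matrix.of_apply]
  by_cases h : i = j
  · rw [if_pos h, if_pos h, mul_zero, zero_mul]
  · rw [if_neg h, if_neg h]
    have h1 : (swi G b).Adj i j ↔ (G.Adj i j ↔ b i = b j) :=
      ⟨fun h2 => h2.2, fun h2 => ⟨h, h2⟩⟩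
    rw [if_congr h1 rfl rfl]
    by_cases hG : G.Adj i j <;> cases hi : b i <;> cases hj : b j <;> simp [hG]

theorem swi_swi {V : Type*} (G : SimpleGraph V) (b : V → Bool) : swi (swi G b) b = G := by
  ext i j
  show (i ≠ j ∧ ((i ≠ j ∧ (G.Adj i j ↔ b i = b j)) ↔ b i = b j)) ↔ G.Adj i j
  by_cases h : i = j
  · subst h
    simp
  · have h1 : i ≠ j := h
    tauto

theorem card_swi {V : Type*} [Fintype V] [DecidableEq V] (P : SimpleGraph V → Prop) :
    ((Finset.univ : Finset (SimpleGraph V × (V → Bool))).filter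
      (fun x => P (swi x.1 x.2))).card =
    ((Finset.univ : Finset (SimpleGraph V)).filter P).card * 2 ^ Fintype.card V := by
  have h1 : ((Finset.univ : Finset (SimpleGraph V × (V → Bool))).filter
      (fun x => P (swi x.1 x.2))).card =
      ((Finset.univ : Finset (SimpleGraph V × (V → Bool))).filter (fun x => P x.1)).card := by
    refine Finset.card_bij' (fun x _ => (swi x.1 x.2, x.2)) (fun x _ => (swi x.1 x.2, x.2))
      ?_ ?_ ?_ ?_
    · intro x hx
      rw [Finset.mem_filter] at hx ⊢
      exact ⟨Finset.mem_univ _, hx.2⟩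
    · intro x hx
      rw [Finset.mem_filter] at hx ⊢
      refine ⟨Finset.mem_univ _, ?_⟩
      show P (swi (swi x.1 x.2) x.2)
      rw [swi_swi]
      exact hx.2
    · intro x _
      exact Prod.ext (swi_swi x.1 x.2) rfl
    · intro x _
      exact Prod.ext (swi_swi x.1 x.2) rfl
  rw [h1]
  have h2 : (Finset.univ : Finset (SimpleGraph V × (V → Bool))).filter (fun x => P x.1) =
      ((Finset.univ : Finset (SimpleGraph V)).filter P) ×ˢ (Finset.univ : Finset (V → Bool)) := by
    ext x
    rw [Finset.mem_filter, Finset.mem_product, Finset.mem_filter]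
    exact ⟨fun h => ⟨⟨Finset.mem_univ _, h.2⟩, Finset.mem_univ _⟩,
      fun h => ⟨Finset.mem_univ _, h.1.2⟩⟩
  rw [h2, Finset.card_product]
  congr 1
  rw [Finset.card_univ, Fintype.card_fun, Fintype.card_bool]

theorem card_le_of_swi {V : Type*} [Fintype V] [DecidableEq V] (P : SimpleGraph V → Prop)
    (P' : SimpleGraph V → (V → Bool) → Prop) (h : ∀ G b, P (swi G b) → P' G b) :
    ((Finset.univ : Finset (SimpleGraph V)).filter P).card * 2 ^ Fintype.card V ≤
    ((Finset.univ : Finset (SimpleGraph V × (V → Bool))).filter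
      (fun x => P' x.1 x.2)).card := by
  rw [← card_swi P]
  refine Finset.card_le_card fun x hx => ?_
  rw [Finset.mem_filter] at hx ⊢
  exact ⟨Finset.mem_univ _, h x.1 x.2 hx.2⟩

end Pool.Agent.H10.DG
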