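import Pool.Agent.H10.DG.Swi

/-!
# DG-W2: eigenvectors of `A(G^b)` orthogonal to `e` and eigenvectors of `S(G)` orthogonal to `s_b`

`tw b w = (s_v w_v)_v` with `s = sv K b`, `s_v^2 = 1`.

PROOFS.
* `tw_dot`: `∑ (s_v w_v)^2 = ∑ w_v^2`.
* `sv_dot_tw`: `∑ s_v (s_v w_v) = ∑ w_v`.
* `tw_ne_zero`: `s_v (s_v w_v) = w_v`.
* `sei_tw`: let `S' = sei K (swi G b) = J - 1 - 2 A` (`sei_eq`), `A = adj K (swi G b)`.  As
  `∑ w = 0`, `S' w = -w - 2 A w = (-1 - 2 μ) w`.  By `sei_swi`, `(S' w)_i = s_i (S (s w))_i`,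
  `S = sei K G`; multiply by `s_i`.
* `dg_lin`: `p` odd; `-1 - 2 μ` and `μ` generate the same subfield over `ZMod p`; e.g. the
  polynomials `minpoly μ` composed with `(-1 - X)/2` and conversely: both degrees are `≤` each
  other (`minpoly.natDegree_le` or `minpoly.dvd` together with `Polynomial.natDegree_comp`); only
  `dg p μ ≤ dg p (-1 - 2 * μ)` is claimed: `q = (minpoly (ZMod p) (-1 - 2 μ)).comp (-1 - 2 X)` is
  nonzero, of degree `dg p (-1 - 2 μ)`, and `aeval μ q = 0`, so `minpoly (ZMod p) μ ∣ q`.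
-/

set_option autoImplicit false

namespace Pool.Agent.H10.DG

open Matrix Classical Pool.Agent.H66.SP Pool.Agent.H95.SQ Pool.Agent.H95.DL

/-- twist by the signs -/
def tw {K : Type*} [Ring K] {V : Type*} (b : V → Bool) (w : V → K) : V → K :=
  fun v => sv K b v * w v

theorem tra_sv_sq {K : Type*} [Ring K] {V : Type*} (b : V → Bool) (v : V) :
    sv K b v * sv K b v = 1 := by
  unfold sv
  split_ifs <;> simp

theorem tw_dot {K : Type*} [CommRing K] {V : Type*} [Fintype V] (b : V → Bool) (w : V → K) :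
    tw b w ⬝ᵥ tw b w = w ⬝ᵥ w := by
  unfold dotProduct tw
  refine Finset.sum_congr rfl (fun v _ => ?_)
  have := tra_sv_sq (K := K) b v
  linear_combination (w v * w v) * this

theorem sv_dot_tw {K : Type*} [CommRing K] {V : Type*} [Fintype V] (b : V → Bool) (w : V → K) :
    sv K b ⬝ᵥ tw b w = ∑ v, w v := by
  unfold dotProduct tw
  refine Finset.sum_congr rfl (fun v _ => ?_)
  rw [← mul_assoc, tra_sv_sq, one_mul]

theorem tw_ne_zero {K : Type*} [Ring K] {V : Type*} (b : V → Bool) {w : V → K}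
    (hw : w ≠ 0) : tw b w ≠ 0 := by
  intro h
  apply hw
  funext v
  have := congrFun h v
  simp only [tw, Pi.zero_apply] at this
  have h2 : sv K b v * (sv K b v * w v) = 0 := by rw [this, mul_zero]
  rw [← mul_assoc, tra_sv_sq, one_mul] at h2
  exact h2

theorem sei_tw {K : Type*} [CommRing K] {V : Type*} [Fintype V] (G : SimpleGraph V)
    (b : V → Bool) (μ : K) (w : V → K) (h : adj K (swi G b) *ᵥ w = μ • w)
    (h0 : ∑ v, w v = 0) : sei K G *ᵥ tw b w = (-1 - 2 * μ) • tw b w := by
  have h1 : sei K (swi G b) *ᵥ w = (-1 - 2 * μ) • w := by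
    rw [sei_eq, Matrix.sub_mulVec, Matrix.sub_mulVec, Matrix.one_mulVec, Matrix.smul_mulVec, h]
    have hJ : (Matrix.of (fun _ _ => (1 : K)) : Matrix V V K) *ᵥ w = 0 := by
      funext i
      unfold Matrix.mulVec dotProduct
      simp only [Matrix.of_apply, one_mul, Pi.zero_apply]
      exact h0
    rw [hJ, zero_sub, smul_smul, sub_smul, neg_smul, one_smul]
  funext i
  have h2 := congrFun h1 i
  have h3 : (sei K (swi G b) *ᵥ w) i = sv K b i * (sei K G *ᵥ tw b w) i := by
    unfold Matrix.mulVec dotProduct tw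
    rw [Finset.mul_sum]
    refine Finset.sum_congr rfl (fun j _ => ?_)
    show sei K (swi G b) i j * w j = sv K b i * (sei K G i j * (sv K b j * w j))
    rw [sei_swi]
    ring
  rw [h3, Pi.smul_apply, smul_eq_mul] at h2
  rw [Pi.smul_apply, smul_eq_mul]
  unfold tw at h2 ⊢
  have h4 := tra_sv_sq (K := K) b i
  linear_combination (sv K b i) * h2 - ((sei K G *ᵥ fun v => sv K b v * w v) i) * h4

theorem dg_lin (p : ℕ) [Fact p.Prime] (hp : p ≠ 2) (μ : KK p) :
    dg p μ ≤ dg p (-1 - 2 * μ) := by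
  unfold dg
  set f := minpoly (ZMod p) (-1 - 2 * μ) with hf
  set g : Polynomial (ZMod p) := Polynomial.C (-2) * Polynomial.X + Polynomial.C (-1) with hg
  have h2 : (-2 : ZMod p) ≠ 0 := by
    intro h
    have h' : (2 : ZMod p) = 0 := by linear_combination -h
    have h4 : ((2 : ℕ) : ZMod p) = 0 := by exact_mod_cast h'
    rw [ZMod.natCast_eq_zero_iff] at h4
    exact hp ((Nat.prime_dvd_prime_iff_eq (Fact.out : p.Prime) Nat.prime_two).mp h4)
  have hgd : g.natDegree = 1 := Polynomial.natDegree_linear h2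
  have hint : IsIntegral (ZMod p) (-1 - 2 * μ) := Algebra.IsIntegral.isIntegral _
  have hf0 : f ≠ 0 := minpoly.ne_zero hint
  have hq : Polynomial.aeval μ (f.comp g) = 0 := by
    rw [Polynomial.aeval_comp]
    have : Polynomial.aeval μ g = -1 - 2 * μ := by
      rw [hg, map_add, map_mul, Polynomial.aeval_C, Polynomial.aeval_C, Polynomial.aeval_X,
        map_neg, map_neg, map_one, map_ofNat]
      ring
    rw [this, hf, minpoly.aeval]
  have hq0 : f.comp g ≠ 0 := by
    intro h
    rw [Polynomial.comp_eq_zero_iff] at h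
    rcases h with h | ⟨_, h⟩
    · exact hf0 h
    · have := congrArg Polynomial.natDegree h
      rw [hgd, Polynomial.natDegree_C] at this
      exact absurd this one_ne_zero
  have := Polynomial.natDegree_le_of_dvd (minpoly.dvd (ZMod p) μ hq) hq0
  rw [Polynomial.natDegree_comp, hgd, mul_one] at this
  exact this

end Pool.Agent.H10.DG
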