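import Pool.Agent.H10.DG.LLa

/-!
# DG-R7: the reductions `UU Q p i`

PROOFS.
* `UU_ob`: `x ∈ UU Q p i` is the reduction of `u ∈ LL Q (p^i)`; `adj (ZMod p) G *ᵥ x` is the
  reduction of `adj ℤ G *ᵥ u` (`LL_mulVec`); `x ⬝ᵥ y` is the reduction of `u ⬝ᵥ u'`, divisible by
  `(p^i)^2`, hence by `p` (`LL_dot`, `i ≥ 1`); `∑ x v` is the reduction of `∑ u v` (`LL_sum`).
* `UU_anti`: `LL_anti`.
* `UU_ne_bot`: let `M` be the integral matrix with `l Q = M` (`IsLevel.int`).  Some entry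
  `M a w` is not divisible by `p`: otherwise `M = p M'` and `(l / p) Q = M'` is integral
  (`(l / p : ℕ)` cast is `l / p` as `p ∣ l`), contradicting `IsLevel.min`.  The column
  `u v = M v w` is `l Q e_w = p^i Q z` with `z = (l / p^i) e_w`, so `u ∈ LL Q (p^i)`, and its
  reduction is nonzero at `a`.
* `UU_ob2`: invariance from `UU_ob`.  For `x ∈ UU Q 2 1`, the reduction of `u ∈ LL Q 2`:
  `4 ∣ u ⬝ᵥ u = ∑ (u v)^2` (`LL_dot`), and `(u v)^2 ≡ 1 mod 4` if `u v` is odd (`x v ≠ 0`), and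
  `≡ 0 mod 4` if `u v` is even (`x v = 0`); so `nz x ≡ u ⬝ᵥ u ≡ 0 mod 4`.
-/

set_option autoImplicit false

namespace Pool.Agent.H10.DG

open Matrix Pool.Agent.H66.SP Pool.Agent.H95.SQ

theorem UUa_mulVec_cast {V : Type*} [Fintype V] (G : SimpleGraph V) (p : ℕ)
    (u : V → ℤ) (v : V) :
    (adj (ZMod p) G *ᵥ fun w => ((u w : ℤ) : ZMod p)) v = (((adj ℤ G *ᵥ u) v : ℤ) : ZMod p) := by
  simp only [Matrix.mulVec, dotProduct, adj, Matrix.of_apply]
  push_cast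
  rfl

theorem UU_ob {V : Type*} [Fintype V] [DecidableEq V] {G H : SimpleGraph V}
    {Q : Matrix V V ℚ} (hQ : IsMate G H Q) (p : ℕ) {i : ℕ} (hi : 1 ≤ i) : Ob p G (UU Q p i) := by
  refine ⟨?_, ?_, ?_⟩
  · rintro x ⟨u, hu, hx⟩
    refine ⟨adj ℤ G *ᵥ u, LL_mulVec hQ hu, fun v => ?_⟩
    have hx' : x = fun w => ((u w : ℤ) : ZMod p) := funext hx
    rw [hx', UUa_mulVec_cast]
  · rintro x ⟨u, hu, hx⟩ y ⟨u', hu', hy⟩
    have h1 := LL_dot hQ hu hu'
    have h2 : (p : ℤ) ∣ u ⬝ᵥ u' := by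
      refine dvd_trans ?_ h1
      push_cast
      exact dvd_trans (dvd_pow_self _ (by omega)) (dvd_pow_self _ (by norm_num))
    have h3 : x ⬝ᵥ y = ((u ⬝ᵥ u' : ℤ) : ZMod p) := by
      simp only [dotProduct]
      push_cast
      exact Finset.sum_congr rfl fun v _ => by rw [hx v, hy v]
    rw [h3]
    exact (ZMod.intCast_zmod_eq_zero_iff_dvd _ _).2 h2
  · rintro x ⟨u, hu, hx⟩
    have h1 := LL_sum hQ hu
    have h2 : (p : ℤ) ∣ ∑ v, u v := by
      refine dvd_trans ?_ h1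
      push_cast
      exact dvd_pow_self _ (by omega)
    have h3 : ∑ v, x v = ((∑ v, u v : ℤ) : ZMod p) := by
      push_cast
      exact Finset.sum_congr rfl fun v _ => by rw [hx v]
    rw [h3]
    exact (ZMod.intCast_zmod_eq_zero_iff_dvd _ _).2 h2

theorem UU_anti {V : Type*} [Fintype V] (Q : Matrix V V ℚ) (p : ℕ) {i i' : ℕ} (h : i ≤ i') :
    UU Q p i' ≤ UU Q p i := by
  rintro x ⟨u, hu, hx⟩
  exact ⟨u, LL_anti Q (pow_dvd_pow p h) hu, hx⟩

theorem UU_ne_bot {V : Type*} [Fintype V] [DecidableEq V] {Q : Matrix V V ℚ} {l : ℕ}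
    (hl : IsLevel Q l) {p : ℕ} (hp : p.Prime) {i : ℕ} (hi : 1 ≤ i) (h : p ^ i ∣ l) :
    UU Q p i ≠ ⊥ := by
  obtain ⟨M, hM⟩ := hl.int
  have hpl : p ∣ l := dvd_trans (dvd_pow_self p (by omega)) h
  have hp0 : (p : ℚ) ≠ 0 := by exact_mod_cast hp.ne_zero
  have hex : ∃ a w, ¬ (p : ℤ) ∣ M a w := by
    by_contra hcon
    push Not at hcon
    refine hl.min p hp hpl ?_
    choose f hf using hcon
    refine ⟨fun a w => f a w, fun a w => ?_⟩
    rw [Nat.cast_div hpl hp0]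
    have h1 := hM a w
    rw [hf a w] at h1
    push_cast at h1
    field_simp
    linarith
  obtain ⟨a, w, haw⟩ := hex
  obtain ⟨k, hk⟩ := h
  intro hbot
  have hmem : (fun v => ((M v w : ℤ) : ZMod p)) ∈ UU Q p i := by
    refine ⟨fun v => M v w, ⟨fun w' => if w' = w then (k : ℤ) else 0, fun v => ?_⟩, fun v => rfl⟩
    rw [← hM v w]
    simp only [Matrix.mulVec, dotProduct]
    rw [Finset.sum_eq_single w]
    · simp only [if_true]
      rw [hk]
      push_cast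
      ring
    · intro b _ hb
      simp [hb]
    · intro hw
      exact absurd (Finset.mem_univ w) hw
  rw [hbot, Submodule.mem_bot] at hmem
  have h2 := congrFun hmem a
  simp only [Pi.zero_apply] at h2
  exact haw ((ZMod.intCast_zmod_eq_zero_iff_dvd _ _).1 h2)

theorem UU_ob2 {V : Type*} [Fintype V] [DecidableEq V] {G H : SimpleGraph V}
    {Q : Matrix V V ℚ} (hQ : IsMate G H Q) : Ob2 G (UU Q 2 1) := by
  refine ⟨(UU_ob hQ 2 le_rfl).1, ?_⟩
  rintro x ⟨u, hu, hx⟩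
  have h1 := LL_dot hQ hu hu
  have h4 : (4 : ℤ) ∣ u ⬝ᵥ u := by
    refine dvd_trans ?_ h1
    norm_num
  have h5 : ((nz x : ℕ) : ZMod 4) = ((u ⬝ᵥ u : ℤ) : ZMod 4) := by
    unfold nz
    rw [Finset.card_filter]
    simp only [dotProduct]
    push_cast
    refine Finset.sum_congr rfl fun v _ => ?_
    rw [hx v]
    rcases Int.even_or_odd (u v) with ⟨k, hk⟩ | ⟨k, hk⟩
    · have hz : ((u v : ℤ) : ZMod 2) = 0 := by
        rw [ZMod.intCast_zmod_eq_zero_iff_dvd]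
        exact ⟨k, by push_cast; omega⟩
      rw [if_neg (by simpa using hz), hk]
      have : ((k + k : ℤ) : ZMod 4) * ((k + k : ℤ) : ZMod 4) = ((4 * (k * k) : ℤ) : ZMod 4) := by
        push_cast
        ring
      rw [this]
      symm
      exact (ZMod.intCast_zmod_eq_zero_iff_dvd _ 4).2 ⟨k * k, by push_cast; ring⟩
    · have hz : ((u v : ℤ) : ZMod 2) ≠ 0 := by
        rw [Ne, ZMod.intCast_zmod_eq_zero_iff_dvd]
        rintro ⟨m, hm⟩
        push_cast at hm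
        omega
      rw [if_pos hz, hk]
      have : ((2 * k + 1 : ℤ) : ZMod 4) * ((2 * k + 1 : ℤ) : ZMod 4)
          = ((4 * (k * k + k) : ℤ) : ZMod 4) + 1 := by
        push_cast
        ring
      rw [this, (ZMod.intCast_zmod_eq_zero_iff_dvd (4 * (k * k + k)) 4).2
        ⟨k * k + k, by push_cast; ring⟩, zero_add]
  rw [(ZMod.intCast_zmod_eq_zero_iff_dvd _ 4).2 (by exact_mod_cast h4)] at h5
  exact (ZMod.natCast_eq_zero_iff _ _).1 h5

end Pool.Agent.H10.DG
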